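import Pool.Agent.H549R2.UI.Defs

/-!
# Perfect matchings of unit interval graphs: forward words and matchings
-/

namespace Pool.Agent.H549R2.UI

open Finset MvPolynomial

theorem haf_cast (W : ℕ → ℕ → ℕ) (w : List ℕ) :
    ((haf W w : ℕ) : ℚ) = haf (fun x z => ((W x z : ℕ) : ℚ)) w := by
  induction hn : w.length using Nat.strong_induction_on generalizing w with
  | _ n ih =>
    match w, hn with
    | [], _ => rw [haf, haf]; simp
    | x :: xs, hn =>
      rw [haf, haf]
      push_cast
      refine Finset.sum_congr rfl fun i _ => ?_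
      have hlt : (xs.eraseIdx i).length < n := by
        rw [← hn, List.length_cons, List.length_eraseIdx]
        split_ifs <;> omega
      rw [ih _ hlt (xs.eraseIdx i) rfl]

theorem haf_W1 (w : List ℕ) : ((haf W1 w : ℕ) : ℚ) = haf W1 w := by
  rw [haf_cast]
  congr 1
  funext x z
  simp [W1]

theorem W3_cast (x z : ℕ) : ((W3 x z : ℕ) : ℚ) = W3 x z := by
  simp [W3]

theorem haf_W3 (w : List ℕ) : ((haf W3 w : ℕ) : ℚ) = haf W3 w := by
  rw [haf_cast]
  congr 1
  funext x z
  exact W3_cast x z

namespace A1aux

theorem opL_add (x : ℕ) (p q : V) : opL x (p + q) = opL x p + opL x q := by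
  unfold opL
  split_ifs
  · ring
  · rw [map_add]

theorem opL_C_mul (x : ℕ) (c : ℚ) (p : V) : opL x (C c * p) = C c * opL x p := by
  unfold opL
  split_ifs
  · ring
  · rw [pderiv_C_mul]

theorem opL_zero (x : ℕ) : opL x 0 = 0 := by
  unfold opL
  split_ifs <;> simp

theorem fw_add (w : List ℕ) (p q : V) : fw w (p + q) = fw w p + fw w q := by
  induction w generalizing p q with
  | nil => rfl
  | cons x xs ih => simp only [fw, opL_add, ih]

theorem fw_C_mul (w : List ℕ) (c : ℚ) (p : V) : fw w (C c * p) = C c * fw w p := by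
  induction w generalizing p with
  | nil => rfl
  | cons x xs ih => simp only [fw, opL_C_mul, ih]

theorem fw_zero (w : List ℕ) : fw w 0 = 0 := by
  induction w with
  | nil => rfl
  | cons x xs ih => simp only [fw, opL_zero, ih]

theorem W3_odd {x z : ℕ} (hz : z % 2 = 1) : (W3 x z : ℚ) = 0 := by
  unfold W3
  rw [if_neg]
  rintro ⟨h1, h2⟩
  omega

theorem W3_even {x z : ℕ} (hx : x % 2 ≠ 1) : (W3 x z : ℚ) = 0 := by
  unfold W3
  rw [if_neg]
  rintro ⟨h1, h2⟩
  exact hx h1

theorem opL_comm (b z : ℕ) (p : V) : opL z ((X b + X (b + 1)) * p) =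
    C (W3 (2 * b + 1) z) * p + (X b + X (b + 1)) * opL z p := by
  by_cases hz : z % 2 = 1
  · rw [W3_odd hz]
    unfold opL
    rw [if_pos hz, if_pos hz, map_zero]
    ring
  · unfold opL
    rw [if_neg hz, if_neg hz, Derivation.leibniz, map_add, pderiv_X, pderiv_X]
    have h1 : (Pi.single (M := fun _ => V) (z / 2) 1 b) +
        (Pi.single (M := fun _ => V) (z / 2) 1 (b + 1)) = C (W3 (2 * b + 1) z) := by
      unfold W3
      by_cases h2 : b = z / 2
      · have h3 : ¬ (b + 1 = z / 2) := by omega
        rw [Pi.single_apply, Pi.single_apply, if_pos h2, if_neg h3, if_pos]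
        · simp
        · omega
      · by_cases h3 : b + 1 = z / 2
        · rw [Pi.single_apply, Pi.single_apply, if_neg h2, if_pos h3, if_pos]
          · simp
          · omega
        · rw [Pi.single_apply, Pi.single_apply, if_neg h2, if_neg h3, if_neg]
          · simp
          · omega
    rw [h1, smul_eq_mul, smul_eq_mul]
    ring

theorem fw_mul (b : ℕ) (xs : List ℕ) (p : V) : fw xs ((X b + X (b + 1)) * p) =
    (X b + X (b + 1)) * fw xs p +
      ∑ i : Fin xs.length, C (W3 (2 * b + 1) xs[i]) * fw (xs.eraseIdx i) p := by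
  induction xs generalizing p with
  | nil => simp [fw]
  | cons z zs ih =>
    have h1 : fw (z :: zs) ((X b + X (b + 1)) * p) =
        fw zs (opL z ((X b + X (b + 1)) * p)) := rfl
    have h2 : fw (z :: zs) p = fw zs (opL z p) := rfl
    rw [h1, opL_comm, fw_add, fw_C_mul, ih, h2]
    have h3 : (∑ i : Fin (z :: zs).length,
        C (W3 (2 * b + 1) (z :: zs)[i]) * fw ((z :: zs).eraseIdx i) p : V) =
        C (W3 (2 * b + 1) z) * fw zs p +
          ∑ i : Fin zs.length, C (W3 (2 * b + 1) zs[i]) * fw (zs.eraseIdx i) (opL z p) := by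
      exact Fin.sum_univ_succ (n := zs.length) (fun i : Fin (zs.length + 1) =>
        (C (W3 (2 * b + 1) (z :: zs)[(i : ℕ)]) * fw ((z :: zs).eraseIdx i) p : V))
    rw [h3]
    ring

end A1aux

open A1aux in
theorem cc_fw (w : List ℕ) : constantCoeff (fw w 1) = ((haf W3 w : ℕ) : ℚ) := by
  rw [haf_W3]
  induction hn : w.length using Nat.strong_induction_on generalizing w with
  | _ n ih =>
    match w, hn with
    | [], _ => rw [haf]; simp [fw]
    | x :: xs, hn =>
      rw [haf]
      by_cases hx : x % 2 = 1
      · have h1 : fw (x :: xs) 1 = fw xs ((X (x / 2) + X (x / 2 + 1)) * 1) := by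
          change fw xs (opL x 1) = _
          unfold opL
          rw [if_pos hx]
        rw [h1, fw_mul, map_add, map_mul, map_add, constantCoeff_X, constantCoeff_X, add_zero,
          zero_mul, zero_add, map_sum]
        refine Finset.sum_congr rfl fun i _ => ?_
        have hlt : (xs.eraseIdx i).length < n := by
          rw [← hn, List.length_cons, List.length_eraseIdx]
          split_ifs <;> omega
        rw [map_mul, constantCoeff_C, ih _ hlt (xs.eraseIdx i) rfl]
        have e : 2 * (x / 2) + 1 = x := by omega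
        rw [e]
      · have h1 : fw (x :: xs) 1 = 0 := by
          change fw xs (opL x 1) = 0
          unfold opL
          rw [if_neg hx, pderiv_one, fw_zero]
        rw [h1, map_zero]
        symm
        refine Finset.sum_eq_zero fun i _ => ?_
        rw [W3_even hx, zero_mul]

end Pool.Agent.H549R2.UI
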