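import Pool.Agent.H549R2.UI.Defs

/-!
# Perfect matchings of unit interval graphs: one gadget
-/

namespace Pool.Agent.H549R2.UI

open Finset MvPolynomial

theorem fw_append (u v : List ℕ) (p : V) : fw (u ++ v) p = fw v (fw u p) := by
  induction u generalizing p with
  | nil => rfl
  | cons x xs ih => exact ih (opL x p)

namespace A2aux

theorem fw_replicate (N x : ℕ) (p : V) : fw (List.replicate N x) p = (opL x)^[N] p := by
  induction N generalizing p with
  | zero => rfl
  | succ N ih =>
    rw [List.replicate_succ, Function.iterate_succ_apply]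
    exact ih (opL x p)

theorem fw_rows (N r : ℕ) (p : V) :
    fw (List.replicate N (2 * r + 1)) p = (X r + X (r + 1)) ^ N * p := by
  rw [fw_replicate]
  have h : opL (2 * r + 1) = fun q : V => (X r + X (r + 1)) * q := by
    funext q
    unfold opL
    have e : (2 * r + 1) / 2 = r := by omega
    rw [if_pos (by omega), e]
  rw [h, mul_left_iterate]

theorem fw_cols (N y : ℕ) (p : V) :
    fw (List.replicate N (2 * y)) p = (pderiv y)^[N] p := by
  rw [fw_replicate]
  have h : opL (2 * y) = fun q : V => pderiv y q := by
    funext q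
    unfold opL
    have e : (2 * y) / 2 = y := by omega
    rw [if_neg (by omega), e]
  rw [h]

theorem leib (y : ℕ) (a b : V) (n : ℕ) : (pderiv y)^[n] (a * b) =
    ∑ ij ∈ antidiagonal n, n.choose ij.1 • ((pderiv y)^[ij.1] a * (pderiv y)^[ij.2] b) := by
  induction n with
  | zero => simp
  | succ n ih =>
    rw [Function.iterate_succ_apply', ih, map_sum,
      Finset.sum_antidiagonal_choose_succ_nsmul
        (fun i j => (pderiv y)^[i] a * (pderiv y)^[j] b) n, ← Finset.sum_add_distrib]
    refine Finset.sum_congr rfl fun ij hij => ?_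
    have h1 : n.choose ij.2 = n.choose ij.1 := by
      rw [HasAntidiagonal.mem_antidiagonal] at hij
      exact (Nat.choose_symm_of_eq_add (by omega)).symm
    rw [map_nsmul, Derivation.leibniz, h1, ← nsmul_add, Function.iterate_succ_apply',
      Function.iterate_succ_apply', smul_eq_mul, smul_eq_mul]
    congr 1
    ring

theorem der_w {r y : ℕ} (hy : y = r ∨ y = r + 1) : pderiv y (X r + X (r + 1) : V) = 1 := by
  rw [map_add, pderiv_X, pderiv_X, Pi.single_apply, Pi.single_apply]
  rcases hy with h | h
  · rw [if_pos h.symm, if_neg (by omega), add_zero]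
  · rw [if_neg (by omega), if_pos h.symm, zero_add]

theorem iter_w {r y : ℕ} (hy : y = r ∨ y = r + 1) (N j : ℕ) :
    (pderiv y)^[j] ((X r + X (r + 1) : V) ^ N) =
      (N.descFactorial j : V) * (X r + X (r + 1)) ^ (N - j) := by
  induction j with
  | zero => simp
  | succ j ih =>
    rw [Function.iterate_succ_apply', ih, Derivation.leibniz, Derivation.leibniz_pow, der_w hy,
      Nat.descFactorial_succ]
    have h0 : pderiv y ((N.descFactorial j : ℕ) : V) = 0 := by
      rw [← map_natCast (C : ℚ →+* V)]
      exact pderiv_C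
    rw [h0, smul_zero, add_zero, Nat.sub_sub]
    simp only [smul_eq_mul, nsmul_eq_mul, mul_one]
    push_cast
    ring

theorem bin_nat (N k : ℕ) : bin (N : ℚ) k = (N.choose k : ℚ) := by
  have h : ∏ i ∈ range k, ((N : ℚ) - i) = (N.descFactorial k : ℚ) := by
    induction k with
    | zero => simp
    | succ k ih =>
      rw [prod_range_succ, ih, Nat.descFactorial_succ]
      rcases le_or_gt k N with hk | hk
      · rw [Nat.cast_mul, Nat.cast_sub hk]
        ring
      · rw [Nat.descFactorial_of_lt hk]
        simp
  unfold bin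
  rw [h, Nat.descFactorial_eq_factorial_mul_choose]
  have : (k.factorial : ℚ) ≠ 0 := by exact_mod_cast k.factorial_ne_zero
  push_cast
  field_simp

end A2aux

open A2aux in
theorem fw_gadget (K N r y : ℕ) (hy : y = r ∨ y = r + 1) (p : V)
    (hp : (pderiv y)^[K + 1] p = 0) :
    fw (List.replicate N (2 * r + 1) ++ List.replicate N (2 * y)) p =
      C (N.factorial : ℚ) * Gop K N r y p := by
  set g : ℕ → V := fun k => C ((N.factorial : ℚ) * (bin N k / k.factorial)) *
    ((X r + X (r + 1)) ^ k * (pderiv y)^[k] p) with hg
  have hR : C (N.factorial : ℚ) * Gop K N r y p = ∑ k ∈ range (K + 1), g k := by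
    unfold Gop
    rw [Finset.mul_sum]
    refine Finset.sum_congr rfl fun k _ => ?_
    rw [hg, ← mul_assoc, ← C_mul]
  have hL : fw (List.replicate N (2 * r + 1) ++ List.replicate N (2 * y)) p =
      ∑ k ∈ range (N + 1), g k := by
    rw [fw_append, fw_rows, fw_cols, leib,
      ← Finset.Nat.sum_antidiagonal_swap, Finset.Nat.sum_antidiagonal_eq_sum_range_succ_mk]
    refine Finset.sum_congr rfl fun k hk => ?_
    have hk' : k ≤ N := by
      rw [mem_range] at hk; omega
    simp only [Prod.swap, hg]
    rw [iter_w hy, nsmul_eq_mul, bin_nat, Nat.sub_sub_self hk', Nat.choose_symm hk']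
    have h1 : (N.descFactorial (N - k) : ℚ) = N.factorial / k.factorial := by
      have h2 := Nat.factorial_mul_descFactorial (Nat.sub_le N k)
      rw [Nat.sub_sub_self hk'] at h2
      have h3 : (k.factorial : ℚ) ≠ 0 := by exact_mod_cast k.factorial_ne_zero
      rw [eq_div_iff h3, mul_comm]
      exact_mod_cast h2
    have h4 : ((N.choose k : ℕ) : V) = C ((N.choose k : ℕ) : ℚ) := by
      rw [map_natCast]
    have h5 : ((N.descFactorial (N - k) : ℕ) : V) = C ((N.factorial : ℚ) / k.factorial) := by
      rw [← h1, map_natCast]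
    rw [h4, h5]
    have h6 : (N.factorial : ℚ) * ((N.choose k : ℚ) / k.factorial) =
        (N.choose k : ℚ) * ((N.factorial : ℚ) / k.factorial) := by ring
    rw [h6, C_mul]
    ring
  have hN0 : ∀ k, N < k → g k = 0 := by
    intro k hk
    rw [hg]
    simp only
    rw [bin_nat, Nat.choose_eq_zero_of_lt hk]
    simp
  have hK0 : ∀ k, K < k → g k = 0 := by
    intro k hk
    obtain ⟨j, rfl⟩ : ∃ j, k = j + (K + 1) := ⟨k - (K + 1), by omega⟩
    rw [hg]
    simp only
    rw [Function.iterate_add_apply, hp]
    have h0 : (pderiv y)^[j] (0 : V) = 0 := by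
      induction j with
      | zero => rfl
      | succ j ih =>
        rw [Function.iterate_succ_apply, map_zero]
        exact ih (by omega)
    rw [h0]
    simp
  have hsum : ∀ A B : ℕ, A ≤ B → (∀ k, A < k → g k = 0) →
      ∑ k ∈ range (A + 1), g k = ∑ k ∈ range (B + 1), g k := by
    intro A B hAB h0
    apply Finset.sum_subset
    · intro k hk
      rw [mem_range] at hk ⊢
      omega
    · intro k _ hk
      apply h0
      rw [mem_range] at hk
      omega
  rw [hL, hR]
  rcases le_total N K with h | h
  · exact hsum N K h hN0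
  · exact (hsum K N h hK0).symm

end Pool.Agent.H549R2.UI
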