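import Pool.Agent.H549R2.UI.Defs
import Pool.Agent.H549R2.UI.A2

/-!
# Perfect matchings of unit interval graphs: lists of gadgets
-/

namespace Pool.Agent.H549R2.UI

open Finset MvPolynomial

theorem opL_C_mul_A3 (x : ℕ) (c : ℚ) (p : V) : opL x (C c * p) = C c * opL x p := by
  unfold opL
  split_ifs
  · ring
  · rw [pderiv_C_mul]

theorem fw_C_mul (w : List ℕ) (c : ℚ) (p : V) : fw w (C c * p) = C c * fw w p := by
  induction w generalizing p with
  | nil => rfl
  | cons x xs ih =>
    show fw xs (opL x (C c * p)) = C c * fw xs (opL x p)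
    rw [opL_C_mul_A3, ih]

theorem iter_C_mul_A3 (y : ℕ) (k : ℕ) (c : ℚ) (p : V) :
    (pderiv y)^[k] (C c * p) = C c * (pderiv y)^[k] p := by
  induction k with
  | zero => rfl
  | succ k ih => rw [Function.iterate_succ_apply', Function.iterate_succ_apply', ih, pderiv_C_mul]

theorem Gop_C_mul (K : ℕ) (t : ℚ) (r y : ℕ) (c : ℚ) (p : V) :
    Gop K t r y (C c * p) = C c * Gop K t r y p := by
  unfold Gop
  rw [Finset.mul_sum]
  apply Finset.sum_congr rfl
  intro k _
  rw [iter_C_mul_A3]
  ring

theorem iter_homog_A3 {k : ℕ} (y : ℕ) {p : V} (h : p.IsHomogeneous k) (j : ℕ) :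
    ((pderiv y)^[j] p).IsHomogeneous (k - j) := by
  induction j with
  | zero => exact h
  | succ j ih =>
    rw [Function.iterate_succ_apply']
    have := ih.pderiv (i := y)
    rwa [Nat.sub_sub] at this

theorem iter_zero {K k : ℕ} (y : ℕ) {p : V} (h : p.IsHomogeneous k) (hk : k ≤ K) :
    (pderiv y)^[K + 1] p = 0 := by
  have h1 := iter_homog_A3 y h K
  rw [Nat.sub_eq_zero_of_le hk, ← totalDegree_zero_iff_isHomogeneous,
    totalDegree_eq_zero_iff_eq_C] at h1
  rw [Function.iterate_succ_apply', h1, pderiv_C]

theorem lin_homog_A3 (r : ℕ) : (X r + X (r + 1) : V).IsHomogeneous 1 :=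
  (isHomogeneous_X ℚ r).add (isHomogeneous_X ℚ (r + 1))

theorem Gop_homog {K k : ℕ} (t : ℚ) (r y : ℕ) {p : V} (h : p.IsHomogeneous k) :
    (Gop K t r y p).IsHomogeneous k := by
  unfold Gop
  apply IsHomogeneous.sum
  intro j _
  rcases le_or_gt j k with hj | hj
  · have h1 := (((lin_homog_A3 r).pow j).mul (iter_homog_A3 y h j)).C_mul
      (bin t j / j.factorial)
    have e : 1 * j + (k - j) = k := by omega
    rwa [e] at h1
  · have h1 : (pderiv y)^[j] p = 0 := by
      have h2 := iter_zero (K := j - 1) y h (by omega)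
      have e : j - 1 + 1 = j := by omega
      rwa [e] at h2
    rw [h1, mul_zero, mul_zero]
    exact isHomogeneous_zero ℕ ℚ k

theorem run_homog {K k : ℕ} (t : ℚ) (prog : List Ins) {p : V} (h : p.IsHomogeneous k) :
    (run K t prog p).IsHomogeneous k := by
  induction prog generalizing p with
  | nil => exact h
  | cons i is ih => exact ih (Gop_homog _ _ _ h)

theorem run_append (K : ℕ) (t : ℚ) (u v : List Ins) (p : V) :
    run K t (u ++ v) p = run K t v (run K t u p) := by
  induction u generalizing p with
  | nil => rfl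
  | cons i is ih => exact ih _

theorem fw_letters {K k : ℕ} (m : ℕ) (prog : List Ins) (hprog : ∀ i ∈ prog, OKI i) (p : V)
    (hp : p.IsHomogeneous k) (hk : k ≤ K) :
    fw (lettersP m prog) p = C (facP m prog : ℚ) * run K m prog p := by
  induction prog generalizing p with
  | nil => simp [lettersP, facP, run, fw]
  | cons i is ih =>
    have e1 : lettersP m (i :: is) = (List.replicate (m + i.2.2) (2 * i.1 + 1) ++
        List.replicate (m + i.2.2) (2 * i.2.1)) ++ lettersP m is := by
      simp [lettersP]
    have e2 : facP m (i :: is) = (m + i.2.2).factorial * facP m is := by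
      simp [facP]
    have e3 : run K m (i :: is) p = run K m is (Gop K ((m : ℚ) + i.2.2) i.1 i.2.1 p) := rfl
    rw [e1, fw_append, fw_gadget K (m + i.2.2) i.1 i.2.1 (hprog i (List.mem_cons_self ..)).1 p
      (iter_zero _ hp hk), fw_C_mul,
      ih (fun j hj => hprog j (List.mem_cons_of_mem _ hj)) _ (Gop_homog _ _ _ hp), e2, e3]
    push_cast
    rw [C_mul, mul_assoc]

theorem OKI_rowP (q : ℕ) (as : List ℕ) (h : ∀ a ∈ as, a ≤ 7) : ∀ i ∈ rowP q as, OKI i := by
  induction as generalizing q with
  | nil =>
    intro i hi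
    simp only [rowP, List.mem_singleton] at hi
    subst hi
    exact ⟨Or.inl rfl, by norm_num⟩
  | cons a as ih =>
    intro i hi
    have ha := h a (List.mem_cons_self ..)
    simp only [rowP, List.mem_append] at hi
    rcases hi with (hi | hi) | hi
    · simp only [cell, crs, List.cons_append, List.nil_append, List.mem_cons, List.not_mem_nil,
        or_false] at hi
      rcases hi with rfl | rfl | rfl | rfl | rfl | rfl | rfl | rfl | rfl | rfl <;>
        exact ⟨by simp, by simp <;> omega⟩
    · exact ih (q + 3) (fun b hb => h b (List.mem_cons_of_mem _ hb)) i hi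
    · simp only [back, List.mem_cons, List.not_mem_nil, or_false] at hi
      rcases hi with rfl | rfl <;> exact ⟨by simp, by simp⟩

theorem rows_A3 (m K : ℕ) (B : List (List Bool)) (k : ℕ) (p : V) (hp : p.IsHomogeneous k)
    (hk : k + B.length ≤ K) :
    fw (B.flatMap (fun r => 1 :: lettersP m (rowP 1 (nums r)))) p =
      C (facA m B : ℚ) * runA K m B p := by
  induction B generalizing k p with
  | nil => simp [facA, runA, fw]
  | cons r B ih =>
    have hk' : k + 1 + B.length ≤ K := by
      rw [List.length_cons] at hk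
      omega
    have e1 : (r :: B).flatMap (fun r => 1 :: lettersP m (rowP 1 (nums r))) =
        (1 :: lettersP m (rowP 1 (nums r))) ++
          B.flatMap (fun r => 1 :: lettersP m (rowP 1 (nums r))) := by
      simp
    have e2 : opL 1 p = (X 0 + X 1) * p := rfl
    have e3 : facA m (r :: B) = facP m (rowP 1 (nums r)) * facA m B := by
      simp [facA]
    have hn : ∀ a ∈ nums r, a ≤ 7 := by
      intro a ha
      unfold nums at ha
      obtain ⟨b, _, rfl⟩ := List.mem_map.1 ha
      cases b <;> simp
    have h1 : ((X 0 + X 1) * p : V).IsHomogeneous (k + 1) := by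
      rw [add_comm k 1]
      exact (lin_homog_A3 0).mul hp
    rw [e1, fw_append]
    show fw _ (fw (lettersP m (rowP 1 (nums r))) (opL 1 p)) = _
    rw [e2, fw_letters (K := K) m _ (OKI_rowP 1 (nums r) hn) _ h1 (by omega), fw_C_mul,
      ih (k + 1) _ (run_homog _ _ h1) hk', e3]
    push_cast
    rw [C_mul, mul_assoc]
    rfl

theorem cc_wordA (m : ℕ) (A : List (List Bool)) :
    constantCoeff (fw (wordA m A) 1) = (facA m A : ℚ) * valA m A := by
  unfold wordA valA
  rw [fw_append, rows_A3 m A.length A 0 1 (isHomogeneous_one ℕ ℚ) (by omega), fw_C_mul, map_mul,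
    constantCoeff_C]

end Pool.Agent.H549R2.UI
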