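import Pool.Agent.H549R2.UI.Defs

/-!
# Perfect matchings of unit interval graphs: Taylor formulas
-/

namespace Pool.Agent.H549R2.UI

open Finset MvPolynomial

private theorem ua4_iter_zero (y k : ℕ) : (pderiv y)^[k] (0 : V) = 0 := by
  induction k with
  | zero => rfl
  | succ k ih => rw [Function.iterate_succ_apply, map_zero, ih]

private theorem ua4_iter_add (y k : ℕ) (p q : V) :
    (pderiv y)^[k] (p + q) = (pderiv y)^[k] p + (pderiv y)^[k] q := by
  induction k generalizing p q with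
  | zero => rfl
  | succ k ih => rw [Function.iterate_succ_apply, map_add, ih, ← Function.iterate_succ_apply,
      ← Function.iterate_succ_apply]

private theorem ua4_iter_mono {y k l : ℕ} (h : k ≤ l) {p : V} (hp : (pderiv y)^[k] p = 0) :
    (pderiv y)^[l] p = 0 := by
  obtain ⟨j, rfl⟩ := Nat.exists_eq_add_of_le h
  rw [Nat.add_comm, Function.iterate_add_apply, hp, ua4_iter_zero]

private theorem ua4_iter_mul_X (y i k : ℕ) (p : V) :
    (pderiv y)^[k] (p * X i) = (pderiv y)^[k] p * X i +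
      (if i = y then (k : V) * (pderiv y)^[k - 1] p else 0) := by
  induction k with
  | zero => simp
  | succ k ih =>
    rw [Function.iterate_succ_apply', ih, map_add, Derivation.leibniz, smul_eq_mul, smul_eq_mul,
      ← Function.iterate_succ_apply' (pderiv y) k p]
    by_cases hi : i = y
    · subst hi
      rw [if_pos rfl, if_pos rfl, pderiv_X_self]
      rw [Derivation.leibniz, smul_eq_mul, smul_eq_mul]
      have h0 : pderiv i ((k : V)) = 0 := by
        have : ((k : ℕ) : V) = C (k : ℚ) := by simp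
        rw [this, pderiv_C]
      rw [h0, mul_zero, add_zero]
      rcases k with _ | k
      · simp
        ring
      · rw [Nat.add_sub_cancel, ← Function.iterate_succ_apply' (pderiv i) k p,
          Nat.add_sub_cancel]
        push_cast
        ring
    · rw [if_neg hi, if_neg hi, map_zero, pderiv_X_of_ne (Ne.symm hi).symm]
      ring

private noncomputable def ua4T (w : V) (y n : ℕ) (p : V) : V :=
  ∑ k ∈ range n, C ((-1 : ℚ) ^ k / k.factorial) * (w ^ k * (pderiv y)^[k] p)

private theorem ua4T_stable {w : V} {y n m : ℕ} (h : n ≤ m) {p : V} (hp : (pderiv y)^[n] p = 0) :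
    ua4T w y m p = ua4T w y n p := by
  unfold ua4T
  symm
  refine Finset.sum_subset (Finset.range_subset_range.2 h) fun k _ hk => ?_
  rw [ua4_iter_mono (by simpa using hk) hp, mul_zero, mul_zero]

private theorem ua4T_mul_X (w : V) (y i n : ℕ) (p : V) :
    ua4T w y (n + 1) (p * X i) = ua4T w y (n + 1) p * X i -
      (if i = y then w * ua4T w y n p else 0) := by
  unfold ua4T
  simp only [ua4_iter_mul_X]
  by_cases hi : i = y
  · simp only [if_pos hi]
    have h1 : ∀ k : ℕ, C ((-1 : ℚ) ^ k / k.factorial) * (w ^ k * ((pderiv y)^[k] p * X i +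
        (k : V) * (pderiv y)^[k - 1] p)) =
        C ((-1 : ℚ) ^ k / k.factorial) * (w ^ k * (pderiv y)^[k] p) * X i +
        C ((-1 : ℚ) ^ k / k.factorial) * (w ^ k * ((k : V) * (pderiv y)^[k - 1] p)) := by
      intro k
      ring
    simp only [h1]
    rw [Finset.sum_add_distrib, ← Finset.sum_mul, sub_eq_add_neg]
    congr 1
    rw [Finset.sum_range_succ']
    simp only [Nat.cast_zero, zero_mul, mul_zero, add_zero, Nat.add_sub_cancel]
    rw [Finset.mul_sum, ← Finset.sum_neg_distrib]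
    refine Finset.sum_congr rfl fun k _ => ?_
    have h2 : ((-1 : ℚ) ^ (k + 1) / (k + 1).factorial) * ((k : ℚ) + 1) =
        -((-1 : ℚ) ^ k / k.factorial) := by
      rw [Nat.factorial_succ]
      push_cast
      have h3 : (k.factorial : ℚ) ≠ 0 := by positivity
      have h4 : ((k : ℚ) + 1) ≠ 0 := by positivity
      field_simp
      ring
    have h3 : (((k + 1 : ℕ)) : V) = C ((k : ℚ) + 1) := by simp
    rw [h3]
    have h4 : C ((-1 : ℚ) ^ (k + 1) / (k + 1).factorial) * (w ^ (k + 1) *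
        (C ((k : ℚ) + 1) * (pderiv y)^[k] p)) =
        (C ((-1 : ℚ) ^ (k + 1) / (k + 1).factorial) * C ((k : ℚ) + 1)) * (w ^ (k + 1) *
        (pderiv y)^[k] p) := by ring
    rw [h4, ← C_mul, h2, C_neg]
    ring
  · simp only [if_neg hi, add_zero, sub_zero]
    rw [Finset.sum_mul]
    refine Finset.sum_congr rfl fun k _ => ?_
    ring

private theorem ua4T_large (y y' : ℕ) (p : V) :
    ∃ n₀ : ℕ, ∀ n ≥ n₀, ua4T (X y + X y') y n p = sg y y' p ∧ (pderiv y)^[n] p = 0 := by
  induction p using MvPolynomial.induction_on with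
  | C a =>
    have h0 : ∀ n ≥ 1, (pderiv y)^[n] (C a : V) = 0 := fun n hn =>
      ua4_iter_mono hn (by rw [Function.iterate_one, pderiv_C])
    refine ⟨1, fun n hn => ⟨?_, h0 n hn⟩⟩
    rw [ua4T_stable hn (h0 1 le_rfl)]
    simp [ua4T, sg]
  | add p q hp hq =>
    obtain ⟨n₁, h1⟩ := hp
    obtain ⟨n₂, h2⟩ := hq
    refine ⟨max n₁ n₂, fun n hn => ?_⟩
    obtain ⟨h3, h4⟩ := h1 n ((le_max_left _ _).trans hn)
    obtain ⟨h5, h6⟩ := h2 n ((le_max_right _ _).trans hn)
    refine ⟨?_, by rw [ua4_iter_add, h4, h6, add_zero]⟩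
    rw [map_add, ← h3, ← h5]
    unfold ua4T
    rw [← Finset.sum_add_distrib]
    refine Finset.sum_congr rfl fun k _ => ?_
    rw [ua4_iter_add]
    ring
  | mul_X p i hp =>
    obtain ⟨n₀, h⟩ := hp
    refine ⟨n₀ + 1, fun n hn => ?_⟩
    obtain ⟨m, rfl⟩ : ∃ m, n = m + 1 := ⟨n - 1, by omega⟩
    obtain ⟨h1, h2⟩ := h m (by omega)
    obtain ⟨h3, h4⟩ := h (m + 1) (by omega)
    refine ⟨?_, ?_⟩
    · rw [ua4T_mul_X, h1, h3, map_mul]
      by_cases hi : i = y
      · subst hi
        rw [if_pos rfl]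
        have h5 : sg i y' (X i) = -X y' := by simp [sg]
        rw [h5]
        ring
      · rw [if_neg hi, sub_zero]
        have h5 : sg y y' (X i) = X i := by simp [sg, Function.update_of_ne hi]
        rw [h5]
    · rw [ua4_iter_mul_X, h4, Nat.add_sub_cancel, h2]
      simp

private theorem ua4T_eq {y y' n : ℕ} {p : V} (hp : (pderiv y)^[n] p = 0) :
    ua4T (X y + X y') y n p = sg y y' p := by
  obtain ⟨n₀, h⟩ := ua4T_large y y' p
  rw [← (h (max n n₀) (le_max_right _ _)).1, ua4T_stable (le_max_left _ _) hp]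

private theorem ua4_bin_one (k : ℕ) : bin 1 (k + 2) = 0 := by
  unfold bin
  rw [Finset.prod_eq_zero (i := 1) (by simp) (by simp), zero_div]

private theorem ua4_bin_neg_one (k : ℕ) : bin (-1) k = (-1) ^ k := by
  unfold bin
  have h : ∏ i ∈ range k, ((-1 : ℚ) - i) = (-1) ^ k * k.factorial := by
    induction k with
    | zero => simp
    | succ k ih =>
      rw [Finset.prod_range_succ, ih, Nat.factorial_succ]
      push_cast
      ring
  rw [h, mul_div_assoc, div_self (by positivity), mul_one]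

private theorem ua4_bin_neg_two (k : ℕ) : bin (-2) k = (-1) ^ k * ((k : ℚ) + 1) := by
  unfold bin
  have h : ∏ i ∈ range k, ((-2 : ℚ) - i) = (-1) ^ k * ((k : ℚ) + 1) * k.factorial := by
    induction k with
    | zero => simp
    | succ k ih =>
      rw [Finset.prod_range_succ, ih, Nat.factorial_succ]
      push_cast
      ring
  rw [h, mul_div_assoc, div_self (by positivity), mul_one]

private theorem ua4_w {r y y' : ℕ} (h : (y = r ∧ y' = r + 1) ∨ (y = r + 1 ∧ y' = r)) :
    (X r + X (r + 1) : V) = X y + X y' := by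
  rcases h with ⟨rfl, rfl⟩ | ⟨rfl, rfl⟩
  · rfl
  · rw [add_comm]

private theorem ua4_bin_zero (t : ℚ) : bin t 0 = 1 := by simp [bin]

private theorem ua4_bin_one' (t : ℚ) : bin t 1 = t := by simp [bin]

theorem Gop_two {K : ℕ} (hK : 1 ≤ K) (t : ℚ) (r y : ℕ) {p : V}
    (h : pderiv y (pderiv y p) = 0) :
    Gop K t r y p = p + C t * ((X r + X (r + 1)) * pderiv y p) := by
  obtain ⟨K, rfl⟩ : ∃ m, K = m + 1 := ⟨K - 1, by omega⟩
  unfold Gop
  rw [Finset.sum_range_succ', Finset.sum_range_succ', Finset.sum_eq_zero]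
  · simp [ua4_bin_zero, ua4_bin_one']
    ring
  · intro k _
    have h1 : (pderiv y)^[k + 1 + 1] p = 0 :=
      ua4_iter_mono (k := 2) (by omega) (by simpa [Function.iterate_succ] using h)
    rw [h1, mul_zero, mul_zero]

theorem Gop_one {K : ℕ} (hK : 1 ≤ K) (r y : ℕ) (p : V) :
    Gop K 1 r y p = p + (X r + X (r + 1)) * pderiv y p := by
  obtain ⟨K, rfl⟩ : ∃ m, K = m + 1 := ⟨K - 1, by omega⟩
  unfold Gop
  rw [Finset.sum_range_succ', Finset.sum_range_succ', Finset.sum_eq_zero]
  · simp [ua4_bin_zero, ua4_bin_one']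
    ring
  · intro k _
    rw [ua4_bin_one, zero_div, C_0, zero_mul]

theorem Gop_neg_one {K r y y' : ℕ} (h : (y = r ∧ y' = r + 1) ∨ (y = r + 1 ∧ y' = r)) {p : V}
    (hp : (pderiv y)^[K + 1] p = 0) : Gop K (-1) r y p = sg y y' p := by
  rw [← ua4T_eq hp]
  unfold Gop ua4T
  rw [ua4_w h]
  simp only [ua4_bin_neg_one]

theorem Gop_neg_two {K r y y' : ℕ} (h : (y = r ∧ y' = r + 1) ∨ (y = r + 1 ∧ y' = r)) {p : V}
    (hp : (pderiv y)^[K + 1] p = 0) :
    Gop K (-2) r y p = sg y y' p - (X r + X (r + 1)) * sg y y' (pderiv y p) := by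
  have hp' : (pderiv y)^[K] (pderiv y p) = 0 := by
    rwa [← Function.iterate_succ_apply]
  rw [← ua4T_eq hp, ← ua4T_eq hp', ua4_w h]
  unfold Gop ua4T
  rw [ua4_w h]
  simp only [ua4_bin_neg_two]
  set w : V := X y + X y' with hw
  have h1 : ∀ k : ℕ, C ((-1 : ℚ) ^ k * ((k : ℚ) + 1) / k.factorial) * (w ^ k * (pderiv y)^[k] p) =
      C ((-1 : ℚ) ^ k / k.factorial) * (w ^ k * (pderiv y)^[k] p) +
      C ((-1 : ℚ) ^ k * (k : ℚ) / k.factorial) * (w ^ k * (pderiv y)^[k] p) := by
    intro k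
    rw [← add_mul, ← C_add]
    congr 2
    ring
  simp only [h1]
  rw [Finset.sum_add_distrib, sub_eq_add_neg]
  congr 1
  rw [Finset.sum_range_succ']
  simp only [Nat.cast_zero, mul_zero, zero_div, C_0, zero_mul, add_zero]
  rw [Finset.mul_sum, ← Finset.sum_neg_distrib]
  refine Finset.sum_congr rfl fun k _ => ?_
  have h2 : ((-1 : ℚ) ^ (k + 1) * ((k + 1 : ℕ) : ℚ) / (k + 1).factorial) =
      -((-1 : ℚ) ^ k / k.factorial) := by
    rw [Nat.factorial_succ]
    push_cast
    have h3 : (k.factorial : ℚ) ≠ 0 := by positivity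
    have h4 : ((k : ℚ) + 1) ≠ 0 := by positivity
    field_simp
    ring
  rw [h2, C_neg, Function.iterate_succ_apply]
  ring

end Pool.Agent.H549R2.UI
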