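import Pool.Agent.H549R2.UI.Defs

/-!
# Perfect matchings of unit interval graphs: substitutions
-/

namespace Pool.Agent.H549R2.UI

open Finset MvPolynomial

theorem sg_X_self (a b : ℕ) : sg a b (X a) = -X b := by
  simp [sg]

theorem sg_X_ne {a b c : ℕ} (h : c ≠ a) : sg a b (X c) = X c := by
  simp [sg, Function.update_of_ne h]

theorem sg_C (a b : ℕ) (c : ℚ) : sg a b (C c) = C c := by
  simp [sg]

theorem pderiv_sg_self {a b : ℕ} (h : a ≠ b) (p : V) : pderiv a (sg a b p) = 0 := by
  induction p using MvPolynomial.induction_on with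
  | C c => rw [sg_C, pderiv_C]
  | add p q hp hq => rw [map_add, map_add, hp, hq, add_zero]
  | mul_X p i hp =>
    rw [map_mul, pderiv_mul, hp, zero_mul, zero_add]
    by_cases hi : i = a
    · subst hi
      rw [sg_X_self, map_neg, pderiv_X_of_ne (Ne.symm h), neg_zero, mul_zero]
    · rw [sg_X_ne hi, pderiv_X_of_ne hi, mul_zero]

theorem pderiv_sg_other {a b c : ℕ} (h : c ≠ a) (h' : c ≠ b) (p : V) :
    pderiv c (sg a b p) = sg a b (pderiv c p) := by
  induction p using MvPolynomial.induction_on with
  | C k => rw [sg_C, pderiv_C, map_zero]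
  | add p q hp hq => rw [map_add, map_add, hp, hq, map_add, map_add]
  | mul_X p i hp =>
    rw [map_mul, pderiv_mul, hp, pderiv_mul, map_add, map_mul, map_mul]
    congr 2
    by_cases hi : i = a
    · subst hi
      rw [sg_X_self, map_neg, pderiv_X_of_ne (Ne.symm h'), pderiv_X_of_ne (Ne.symm h), neg_zero,
        map_zero]
    · rw [sg_X_ne hi]
      by_cases hc : i = c
      · subst hc
        rw [pderiv_X_self, map_one]
      · rw [pderiv_X_of_ne hc, map_zero]

theorem pderiv_sg_tgt {a b : ℕ} (h : a ≠ b) (p : V) :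
    pderiv b (sg a b p) = sg a b (pderiv b p) - sg a b (pderiv a p) := by
  induction p using MvPolynomial.induction_on with
  | C k => simp only [sg_C, pderiv_C, map_zero, sub_zero]
  | add p q hp hq =>
    simp only [map_add, hp, hq]
    ring
  | mul_X p i hp =>
    rw [map_mul, pderiv_mul, hp, pderiv_mul, pderiv_mul]
    simp only [map_add, map_mul]
    by_cases hi : i = a
    · subst hi
      rw [sg_X_self, map_neg, pderiv_X_self, pderiv_X_self, pderiv_X_of_ne h, map_zero, map_one]
      ring
    · rw [sg_X_ne hi, pderiv_X_of_ne hi, map_zero]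
      by_cases hc : i = b
      · subst hc
        rw [pderiv_X_self, map_one]
        ring
      · rw [pderiv_X_of_ne hc, map_zero]
        ring

theorem sg_of_pderiv {a : ℕ} (b : ℕ) {p : V} (h : pderiv a p = 0) : sg a b p = p := by
  have hv : a ∉ p.vars := by
    intro hav
    rw [mem_vars_iff_mem_support] at hav
    obtain ⟨s, hs, has⟩ := hav
    have h1 := coeff_pderiv (i := a) p (s - Finsupp.single a 1)
    have h3 : s - Finsupp.single a 1 + Finsupp.single a 1 = s := by
      apply tsub_add_cancel_of_le
      rw [Finsupp.single_le_iff]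
      rw [Finsupp.mem_support_iff] at has
      omega
    rw [h, coeff_zero, h3] at h1
    rw [mem_support_iff] at hs
    have h4 : (((s - Finsupp.single a 1 : ℕ →₀ ℕ) a : ℕ) : ℚ) + 1 ≠ 0 := by positivity
    rcases mul_eq_zero.mp h1.symm with h5 | h5
    · exact hs h5
    · exact h4 h5
  have h2 : (sg a b : V →+* V) p = (RingHom.id V) p := by
    apply hom_congr_vars
    · ext c
      simp
    · intro i hi _
      have hia : i ≠ a := fun he => hv (he ▸ hi)
      exact sg_X_ne hia
    · rfl
  exact h2

theorem sg_sg {a b : ℕ} (hab : a ≠ b) {p : V} (h : pderiv b p = 0) :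
    sg b a (sg a b p) = p := by
  have h1 : (sg b a).comp (sg a b) = sg b a := by
    apply algHom_ext
    intro i
    rw [AlgHom.comp_apply]
    by_cases hi : i = a
    · subst hi
      rw [sg_X_self, map_neg, sg_X_self, neg_neg, sg_X_ne hab]
    · rw [sg_X_ne hi]
  have h2 := congrArg (fun f => f p) h1
  simp only [AlgHom.comp_apply] at h2
  rw [h2]
  exact sg_of_pderiv a h

end Pool.Agent.H549R2.UI
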