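import Pool.Agent.H549R2.UI.Defs
import Pool.Agent.H549R2.UI.A3
import Pool.Agent.H549R2.UI.A4
import Pool.Agent.H549R2.UI.S

/-!
# Perfect matchings of unit interval graphs: the crossing
-/

namespace Pool.Agent.H549R2.UI

open Finset MvPolynomial

theorem pderiv_comm_A5 (a b : ℕ) (p : V) : pderiv a (pderiv b p) = pderiv b (pderiv a p) := by
  have h : ⁅(pderiv a : Derivation ℚ V V), (pderiv b : Derivation ℚ V V)⁆ = 0 := by
    apply MvPolynomial.derivation_ext
    intro i
    simp only [Derivation.commutator_apply, pderiv_X, Derivation.coe_zero, Pi.zero_apply]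
    by_cases h1 : i = b
    · subst h1
      by_cases h2 : a = i
      · subst h2; simp
      · simp [Pi.single_apply, Ne.symm h2]
        
    · by_cases h2 : i = a
      · subst h2
        simp [Pi.single_apply, h1]
      · simp [Pi.single_apply, h1, h2]
  have := congrArg (fun D => D p) h
  simp only [Derivation.commutator_apply, Derivation.coe_zero, Pi.zero_apply] at this
  exact sub_eq_zero.mp this

theorem run_crs {K k : ℕ} (q : ℕ) (P Q : V) (hP : pderiv q P = 0) (hQ : pderiv q Q = 0)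
    (hK : 1 ≤ K) (hh : (P + X q * Q).IsHomogeneous k) (hk : k ≤ K) :
    run K (-6) (crs q) (P + X q * Q) =
      sg (q + 1) q P + (C 3 * X q + C 2 * X (q + 1)) * sg (q + 1) q Q := by
  have hne : q ≠ q + 1 := by omega
  have hne' : q + 1 ≠ q := by omega
  have e1 : ((-6 : ℚ) + ((7 : ℕ) : ℚ)) = 1 := by norm_num
  have e2 : ((-6 : ℚ) + ((4 : ℕ) : ℚ)) = -2 := by norm_num
  simp only [crs, run, e1, e2]
  -- step 1
  have hom1 : (Gop K 1 q (q + 1) (P + X q * Q)).IsHomogeneous k := Gop_homog 1 q (q + 1) hh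
  have hom2 : (Gop K (-2) q q (Gop K 1 q (q + 1) (P + X q * Q))).IsHomogeneous k :=
    Gop_homog (-2) q q hom1
  have z1 := iter_zero q hom1 hk
  have z2 := iter_zero (q + 1) hom2 hk
  rw [Gop_neg_two (Or.inr ⟨rfl, rfl⟩) z2]
  rw [Gop_neg_two (Or.inl ⟨rfl, rfl⟩) z1]
  rw [Gop_one hK]
  set Pz := pderiv (q + 1) P with hPz
  set Qz := pderiv (q + 1) Q with hQz
  have hPz0 : pderiv q Pz = 0 := by rw [hPz, pderiv_comm_A5, hP, map_zero]
  have hQz0 : pderiv q Qz = 0 := by rw [hQz, pderiv_comm_A5, hQ, map_zero]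
  have dyX : pderiv q (X (q + 1) : V) = 0 := pderiv_X_of_ne hne'
  have dzX : pderiv (q + 1) (X q : V) = 0 := pderiv_X_of_ne hne
  have dyy : pderiv q (X q : V) = 1 := pderiv_X_self q
  have dzz : pderiv (q + 1) (X (q + 1) : V) = 1 := pderiv_X_self (q + 1)
  have a1 : pderiv (q + 1) (P + X q * Q) = Pz + X q * Qz := by
    rw [map_add, Derivation.leibniz, dzX]
    simp only [smul_eq_mul, mul_zero, add_zero]
    rfl
  rw [a1]
  have s1 : sg q (q + 1) P = P := sg_of_pderiv _ hP
  have s2 : sg q (q + 1) Q = Q := sg_of_pderiv _ hQ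
  have s3 : sg q (q + 1) Pz = Pz := sg_of_pderiv _ hPz0
  have s4 : sg q (q + 1) Qz = Qz := sg_of_pderiv _ hQz0
  have s5 : sg q (q + 1) (X q) = -X (q + 1) := sg_X_self _ _
  have s6 : sg q (q + 1) (X (q + 1)) = X (q + 1) := sg_X_ne hne'
  have b1 : pderiv q (P + X q * Q + (X q + X (q + 1)) * (Pz + X q * Qz)) =
      Q + (Pz + X q * Qz) + (X q + X (q + 1)) * Qz := by
    simp only [map_add, Derivation.leibniz, dyX, dyy, hP, hQ, hPz0, hQz0, smul_eq_mul]
    ring
  rw [b1]
  have c1 : sg q (q + 1) (P + X q * Q + (X q + X (q + 1)) * (Pz + X q * Qz)) =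
      P - X (q + 1) * Q := by
    simp only [map_add, map_mul, s1, s2, s3, s4, s5, s6]
    ring
  have c2 : sg q (q + 1) (Q + (Pz + X q * Qz) + (X q + X (q + 1)) * Qz) =
      Q + Pz - X (q + 1) * Qz := by
    simp only [map_add, map_mul, s1, s2, s3, s4, s5, s6]
    ring
  rw [c1, c2]
  have t5 : sg (q + 1) q (X (q + 1)) = -X q := sg_X_self _ _
  have t6 : sg (q + 1) q (X q) = X q := sg_X_ne hne
  have d1 : pderiv (q + 1) (P - X (q + 1) * Q - (X q + X (q + 1)) * (Q + Pz - X (q + 1) * Qz)) =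
      -(2 * Q) - (X q + X (q + 1)) * pderiv (q + 1) (Q + Pz - X (q + 1) * Qz) := by
    simp only [map_add, map_sub, Derivation.leibniz, dzX, dzz, smul_eq_mul, ← hPz, ← hQz]
    ring
  rw [d1]
  simp only [map_add, map_sub, map_mul, map_neg, t5, t6]
  have h2 : sg (q + 1) q (2 : V) = 2 := map_ofNat _ 2
  rw [h2]
  have hC3 : (C 3 : V) = 3 := rfl
  have hC2 : (C 2 : V) = 2 := rfl
  rw [hC3, hC2]
  ring

end Pool.Agent.H549R2.UI
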