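import Pool.Agent.H549R2.UI.Defs
import Pool.Agent.H549R2.UI.A5

/-!
# Perfect matchings of unit interval graphs: one row
-/

namespace Pool.Agent.H549R2.UI

open Finset MvPolynomial

namespace A6aux

/-- the states that occur -/
noncomputable def F (q : ℕ) (U s : V) (a0 a1 a2 a3 : ℚ) : V :=
  (U + C a0 * X q + C a1 * X (q + 1) + C a2 * X (q + 2) + C a3 * X (q + 3)) * s

theorem pdX {a b : ℕ} (h : a ≠ b) : pderiv a (X b : V) = 0 := pderiv_X_of_ne h.symm

theorem sgm (a b : ℕ) (p p' : V) : sg a b (p * p') = sg a b p * sg a b p' := map_mul _ _ _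

theorem sga (a b : ℕ) (p p' : V) : sg a b (p + p') = sg a b p + sg a b p' := map_add _ _ _

theorem pd_F (q y : ℕ) (U s : V) (a0 a1 a2 a3 : ℚ) (hU : pderiv y U = 0) (hs : pderiv y s = 0) :
    pderiv y (F q U s a0 a1 a2 a3) = (C a0 * pderiv y (X q) + C a1 * pderiv y (X (q + 1)) +
      C a2 * pderiv y (X (q + 2)) + C a3 * pderiv y (X (q + 3))) * s := by
  unfold F
  rw [pderiv_mul, hs, mul_zero, add_zero]
  simp only [map_add, hU, pderiv_C_mul, zero_add]

theorem pd1 (q : ℕ) (U s : V) (a0 a1 a2 a3 : ℚ) (hU : pderiv (q + 1) U = 0)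
    (hs : pderiv (q + 1) s = 0) :
    pderiv (q + 1) (F q U s a0 a1 a2 a3) = C a1 * s := by
  rw [pd_F q (q + 1) U s a0 a1 a2 a3 hU hs, pderiv_X_self, pdX (by omega), pdX (by omega),
    pdX (by omega)]
  ring

theorem pd2 (q : ℕ) (U s : V) (a0 a1 a2 a3 : ℚ) (hU : pderiv (q + 2) U = 0)
    (hs : pderiv (q + 2) s = 0) :
    pderiv (q + 2) (F q U s a0 a1 a2 a3) = C a2 * s := by
  rw [pd_F q (q + 2) U s a0 a1 a2 a3 hU hs, pderiv_X_self, pdX (by omega), pdX (by omega),
    pdX (by omega)]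
  ring

end A6aux

open A6aux in
theorem run_cell {K k : ℕ} (q a : ℕ) (c : ℚ) (U s : V) (hK : 1 ≤ K) (hk : k ≤ K)
    (hh : ((U + C c * X q) * s).IsHomogeneous k) (hU : ∀ b, q ≤ b → pderiv b U = 0)
    (hs : pderiv q s = 0) (hs2 : pderiv (q + 2) s = 0) :
    run K (-6) (cell q a) ((U + C c * X q) * s) =
      (U + C (c * (2 * a - 7)) * X q + C (-2 * a * c) * X (q + 2) + C (-8 * c) * X (q + 3)) *
        sg (q + 3) (q + 2) (sg (q + 1) q s) := by
  set s1 : V := sg (q + 1) q s with hs1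
  set s2 : V := sg (q + 3) (q + 2) s1 with hs2'
  have e1 : pderiv (q + 1) s1 = 0 := pderiv_sg_self (by omega) s
  have e2 : pderiv (q + 2) s1 = 0 := by
    rw [hs1, pderiv_sg_other (by omega) (by omega), hs2, map_zero]
  have e3 : pderiv (q + 1) s2 = 0 := by
    rw [hs2', pderiv_sg_other (by omega) (by omega), e1, map_zero]
  have hU1 : pderiv (q + 1) U = 0 := hU _ (by omega)
  have hU2 : pderiv (q + 2) U = 0 := hU _ (by omega)
  have hU3 : pderiv (q + 3) U = 0 := hU _ (by omega)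
  -- the steps
  have t1 : run K (-6) (crs q) ((U + C c * X q) * s) = F q U s1 (3 * c) (2 * c) 0 0 := by
    have h0 : (U + C c * X q) * s = U * s + X q * (C c * s) := by ring
    have hP : pderiv q (U * s) = 0 := by
      rw [pderiv_mul, hU q le_rfl, hs]; ring
    have hQ : pderiv q (C c * s) = 0 := by
      rw [pderiv_C_mul, hs, mul_zero]
    rw [h0] at hh ⊢
    rw [run_crs q (U * s) (C c * s) hP hQ hK hh hk, map_mul, map_mul, sg_C,
      sg_of_pderiv q hU1, ← hs1]
    unfold F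
    simp only [map_mul, map_zero]
    ring
  have h1 : (F q U s1 (3 * c) (2 * c) 0 0).IsHomogeneous k := by
    rw [← t1]; exact run_homog _ _ hh
  have t2 : Gop K (-1) (q + 1) (q + 1) (F q U s1 (3 * c) (2 * c) 0 0) =
      F q U s1 (3 * c) 0 (-2 * c) 0 := by
    have hd := pd1 q U s1 (3 * c) (2 * c) 0 0 hU1 e1
    rw [Gop_two hK (-1) (q + 1) (q + 1) (by rw [hd, pderiv_C_mul, e1, mul_zero]), hd]
    unfold F
    simp only [map_mul, map_zero, map_neg, map_one]
    ring
  have h2 : (F q U s1 (3 * c) 0 (-2 * c) 0).IsHomogeneous k := by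
    rw [← t2]; exact Gop_homog _ _ _ h1
  have t3 : Gop K 1 (q + 1) (q + 2) (F q U s1 (3 * c) 0 (-2 * c) 0) =
      F q U s1 (3 * c) (-2 * c) (-4 * c) 0 := by
    have hd := pd2 q U s1 (3 * c) 0 (-2 * c) 0 hU2 e2
    rw [Gop_one hK (q + 1) (q + 2), hd]
    unfold F
    simp only [map_mul, map_zero, map_neg]
    rw [show (C (4 : ℚ) : V) = C 2 * 2 by rw [← map_ofNat C 2, ← map_mul]; norm_num]
    ring
  have h3 : (F q U s1 (3 * c) (-2 * c) (-4 * c) 0).IsHomogeneous k := by
    rw [← t3]; exact Gop_homog _ _ _ h2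
  have t4 : run K (-6) (crs (q + 2)) (F q U s1 (3 * c) (-2 * c) (-4 * c) 0) =
      F q U s2 (3 * c) (-2 * c) (-12 * c) (-8 * c) := by
    have h0 : F q U s1 (3 * c) (-2 * c) (-4 * c) 0 =
        (U + C (3 * c) * X q + C (-2 * c) * X (q + 1)) * s1 + X (q + 2) * (C (-4 * c) * s1) := by
      unfold F
      simp only [map_zero]
      ring
    have hP : pderiv (q + 2) ((U + C (3 * c) * X q + C (-2 * c) * X (q + 1)) * s1) = 0 := by
      rw [pderiv_mul, e2, mul_zero, add_zero]
      simp only [map_add, hU2, pderiv_C_mul, pdX (show q + 2 ≠ q by omega),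
        pdX (show q + 2 ≠ q + 1 by omega)]
      ring
    have hQ : pderiv (q + 2) (C (-4 * c) * s1) = 0 := by
      rw [pderiv_C_mul, e2, mul_zero]
    rw [h0] at h3 ⊢
    rw [run_crs (q + 2) _ _ hP hQ hK h3 hk]
    rw [show q + 2 + 1 = q + 3 from rfl]
    rw [sgm, sga, sga, sgm, sgm, sgm, sg_C, sg_C, sg_C,
      sg_of_pderiv (q + 2) hU3, sg_X_ne (show q ≠ q + 3 by omega),
      sg_X_ne (show q + 1 ≠ q + 3 by omega), ← hs2']
    unfold F
    simp only [map_mul, map_neg]
    rw [show (C (12 : ℚ) : V) = C 3 * C 4 by rw [← map_mul]; norm_num,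
      show (C (8 : ℚ) : V) = C 2 * C 4 by rw [← map_mul]; norm_num]
    ring
  have t5 : Gop K (-6 + (a : ℚ)) (q + 1) (q + 1) (F q U s2 (3 * c) (-2 * c) (-12 * c) (-8 * c)) =
      F q U s2 (3 * c) ((10 - 2 * a) * c) (-2 * a * c) (-8 * c) := by
    have hd := pd1 q U s2 (3 * c) (-2 * c) (-12 * c) (-8 * c) hU1 e3
    rw [Gop_two hK (-6 + (a : ℚ)) (q + 1) (q + 1) (by rw [hd, pderiv_C_mul, e3, mul_zero]), hd]
    unfold F
    have g1 : (C ((10 - 2 * a) * c) : V) = C (-2 * c) + C (-6 + (a : ℚ)) * C (-2 * c) := by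
      rw [← map_mul, ← map_add]; congr 1; ring
    have g2 : (C (-2 * a * c) : V) = C (-12 * c) + C (-6 + (a : ℚ)) * C (-2 * c) := by
      rw [← map_mul, ← map_add]; congr 1; ring
    rw [g1, g2]
    ring
  have t6 : Gop K (-1) q (q + 1) (F q U s2 (3 * c) ((10 - 2 * a) * c) (-2 * a * c) (-8 * c)) =
      F q U s2 (c * (2 * a - 7)) 0 (-2 * a * c) (-8 * c) := by
    have hd := pd1 q U s2 (3 * c) ((10 - 2 * a) * c) (-2 * a * c) (-8 * c) hU1 e3
    rw [Gop_two hK (-1) q (q + 1) (by rw [hd, pderiv_C_mul, e3, mul_zero]), hd]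
    unfold F
    have g1 : (C (c * (2 * a - 7)) : V) = C (3 * c) - C ((10 - 2 * a) * c) := by
      rw [← map_sub]; congr 1; ring
    rw [g1]
    simp only [map_zero, map_neg, map_one]
    ring
  unfold cell
  rw [run_append, run_append, run_append, t1]
  have r1 : run K (-6) [(q + 1, q + 1, 5), (q + 1, q + 2, 7)] (F q U s1 (3 * c) (2 * c) 0 0) =
      F q U s1 (3 * c) (-2 * c) (-4 * c) 0 := by
    have n1 : (-6 : ℚ) + ((5 : ℕ) : ℚ) = -1 := by norm_num
    have n2 : (-6 : ℚ) + ((7 : ℕ) : ℚ) = 1 := by norm_num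
    simp only [run]
    rw [n1, n2, t2, t3]
  rw [r1, t4]
  have r2 : run K (-6) [(q + 1, q + 1, a), (q, q + 1, 5)]
      (F q U s2 (3 * c) (-2 * c) (-12 * c) (-8 * c)) =
      F q U s2 (c * (2 * a - 7)) 0 (-2 * a * c) (-8 * c) := by
    have n1 : (-6 : ℚ) + ((5 : ℕ) : ℚ) = -1 := by norm_num
    simp only [run]
    rw [n1, t5, t6]
  rw [r2]
  unfold F
  simp only [map_zero]
  ring

theorem ell_pderiv (as : List ℕ) (q b : ℕ) (h : b ≤ q ∨ ∃ i, b = q + 2 + 3 * i) :
    pderiv b (ell q as) = 0 := by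
  induction as generalizing q with
  | nil =>
    have hb : b ≠ q + 1 := by
      rcases h with h | ⟨i, h⟩ <;> omega
    rw [ell, map_neg, A6aux.pdX hb, neg_zero]
  | cons a as ih =>
    have hb : b ≠ q + 1 := by
      rcases h with h | ⟨i, h⟩ <;> omega
    have hb3 : b ≠ q + 3 := by
      rcases h with h | ⟨i, h⟩ <;> omega
    have h' : b ≤ q + 3 ∨ ∃ i, b = q + 3 + 2 + 3 * i := by
      rcases h with h | ⟨i, h⟩
      · left; omega
      · rcases Nat.eq_zero_or_pos i with h0 | h0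
        · left; omega
        · right; exact ⟨i - 1, by omega⟩
    rw [ell, map_add, map_add, pderiv_C_mul, pderiv_C_mul, pderiv_C_mul, A6aux.pdX hb,
      A6aux.pdX hb3, ih (q + 3) h']
    simp

theorem ell_homog (as : List ℕ) (q : ℕ) : (ell q as).IsHomogeneous 1 := by
  induction as generalizing q with
  | nil =>
    rw [ell]
    exact (isHomogeneous_X ℚ (q + 1)).neg
  | cons a as ih =>
    rw [ell]
    exact (((isHomogeneous_X ℚ (q + 1)).C_mul _).add ((isHomogeneous_X ℚ (q + 3)).C_mul _)).add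
      ((ih (q + 3)).C_mul _)

theorem run_rowP {K : ℕ} (as : List ℕ) : ∀ (k q : ℕ) (c : ℚ) (U s : V), 1 ≤ K → k ≤ K →
    ((U + C c * X q) * s).IsHomogeneous k → (∀ b, q ≤ b → pderiv b U = 0) → pderiv q s = 0 →
    (∀ i < as.length, pderiv (q + 2 + 3 * i) s = 0) →
    run K (-6) (rowP q as) ((U + C c * X q) * s) = (U + C c * ell q as) * s := by
  have n1 : (-6 : ℚ) + ((5 : ℕ) : ℚ) = -1 := by norm_num
  induction as with
  | nil =>
    intro k q c U s hK hk hh hU hs _
    rw [rowP]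
    simp only [run]
    rw [n1, Gop_neg_one (Or.inl ⟨rfl, rfl⟩) (iter_zero q hh hk), map_mul, map_add, map_mul,
      sg_C, sg_X_self, sg_of_pderiv (q + 1) (hU q le_rfl), sg_of_pderiv (q + 1) hs, ell]
  | cons a as ih =>
    intro k q c U s hK hk hh hU hs hs2
    have hs20 : pderiv (q + 2) s = 0 := by
      have := hs2 0 (by simp)
      simpa using this
    have hcell := run_cell q a c U s hK hk hh hU hs hs20
    have hhom1 := run_homog (K := K) (-6) (cell q a) hh
    rw [hcell] at hhom1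
    rw [rowP, run_append, run_append, hcell]
    set s1 : V := sg (q + 1) q s with hs1
    set s2 : V := sg (q + 3) (q + 2) s1 with hs2'
    have e2 : pderiv (q + 2) s1 = 0 := by
      rw [hs1, pderiv_sg_other (by omega) (by omega), hs20, map_zero]
    have ih1 := ih k (q + 3) (-8 * c)
      (U + C (c * (2 * a - 7)) * X q + C (-2 * a * c) * X (q + 2)) s2 hK hk hhom1 ?_ ?_ ?_
    · have hhom2 := run_homog (K := K) (-6) (rowP (q + 3) as) hhom1
      rw [ih1] at hhom2 ⊢
      unfold back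
      simp only [run]
      rw [n1, Gop_neg_one (Or.inl ⟨rfl, rfl⟩) (iter_zero (q + 2) hhom2 hk)]
      have hhom3 : (sg (q + 2) (q + 2 + 1) ((U + C (c * (2 * a - 7)) * X q +
          C (-2 * a * c) * X (q + 2) + C (-8 * c) * ell (q + 3) as) * s2)).IsHomogeneous k := by
        rw [← Gop_neg_one (K := K) (Or.inl ⟨rfl, rfl⟩) (iter_zero (q + 2) hhom2 hk)]
        exact Gop_homog _ _ _ hhom2
      rw [Gop_neg_one (Or.inl ⟨rfl, rfl⟩) (iter_zero q hhom3 hk)]
      have hA : sg (q + 2) (q + 2 + 1) ((U + C (c * (2 * a - 7)) * X q +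
          C (-2 * a * c) * X (q + 2) + C (-8 * c) * ell (q + 3) as) * s2) =
          (U + C (c * (2 * a - 7)) * X q + C (-2 * a * c) * (- X (q + 3)) +
            C (-8 * c) * ell (q + 3) as) * s1 := by
        rw [show q + 2 + 1 = q + 3 from rfl]
        rw [A6aux.sgm, A6aux.sga, A6aux.sga, A6aux.sga, A6aux.sgm, A6aux.sgm, A6aux.sgm,
          sg_C, sg_C, sg_C, sg_X_self, sg_X_ne (show q ≠ q + 2 by omega),
          sg_of_pderiv (q + 3) (hU (q + 2) (by omega)),
          sg_of_pderiv (q + 3) (ell_pderiv as (q + 3) (q + 2) (Or.inl (by omega))), hs2',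
          sg_sg (show q + 3 ≠ q + 2 by omega) e2]
      rw [hA]
      rw [A6aux.sgm, A6aux.sga, A6aux.sga, A6aux.sga, A6aux.sgm, A6aux.sgm, A6aux.sgm,
        sg_C, sg_C, sg_C, map_neg, sg_X_self, sg_X_ne (show q + 3 ≠ q by omega),
        sg_of_pderiv (q + 1) (hU q le_rfl),
        sg_of_pderiv (q + 1) (ell_pderiv as (q + 3) q (Or.inl (by omega))), hs1,
        sg_sg (show q + 1 ≠ q by omega) hs, ell]
      have g1 : (C (c * (2 * a - 7)) : V) = - (C c * C (7 - 2 * (a : ℚ))) := by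
        rw [← map_mul, ← map_neg]; congr 1; ring
      have g2 : (C (-2 * a * c) : V) = - (C c * C (2 * (a : ℚ))) := by
        rw [← map_mul, ← map_neg]; congr 1; ring
      have g3 : (C (-8 * c) : V) = C c * C (-8 : ℚ) := by
        rw [← map_mul]; congr 1; ring
      rw [g1, g2, g3]
      ring
    · intro b hb
      rw [map_add, map_add, pderiv_C_mul, pderiv_C_mul, hU b (by omega),
        A6aux.pdX (show b ≠ q by omega), A6aux.pdX (show b ≠ q + 2 by omega)]
      simp
    · rw [hs2']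
      exact pderiv_sg_self (by omega) s1
    · intro i hi
      rw [hs2', pderiv_sg_other (by omega) (by omega), hs1,
        pderiv_sg_other (by omega) (by omega)]
      have := hs2 (i + 1) (by simpa using hi)
      rw [show q + 3 + 2 + 3 * i = q + 2 + 3 * (i + 1) by ring, this, map_zero, map_zero]

namespace A6aux

theorem runA_gen (n : ℕ) (B : List (List Bool)) : ∀ (j : ℕ) (p : V), (∀ r ∈ B, r.length = n) →
    j + B.length ≤ n → p.IsHomogeneous j → pderiv 1 p = 0 →
    (∀ i, pderiv (3 + 3 * i) p = 0) →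
    runA n (-6) B p = p * (B.map (fun r => X 0 + ell 1 (nums r))).prod := by
  induction B with
  | nil =>
    intro j p _ _ _ _ _
    simp [runA]
  | cons r B ih =>
    intro j p hr hj hp h1 h3
    rw [runA]
    have hlen : j + 1 ≤ n := by
      simp only [List.length_cons] at hj
      omega
    have hh : ((X 0 + C 1 * X 1) * p : V).IsHomogeneous (j + 1) := by
      have h0 : (X 0 + C 1 * X 1 : V).IsHomogeneous 1 :=
        (isHomogeneous_X ℚ 0).add ((isHomogeneous_X ℚ 1).C_mul _)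
      have := h0.mul hp
      rwa [Nat.add_comm] at this
    have hU : ∀ b, 1 ≤ b → pderiv b (X 0 : V) = 0 := by
      intro b hb
      exact pdX (by omega)
    have hrow := run_rowP (K := n) (nums r) (j + 1) 1 1 (X 0) p (by omega) hlen hh hU h1
      (fun i _ => by
        have := h3 i
        rw [show 1 + 2 + 3 * i = 3 + 3 * i by ring]
        exact this)
    have e0 : ((X 0 + X 1) * p : V) = (X 0 + C 1 * X 1) * p := by
      rw [map_one, one_mul]
    rw [e0, hrow, map_one, one_mul]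
    rw [ih (j + 1) _ (fun r' hr' => hr r' (List.mem_cons_of_mem _ hr'))
      (by simp only [List.length_cons] at hj; omega) ?_ ?_ ?_]
    · rw [List.map_cons, List.prod_cons]
      ring
    · have := ((isHomogeneous_X ℚ 0).add (ell_homog (nums r) 1)).mul hp
      rwa [Nat.add_comm] at this
    · rw [pderiv_mul, h1, mul_zero, add_zero, map_add, pdX (by omega),
        ell_pderiv (nums r) 1 1 (Or.inl le_rfl)]
      simp
    · intro i
      rw [pderiv_mul, h3 i, mul_zero, add_zero, map_add, pdX (by omega),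
        ell_pderiv (nums r) 1 (3 + 3 * i) (Or.inr ⟨i, by omega⟩)]
      simp

end A6aux

theorem runA_eq (A : List (List Bool)) (h : ∀ r ∈ A, r.length = A.length) :
    runA A.length (-6) A 1 = (A.map (fun r => X 0 + ell 1 (nums r))).prod := by
  rw [A6aux.runA_gen A.length A 0 1 h (by omega) (isHomogeneous_one ℕ ℚ) (by simp) (by simp)]
  rw [one_mul]

end Pool.Agent.H549R2.UI
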