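import Pool.Agent.H549R2.UI.Defs
import Pool.Agent.H549R2.Convex3

/-!
# Perfect matchings of unit interval graphs: the permanent
-/

namespace Pool.Agent.H549R2.UI

open Finset MvPolynomial

/-- the Leibniz rule for a product -/
theorem ua7_leibniz {ι : Type*} [DecidableEq ι] (d : ℕ) (s : Finset ι) (f : ι → V) :
    pderiv d (∏ i ∈ s, f i) = ∑ i ∈ s, pderiv d (f i) * ∏ j ∈ s.erase i, f j := by
  induction s using Finset.induction_on with
  | empty => simp
  | insert a s ha ih =>
    rw [Finset.prod_insert ha, Derivation.leibniz, smul_eq_mul, smul_eq_mul, ih,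
      Finset.sum_insert ha, Finset.erase_insert ha, Finset.mul_sum, add_comm]
    congr 1
    · rw [mul_comm]
    · refine Finset.sum_congr rfl fun i hi => ?_
      have hia : a ≠ i := fun h => ha (h ▸ hi)
      rw [Finset.erase_insert_of_ne hia, Finset.prod_insert (fun h => ha (Finset.mem_of_mem_erase h))]
      ring

/-- the product over the complement of a point -/
theorem ua7_erase {m : ℕ} (f : Fin (m + 1) → V) (p : Fin (m + 1)) :
    ∏ j ∈ univ.erase p, f j = ∏ k : Fin m, f (Equiv.swap 0 p k.succ) := by
  have h1 : ∏ j ∈ univ.erase p, f j = ∏ j, Function.update f p 1 j := by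
    rw [Finset.prod_update_of_mem (Finset.mem_univ p), one_mul, ← Finset.erase_eq]
  rw [h1, ← Equiv.prod_comp (Equiv.swap 0 p), Fin.prod_univ_succ, Equiv.swap_apply_left,
    Function.update_self, one_mul]
  refine Finset.prod_congr rfl fun k _ => ?_
  rw [Function.update_of_ne]
  intro h
  have h2 : k.succ = (0 : Fin (m + 1)) := by
    apply (Equiv.swap 0 p).injective
    rw [h, Equiv.swap_apply_left]
  exact Fin.succ_ne_zero k h2

/-- expansion of the permanent -/
theorem ua7_perm {m : ℕ} (c : Fin (m + 1) → Fin (m + 1) → ℚ) :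
    Matrix.permanent (Matrix.of c) =
      ∑ p, c p 0 * Matrix.permanent (Matrix.of fun a b : Fin m => c (Equiv.swap 0 p a.succ) b.succ) := by
  unfold Matrix.permanent
  rw [← Equiv.sum_comp (Equiv.Perm.decomposeFin (n := m)).symm, Fintype.sum_prod_type]
  refine Finset.sum_congr rfl fun p _ => ?_
  rw [Finset.mul_sum]
  refine Finset.sum_congr rfl fun e _ => ?_
  rw [Fin.prod_univ_succ]
  simp only [Matrix.of_apply, Equiv.Perm.decomposeFin_symm_apply_zero,
    Equiv.Perm.decomposeFin_symm_apply_succ]

theorem ua7_fw_add (l : List ℕ) (p p' : V) : fw l (p + p') = fw l p + fw l p' := by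
  induction l generalizing p p' with
  | nil => rfl
  | cons x xs ih =>
    have h : opL x (p + p') = opL x p + opL x p' := by
      unfold opL
      split_ifs
      · rw [mul_add]
      · rw [map_add]
    rw [fw, fw, fw, h, ih]

theorem ua7_fw_smul (l : List ℕ) (c : ℚ) (p : V) : fw l (C c * p) = C c * fw l p := by
  induction l generalizing p with
  | nil => rfl
  | cons x xs ih =>
    have h : opL x (C c * p) = C c * opL x p := by
      unfold opL
      split_ifs
      · ring
      · rw [Derivation.leibniz, smul_eq_mul, smul_eq_mul, pderiv_C, mul_zero, add_zero]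
    rw [fw, fw, h, ih]

theorem ua7_fw_zero (l : List ℕ) : fw l (0 : V) = 0 := by
  have h := ua7_fw_smul l 0 0
  simpa using h

theorem ua7_fw_sum {ι : Type*} (l : List ℕ) (s : Finset ι) (f : ι → V) :
    fw l (∑ i ∈ s, f i) = ∑ i ∈ s, fw l (f i) := by
  classical
  induction s using Finset.induction_on with
  | empty => simp [ua7_fw_zero]
  | insert a s ha ih => rw [Finset.sum_insert ha, Finset.sum_insert ha, ua7_fw_add, ih]

/-- iterated derivatives of a product of linear forms -/
theorem ua7_main : ∀ (m : ℕ) (lam : Fin m → V) (d : Fin m → ℕ) (c : Fin m → Fin m → ℚ),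
    (∀ i j, pderiv (d j) (lam i) = C (c i j)) →
    constantCoeff (fw ((List.ofFn d).map (fun x => 2 * x)) (∏ i, lam i)) =
      Matrix.permanent (Matrix.of c) := by
  intro m
  induction m with
  | zero =>
    intro lam d c _
    simp [fw, Matrix.permanent]
  | succ m ih =>
    intro lam d c h
    have hop : opL (2 * d 0) (∏ i, lam i) =
        ∑ p, C (c p 0) * ∏ k : Fin m, lam (Equiv.swap 0 p k.succ) := by
      unfold opL
      rw [if_neg (by omega), Nat.mul_div_cancel_left _ (by norm_num), ua7_leibniz]
      refine Finset.sum_congr rfl fun p _ => ?_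
      rw [h p 0, ua7_erase]
    rw [List.ofFn_succ, List.map_cons, fw, hop, ua7_fw_sum, map_sum, ua7_perm]
    refine Finset.sum_congr rfl fun p _ => ?_
    rw [ua7_fw_smul, map_mul, constantCoeff_C]
    congr 1
    exact ih (fun k => lam (Equiv.swap 0 p k.succ)) (fun k => d k.succ)
      (fun a b => c (Equiv.swap 0 p a.succ) b.succ) (fun i j => h _ _)

theorem ua7_ell_zero (l : List ℕ) : ∀ (q v : ℕ), v ≤ q → pderiv v (ell q l) = 0 := by
  induction l with
  | nil =>
    intro q v hv
    rw [ell, map_neg, pderiv_X_of_ne (by omega), neg_zero]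
  | cons a as ih =>
    intro q v hv
    rw [ell, map_add, map_add, Derivation.leibniz, Derivation.leibniz, Derivation.leibniz,
      pderiv_X_of_ne (by omega), pderiv_X_of_ne (by omega), ih (q + 3) v (by omega)]
    simp

theorem ua7_ell (l : List ℕ) : ∀ (q j : ℕ), pderiv (q + 3 + 3 * j) (ell q l) =
    C (2 * (-8 : ℚ) ^ j * ((l.getD j 0 : ℕ) : ℚ)) := by
  induction l with
  | nil =>
    intro q j
    rw [ell, map_neg, pderiv_X_of_ne (by omega)]
    simp
  | cons a as ih =>
    intro q j
    rw [ell, map_add, map_add, Derivation.leibniz, Derivation.leibniz, Derivation.leibniz,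
      pderiv_X_of_ne (by omega : q + 1 ≠ q + 3 + 3 * j)]
    rcases j with _ | j
    · have h1 : q + 3 + 3 * 0 = q + 3 := by ring
      rw [h1, pderiv_X_self, ua7_ell_zero as (q + 3) (q + 3) le_rfl]
      simp
    · have h1 : q + 3 + 3 * (j + 1) = (q + 3) + 3 + 3 * j := by ring
      rw [h1, pderiv_X_of_ne (by omega), ih (q + 3) j]
      have e : (C (2 * (-8 : ℚ) ^ (j + 1) * ((as.getD j 0 : ℕ) : ℚ)) : V) =
          C (-8 : ℚ) * C (2 * (-8 : ℚ) ^ j * ((as.getD j 0 : ℕ) : ℚ)) := by
        rw [← C_mul]
        congr 1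
        ring
      rw [List.getD_cons_succ, e]
      simp only [pderiv_C, smul_eq_mul, mul_zero, add_zero, zero_add]

theorem ua7_fin (n : ℕ) : fin n =
    (List.ofFn (fun j : Fin n => 3 * (j : ℕ) + 4)).map (fun x => 2 * x) := by
  apply List.ext_getElem
  · simp [fin]
  · intro i h1 h2
    simp [fin]

theorem ua7_nums (r : List Bool) (j : ℕ) : (nums r).getD j 0 = if r.getD j false = true then 1 else 0 := by
  unfold nums
  induction r generalizing j with
  | nil => simp
  | cons b r ih =>
    rcases j with _ | j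
    · cases b <;> simp
    · simpa using ih j

theorem cc_fin (A : List (List Bool)) (h : ∀ r ∈ A, r.length = A.length) :
    constantCoeff (fw (fin A.length) (A.map (fun r => X 0 + ell 1 (nums r))).prod) =
      (∏ j ∈ range A.length, (2 * (-8 : ℚ) ^ j)) *
        ((Pool.Agent.H549R2.Convex.F A : ℕ) : ℚ) := by
  have hprod : (A.map (fun r => (X 0 + ell 1 (nums r) : V))).prod =
      ∏ i : Fin A.length, (X 0 + ell 1 (nums (A.getD i.val [])) : V) := by
    rw [← Fin.prod_univ_fun_getElem]
    refine Finset.prod_congr rfl fun i _ => ?_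
    rw [List.getD_eq_getElem _ _ i.2]
  rw [hprod, ua7_fin, ua7_main A.length _ _ (fun i j => 2 * (-8 : ℚ) ^ (j : ℕ) *
    (((nums (A.getD i.val [])).getD j 0 : ℕ) : ℚ))]
  · unfold Pool.Agent.H549R2.Convex.F
    rw [if_pos h]
    unfold Matrix.permanent
    push_cast
    rw [Finset.mul_sum]
    refine Finset.sum_congr rfl fun σ _ => ?_
    simp only [Matrix.of_apply]
    rw [Finset.prod_mul_distrib]
    congr 1
    · exact Fin.prod_univ_eq_prod_range (fun j : ℕ => 2 * (-8 : ℚ) ^ j) A.length
    · refine Finset.prod_congr rfl fun i _ => ?_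
      rw [ua7_nums]
  · intro i j
    rw [map_add, pderiv_X_of_ne (by omega), zero_add]
    have h1 : 3 * (j : ℕ) + 4 = 1 + 3 + 3 * (j : ℕ) := by ring
    rw [h1, ua7_ell]

end Pool.Agent.H549R2.UI
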