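import Pool.Agent.H549R2.UI.Defs

/-!
# Perfect matchings of unit interval graphs: polynomial dependence on the parameter
-/

namespace Pool.Agent.H549R2.UI

open Finset MvPolynomial

/-- states that depend polynomially on a parameter, second form -/
def PD' (d : ℕ) (s : ℚ → V) : Prop :=
  ∃ P : Polynomial V, P.natDegree ≤ d ∧ ∀ t, s t = P.eval (C t)

theorem PD'.const (v : V) : PD' 0 (fun _ => v) :=
  ⟨Polynomial.C v, by simp, fun t => by simp⟩

theorem PD'.mono {d d' : ℕ} {s : ℚ → V} (h : PD' d s) (hd : d ≤ d') : PD' d' s := by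
  obtain ⟨P, h1, h2⟩ := h
  exact ⟨P, h1.trans hd, h2⟩

theorem PD'.lin {d : ℕ} {s : ℚ → V} (h : PD' d s) (F : V →ₗ[ℚ] V) :
    PD' d (fun t => F (s t)) := by
  obtain ⟨P, h1, h2⟩ := h
  refine ⟨∑ i ∈ range (d + 1), Polynomial.C (F (P.coeff i)) * Polynomial.X ^ i, ?_, ?_⟩
  · apply Polynomial.natDegree_sum_le_of_forall_le
    intro i hi
    refine (Polynomial.natDegree_C_mul_X_pow_le _ _).trans ?_
    rw [mem_range] at hi
    omega
  · intro t
    show F (s t) = _
    rw [h2 t, Polynomial.eval_eq_sum_range' (Nat.lt_succ_of_le h1), map_sum,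
      Polynomial.eval_finsetSum]
    apply Finset.sum_congr rfl
    intro i _
    have e1 : ∀ v : V, v * (C t : V) ^ i = (t ^ i) • v := by
      intro v
      rw [← C_pow, MvPolynomial.smul_eq_C_mul, mul_comm]
    rw [e1, map_smul, Polynomial.eval_mul, Polynomial.eval_C, Polynomial.eval_pow,
      Polynomial.eval_X, e1]

theorem PD'.sum {ι : Type*} {d : ℕ} (S : Finset ι) (s : ι → ℚ → V) (h : ∀ i ∈ S, PD' d (s i)) :
    PD' d (fun t => ∑ i ∈ S, s i t) := by
  classical
  induction S using Finset.induction_on with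
  | empty => simpa using (PD'.const 0).mono (Nat.zero_le d)
  | insert a S ha ih =>
    obtain ⟨P, h1, h2⟩ := ih (fun i hi => h i (mem_insert_of_mem hi))
    obtain ⟨Q, h3, h4⟩ := h a (mem_insert_self a S)
    refine ⟨Q + P, (Polynomial.natDegree_add_le _ _).trans (max_le h3 h1), fun t => ?_⟩
    show ∑ i ∈ insert a S, s i t = _
    rw [sum_insert ha, h4 t, Polynomial.eval_add, ← h2 t]

theorem PD'.smul {d e : ℕ} {s : ℚ → V} (h : PD' d s) (Q : Polynomial ℚ) (hQ : Q.natDegree ≤ e)
    (f : ℚ → ℚ) (hf : ∀ t, f t = Q.eval t) : PD' (d + e) (fun t => C (f t) * s t) := by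
  obtain ⟨P, h1, h2⟩ := h
  refine ⟨Q.map C * P, ?_, fun t => ?_⟩
  · refine Polynomial.natDegree_mul_le.trans ?_
    have := Polynomial.natDegree_map_le (p := Q) (f := (C : ℚ →+* V))
    omega
  · show C (f t) * s t = _
    rw [Polynomial.eval_mul, ← h2 t, Polynomial.eval_map, Polynomial.eval₂_at_apply, hf t]

/-- the coefficients of a gadget are polynomials in the parameter -/
theorem bin_poly (k e : ℕ) : ∃ Q : Polynomial ℚ, Q.natDegree ≤ k ∧
    ∀ t : ℚ, bin (t + e) k / k.factorial = Q.eval t := by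
  refine ⟨Polynomial.C ((1 / (k.factorial : ℚ)) * (1 / k.factorial)) *
    ∏ i ∈ range k, (Polynomial.X + Polynomial.C ((e : ℚ) - i)), ?_, ?_⟩
  · refine (Polynomial.natDegree_C_mul_le _ _).trans ?_
    refine (Polynomial.natDegree_prod_le _ _).trans ?_
    refine (Finset.sum_le_sum (g := fun _ => 1) fun i _ => ?_).trans ?_
    · exact (Polynomial.natDegree_X_add_C _).le
    · simp
  · intro t
    rw [Polynomial.eval_mul, Polynomial.eval_C, Polynomial.eval_prod]
    unfold bin
    have e1 : ∏ i ∈ range k, (t + (e : ℚ) - i) =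
        ∏ i ∈ range k, (Polynomial.X + Polynomial.C ((e : ℚ) - i)).eval t := by
      apply Finset.prod_congr rfl
      intro i _
      rw [Polynomial.eval_add, Polynomial.eval_X, Polynomial.eval_C]
      ring
    rw [e1]
    ring

theorem PD'.gop {d : ℕ} {s : ℚ → V} (h : PD' d s) (K e r y : ℕ) :
    PD' (d + K) (fun t => Gop K (t + e) r y (s t)) := by
  unfold Gop
  apply PD'.sum
  intro k hk
  rw [mem_range] at hk
  obtain ⟨Q, hQ1, hQ2⟩ := bin_poly k e
  have h1 := h.lin ((LinearMap.mulLeft ℚ ((X r + X (r + 1) : V) ^ k)) ∘ₗ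
    ((pderiv y : Derivation ℚ V V).toLinearMap ^ k))
  have h2 := h1.smul Q (hQ1.trans (Nat.le_of_lt_succ hk)) (fun t => bin (t + e) k / k.factorial)
    hQ2
  convert h2 using 3 with t
  rw [LinearMap.comp_apply, LinearMap.mulLeft_apply, Module.End.pow_apply]
  rfl

theorem PD'.run {d : ℕ} {s : ℚ → V} (h : PD' d s) (K : ℕ) (prog : List Ins) :
    PD' (d + K * prog.length) (fun t => run K t prog (s t)) := by
  induction prog generalizing d s with
  | nil => simpa [UI.run] using h
  | cons i is ih =>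
    have h1 := ih (h.gop K i.2.2 i.1 i.2.1)
    refine PD'.mono h1 (le_of_eq ?_)
    rw [List.length_cons]
    ring

theorem length_rowP (q : ℕ) (as : List ℕ) : (rowP q as).length = 12 * as.length + 1 := by
  induction as generalizing q with
  | nil => simp [rowP]
  | cons a as ih =>
    simp only [rowP, cell, crs, back, List.length_append, List.length_cons, List.length_nil, ih]
    ring

theorem PD'.runA {n d : ℕ} {s : ℚ → V} (h : PD' d s) (K : ℕ) (A : List (List Bool))
    (hA : ∀ r ∈ A, r.length = n) :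
    PD' (d + A.length * (K * (12 * n + 1))) (fun t => runA K t A (s t)) := by
  induction A generalizing d s with
  | nil => simpa [UI.runA] using h
  | cons r A ih =>
    have h1 := h.lin (LinearMap.mulLeft ℚ (X 0 + X 1 : V))
    have h2 := h1.run K (rowP 1 (nums r))
    have h3 := ih h2 (fun r' hr' => hA r' (List.mem_cons_of_mem _ hr'))
    refine PD'.mono h3 (le_of_eq ?_)
    have h4 : (nums r).length = n := by
      unfold nums
      rw [List.length_map]
      exact hA r List.mem_cons_self
    rw [length_rowP, h4, List.length_cons]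
    ring

theorem fw_lin (w : List ℕ) : ∃ F : V →ₗ[ℚ] V, ∀ p, fw w p = F p := by
  induction w with
  | nil => exact ⟨LinearMap.id, fun p => rfl⟩
  | cons x xs ih =>
    obtain ⟨F, hF⟩ := ih
    have h1 : ∃ G : V →ₗ[ℚ] V, ∀ p, opL x p = G p := by
      unfold opL
      by_cases hx : x % 2 = 1
      · refine ⟨LinearMap.mulLeft ℚ (X (x / 2) + X (x / 2 + 1) : V), fun p => ?_⟩
        rw [if_pos hx, LinearMap.mulLeft_apply]
      · refine ⟨(pderiv (x / 2) : Derivation ℚ V V).toLinearMap, fun p => ?_⟩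
        rw [if_neg hx]
        rfl
    obtain ⟨G, hG⟩ := h1
    refine ⟨F ∘ₗ G, fun p => ?_⟩
    show fw xs (opL x p) = _
    rw [hF, hG, LinearMap.comp_apply]

theorem exists_poly (A : List (List Bool)) (h : ∀ r ∈ A, r.length = A.length) :
    ∃ P : Polynomial ℚ, P.natDegree ≤ degA A ∧ ∀ t, valA t A = P.eval t := by
  obtain ⟨F, hF⟩ := fw_lin (fin A.length)
  have h1 := ((PD'.const (1 : V)).runA (n := A.length) A.length A h).lin F
  obtain ⟨P, hP1, hP2⟩ := h1
  refine ⟨P.map (constantCoeff : V →+* ℚ), ?_, fun t => ?_⟩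
  · refine Polynomial.natDegree_map_le.trans (hP1.trans (le_of_eq ?_))
    unfold degA
    ring
  · unfold valA
    have h2 : F (runA A.length t A 1) = P.eval (C t) := hP2 t
    rw [hF, h2, Polynomial.eval_map]
    have := Polynomial.eval₂_at_apply (p := P) (constantCoeff : V →+* ℚ) (C t)
    rw [constantCoeff_C] at this
    rw [this]

end Pool.Agent.H549R2.UI
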