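import Pool.Agent.H549R2.UI.Defs

/-!
# Perfect matchings of unit interval graphs: extrapolation
-/

namespace Pool.Agent.H549R2.UI

open Finset MvPolynomial

theorem A9_prod_diff (i d : ℕ) (h : i ≤ d) :
    ∏ j ∈ (range (d + 1)).erase i, ((i : ℚ) - j) =
      (-1) ^ (d - i) * ((i.factorial : ℚ) * ((d - i).factorial : ℚ)) := by
  induction d, h using Nat.le_induction with
  | base =>
    have h1 : (range (i + 1)).erase i = range i := by
      rw [range_add_one, erase_insert notMem_range_self]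
    rw [h1, Nat.sub_self, pow_zero, one_mul, Nat.factorial_zero, Nat.cast_one, mul_one,
      ← prod_range_add_one_eq_factorial, ← prod_range_reflect]
    push_cast
    refine prod_congr rfl fun j hj => ?_
    rw [mem_range] at hj
    have h2 : ((i - 1 - j : ℕ) : ℚ) + j + 1 = i := by
      exact_mod_cast (by omega : i - 1 - j + j + 1 = i)
    linarith
  | succ d hd ih =>
    have h1 : (range (d + 1 + 1)).erase i = insert (d + 1) ((range (d + 1)).erase i) := by
      rw [range_add_one, erase_insert_of_ne (by omega)]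
    have h2 : d + 1 ∉ (range (d + 1)).erase i := by
      rw [mem_erase, mem_range]
      omega
    rw [h1, prod_insert h2, ih]
    have h3 : d + 1 - i = (d - i) + 1 := by omega
    rw [h3, pow_succ, Nat.factorial_succ]
    push_cast
    have h4 : ((d - i : ℕ) : ℚ) = d - i := Nat.cast_sub hd
    rw [h4]
    ring

theorem A9_cf (α β d i : ℕ) (hβ : 0 < β) (hi : i ≤ d) :
    cf α β d i = ∏ j ∈ (range (d + 1)).erase i, (α * j + β) := by
  have h1 : (∏ j ∈ range (d + 1), (α * j + β)) =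
      (α * i + β) * ∏ j ∈ (range (d + 1)).erase i, (α * j + β) :=
    (mul_prod_erase (range (d + 1)) (fun j => α * j + β) (mem_range.2 (by omega))).symm
  rw [cf, h1, Nat.mul_div_cancel_left _ (by omega)]

theorem extrap (P : Polynomial ℚ) (d α β : ℕ) (hα : 0 < α) (hβ : 0 < β)
    (h : P.natDegree ≤ d) :
    (α : ℚ) ^ d * d.factorial * P.eval (-(β : ℚ) / α) =
      ∑ i ∈ range (d + 1), (-1) ^ i * (d.choose i) * (cf α β d i : ℚ) * P.eval (i : ℚ) := by
  have hinj : Set.InjOn (fun i : ℕ => (i : ℚ)) (range (d + 1) : Finset ℕ) :=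
    Nat.cast_injective.injOn
  have hdeg : P.degree < ((range (d + 1)).card : ℕ) := by
    rw [card_range]
    refine lt_of_le_of_lt Polynomial.degree_le_natDegree ?_
    exact_mod_cast (by omega : P.natDegree < d + 1)
  have h1 := Lagrange.eq_interpolate (s := range (d + 1)) (v := fun i : ℕ => (i : ℚ)) hinj hdeg
  have h2 : P.eval (-(β : ℚ) / α) = ∑ i ∈ range (d + 1), P.eval (i : ℚ) *
      ∏ j ∈ (range (d + 1)).erase i, (((i : ℚ) - j)⁻¹ * (-(β : ℚ) / α - j)) := by
    conv_lhs => rw [h1]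
    rw [Lagrange.interpolate_apply, Polynomial.eval_finsetSum]
    refine sum_congr rfl fun i _ => ?_
    rw [Polynomial.eval_mul, Polynomial.eval_C, Lagrange.basis, Polynomial.eval_prod]
    congr 1
    refine prod_congr rfl fun j _ => ?_
    rw [Lagrange.basisDivisor, Polynomial.eval_mul, Polynomial.eval_C, Polynomial.eval_sub,
      Polynomial.eval_X, Polynomial.eval_C]
  rw [h2, mul_sum]
  refine sum_congr rfl fun i hi => ?_
  rw [mem_range] at hi
  have hi' : i ≤ d := by omega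
  have hα' : (α : ℚ) ≠ 0 := by exact_mod_cast hα.ne'
  have h3 : (α : ℚ) ^ d * ∏ j ∈ (range (d + 1)).erase i, (-(β : ℚ) / α - j) =
      (-1) ^ d * (cf α β d i : ℚ) := by
    have hc : ((range (d + 1)).erase i).card = d := by
      rw [card_erase_of_mem (mem_range.2 hi), card_range]
      omega
    have e1 : (α : ℚ) ^ d = ∏ _j ∈ (range (d + 1)).erase i, (α : ℚ) := by
      rw [prod_const, hc]
    have e2 : (-1 : ℚ) ^ d = ∏ _j ∈ (range (d + 1)).erase i, (-1 : ℚ) := by
      rw [prod_const, hc]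
    rw [A9_cf α β d i hβ hi', e1, e2]
    push_cast
    rw [← prod_mul_distrib, ← prod_mul_distrib]
    refine prod_congr rfl fun j _ => ?_
    field_simp
    ring
  have h4 := A9_prod_diff i d hi'
  have h5 : ((d.choose i : ℕ) : ℚ) * (i.factorial * (d - i).factorial) = d.factorial := by
    have := Nat.choose_mul_factorial_mul_factorial hi'
    rw [← this]
    push_cast
    ring
  have h6 : ((i.factorial : ℚ) * ((d - i).factorial : ℚ)) ≠ 0 := by positivity
  have h7 : (-1 : ℚ) ^ d = (-1) ^ (d - i) * (-1) ^ i := by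
    rw [← pow_add]
    congr 1
    omega
  have h8 : (-1 : ℚ) ^ (d - i) ≠ 0 := pow_ne_zero _ (by norm_num)
  have h9 : ((-1 : ℚ) ^ (d - i)) * ((-1 : ℚ) ^ (d - i))⁻¹ = 1 := mul_inv_cancel₀ h8
  rw [prod_mul_distrib, prod_inv_distrib, h4, ← h5]
  have h10 : (α : ℚ) ^ d * ((d.choose i : ℚ) * (i.factorial * (d - i).factorial)) *
      (P.eval (i : ℚ) * (((-1) ^ (d - i) * ((i.factorial : ℚ) * ((d - i).factorial : ℚ)))⁻¹ *
        ∏ j ∈ (range (d + 1)).erase i, (-(β : ℚ) / α - j))) =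
      (((i.factorial : ℚ) * ((d - i).factorial : ℚ)) *
        ((i.factorial : ℚ) * ((d - i).factorial : ℚ))⁻¹) * ((-1 : ℚ) ^ (d - i))⁻¹ *
      ((d.choose i : ℚ) * P.eval (i : ℚ)) *
      ((α : ℚ) ^ d * ∏ j ∈ (range (d + 1)).erase i, (-(β : ℚ) / α - j)) := by
    rw [mul_inv]
    ring
  rw [h10, h3, mul_inv_cancel₀ h6, h7]
  calc 1 * ((-1 : ℚ) ^ (d - i))⁻¹ * ((d.choose i : ℚ) * P.eval (i : ℚ)) *
        ((-1) ^ (d - i) * (-1) ^ i * (cf α β d i : ℚ)) =
        (((-1 : ℚ) ^ (d - i)) * ((-1 : ℚ) ^ (d - i))⁻¹) *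
          ((-1) ^ i * (d.choose i) * (cf α β d i : ℚ) * P.eval (i : ℚ)) := by ring
    _ = (-1) ^ i * (d.choose i) * (cf α β d i : ℚ) * P.eval (i : ℚ) := by rw [h9, one_mul]

theorem A9_alt (q : ℕ) (g : ℕ → ℕ) :
    ((Pool.Agent.NPC.H549PM.altp q g 0 : ℕ) : ℤ) - (Pool.Agent.NPC.H549PM.altp q g 1 : ℕ) =
      ∑ t ∈ range (q + 1), (-1 : ℤ) ^ t * (q.choose t) * ((g t : ℕ) : ℤ) := by
  rw [Pool.Agent.NPC.H549PM.altp, Pool.Agent.NPC.H549PM.altp,
    Pool.Agent.NPC.H549Convex.sum_filter_range_list, Pool.Agent.NPC.H549Convex.sum_filter_range_list]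
  push_cast
  rw [← Finset.sum_sub_distrib]
  refine Finset.sum_congr rfl fun t ht => ?_
  rw [Finset.mem_range] at ht
  rw [Nat.min_eq_left (by omega : t ≤ q)]
  simp only [decide_eq_true_eq]
  rcases Nat.even_or_odd t with h' | h'
  · rw [if_pos (Nat.even_iff.1 h'), if_neg (by have := Nat.even_iff.1 h'; omega), h'.neg_one_pow]
    ring
  · rw [if_neg (by have := Nat.odd_iff.1 h'; omega), if_pos (Nat.odd_iff.1 h'), h'.neg_one_pow]
    ring

theorem aalt_eq (q : ℕ) (g : ℕ → ℕ) (k : ℕ)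
    (h : |∑ t ∈ range (q + 1), (-1 : ℚ) ^ t * (q.choose t) * ((g t : ℕ) : ℚ)| = (k : ℚ)) :
    aalt q g = k := by
  have h1 : |((Pool.Agent.NPC.H549PM.altp q g 0 : ℕ) : ℤ) -
      (Pool.Agent.NPC.H549PM.altp q g 1 : ℕ)| = (k : ℤ) := by
    rw [A9_alt]
    have h2 : ((|∑ t ∈ range (q + 1), (-1 : ℤ) ^ t * (q.choose t) * ((g t : ℕ) : ℤ)| : ℤ) : ℚ) =
        ((k : ℤ) : ℚ) := by
      push_cast
      exact h
    exact_mod_cast h2
  rw [aalt]
  generalize Pool.Agent.NPC.H549PM.altp q g 0 = a at h1 ⊢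
  generalize Pool.Agent.NPC.H549PM.altp q g 1 = b at h1 ⊢
  rcases le_total (b : ℤ) (a : ℤ) with h3 | h3
  · rw [abs_of_nonneg (by omega)] at h1
    omega
  · rw [abs_of_nonpos (by omega)] at h1
    omega

theorem aalt_congr (q : ℕ) (g g' : ℕ → ℕ) (h : ∀ t ≤ q, g t = g' t) : aalt q g = aalt q g' := by
  have : ∀ b, Pool.Agent.NPC.H549PM.altp q g b = Pool.Agent.NPC.H549PM.altp q g' b := by
    intro b
    rw [Pool.Agent.NPC.H549PM.altp, Pool.Agent.NPC.H549PM.altp]
    congr 1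
    refine List.map_congr_left fun t ht => ?_
    rw [List.mem_filter, List.mem_range] at ht
    rw [h t (by omega)]
  rw [aalt, aalt, this, this]

end Pool.Agent.H549R2.UI
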