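import Pool.Agent.H549R2.UI.Defs

/-!
# Perfect matchings of unit interval graphs: the blocks at the beginning of a word
-/

namespace Pool.Agent.H549R2.UI

open Finset MvPolynomial

theorem stp_append (u v : List ℕ) (p : V) : stp (u ++ v) p = stp u (stp v p) := by
  induction u with
  | nil => rfl
  | cons a u ih =>
    show (X a + X (a + 1)) * stp (u ++ v) p + pderiv a (stp (u ++ v) p) =
      (X a + X (a + 1)) * stp u (stp v p) + pderiv a (stp u (stp v p))
    rw [ih]

namespace B1

/-- the operator of a letter -/
noncomputable def T (z : ℕ) (p : V) : V := (X z + X (z + 1)) * p + pderiv z p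

theorem stp_cons (z : ℕ) (w : List ℕ) (p : V) : stp (z :: w) p = T z (stp w p) := rfl

/-- the operators as linear maps -/
noncomputable def stpL : List ℕ → (V →ₗ[ℚ] V)
  | [] => LinearMap.id
  | x :: xs => (LinearMap.mulLeft ℚ (X x + X (x + 1)) + (pderiv x : Derivation ℚ V V).toLinearMap) ∘ₗ
      stpL xs

theorem stpL_apply (w : List ℕ) (p : V) : stpL w p = stp w p := by
  induction w with
  | nil => rfl
  | cons x xs ih =>
    show (X x + X (x + 1)) * stpL xs p + pderiv x (stpL xs p) = _
    rw [ih]
    rfl

/-- the constant coefficient as a linear map -/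
noncomputable def ccL : V →ₗ[ℚ] ℚ where
  toFun := constantCoeff
  map_add' := by intro a b; rw [map_add]
  map_smul' := by intro c a; rw [smul_eq_C_mul, map_mul, constantCoeff_C]; rfl

/-- multiplication by a polynomial without the variable `z` -/
theorem T_mul (z : ℕ) (h R : V) (hR : pderiv z R = 0) : T z (h * R) = T z h * R := by
  unfold T
  rw [Derivation.leibniz, hR, smul_zero, zero_add, smul_eq_mul]
  ring

theorem rep_mul (z n : ℕ) (h R : V) (hR : pderiv z R = 0) :
    stp (List.replicate n z) (h * R) = stp (List.replicate n z) h * R := by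
  induction n with
  | zero => rfl
  | succ n ih =>
    rw [List.replicate_succ, stp_cons, stp_cons, ih, T_mul z _ R hR]

/-- `z` does not occur: multiplication by `X z` commutes -/
theorem stp_X (z : ℕ) (w : List ℕ) (hw : ∀ y ∈ w, y ≠ z) (p : V) :
    stp w (X z * p) = X z * stp w p := by
  induction w with
  | nil => rfl
  | cons y w ih =>
    rw [stp_cons, stp_cons, ih (fun a ha => hw a (List.mem_cons_of_mem _ ha))]
    unfold T
    rw [Derivation.leibniz, pderiv_X_of_ne (hw y List.mem_cons_self).symm, smul_zero, add_zero,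
      smul_eq_mul]
    ring

theorem stp_Xpow (z k : ℕ) (w : List ℕ) (hw : ∀ y ∈ w, y ≠ z) (p : V) :
    stp w (X z ^ k * p) = X z ^ k * stp w p := by
  induction k with
  | zero => rw [pow_zero, one_mul, one_mul]
  | succ k ih => rw [pow_succ', mul_assoc, stp_X z w hw, ih, mul_assoc]

theorem pderiv_comm (z y : ℕ) (p : V) : pderiv z (pderiv y p) = pderiv y (pderiv z p) := by
  have h : ⁅(pderiv z : Derivation ℚ V V), (pderiv y : Derivation ℚ V V)⁆ = 0 := by
    apply MvPolynomial.derivation_ext
    intro i
    rw [Derivation.commutator_apply]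
    have hc : ∀ a b c : ℕ, pderiv a (pderiv b (X c : V)) = 0 := by
      intro a b c
      by_cases h : c = b
      · subst h
        rw [pderiv_X_self, Derivation.map_one_eq_zero]
      · rw [pderiv_X_of_ne h, map_zero]
    rw [hc, hc, sub_zero, Derivation.zero_apply]
  have h2 := congrArg (fun D : Derivation ℚ V V => D p) h
  simp only [Derivation.commutator_apply, Derivation.zero_apply] at h2
  exact sub_eq_zero.1 h2

/-- the derivative commutes with the operators of the other letters -/
theorem pderiv_stp (z : ℕ) (w : List ℕ) (hw : ∀ y ∈ w, z ≠ y ∧ z ≠ y + 1) (p : V)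
    (hp : pderiv z p = 0) : pderiv z (stp w p) = 0 := by
  induction w with
  | nil => exact hp
  | cons y w ih =>
    have ih' := ih (fun a ha => hw a (List.mem_cons_of_mem _ ha))
    obtain ⟨h1, h2⟩ := hw y List.mem_cons_self
    rw [stp_cons]
    unfold T
    have e1 : pderiv z (pderiv y (stp w p)) = pderiv y (pderiv z (stp w p)) :=
      pderiv_comm z y _
    rw [map_add, Derivation.leibniz, ih', smul_zero, zero_add, map_add,
      pderiv_X_of_ne h1.symm, pderiv_X_of_ne h2.symm, add_zero, smul_zero, zero_add, e1, ih',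
      map_zero]

theorem T_X (z : ℕ) (p : V) : T z (X z * p) = X z * T z p + p := by
  unfold T
  rw [Derivation.leibniz, pderiv_X_self, smul_eq_mul, smul_eq_mul]
  ring

/-- the commutation relation -/
theorem rep_X (z n : ℕ) (p : V) : stp (List.replicate (n + 1) z) (X z * p) =
    X z * stp (List.replicate (n + 1) z) p + ((n : V) + 1) * stp (List.replicate n z) p := by
  induction n with
  | zero =>
    show T z (X z * p) = X z * T z p + ((0 : ℕ) + 1 : V) * p
    rw [T_X]
    push_cast
    ring
  | succ n ih =>
    rw [List.replicate_succ, stp_cons, ih, stp_cons]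
    have hl : ∀ a b : V, T z (a + b) = T z a + T z b := by
      intro a b
      unfold T
      rw [map_add]
      ring
    have hn : ∀ (a : V), T z (((n : V) + 1) * a) = ((n : V) + 1) * T z a := by
      intro a
      unfold T
      have e : pderiv z ((n : V) + 1) = 0 := by
        rw [map_add, Derivation.map_natCast, Derivation.map_one_eq_zero, add_zero]
      rw [Derivation.leibniz, e, smul_zero, add_zero, smul_eq_mul]
      ring
    rw [hl, hn, T_X]
    have e2 : T z (stp (List.replicate n z) p) = stp (List.replicate (n + 1) z) p := rfl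
    rw [e2]
    push_cast
    ring

/-- constant coefficients in one variable -/
noncomputable def c (z n k : ℕ) : ℚ := constantCoeff (stp (List.replicate n z) (X z ^ k))

theorem c_zero (z k : ℕ) : c z 0 (k + 1) = 0 := by
  show constantCoeff (X z ^ (k + 1)) = (0 : ℚ)
  rw [map_pow, constantCoeff_X, pow_succ, mul_zero]

theorem c_zero_zero (z : ℕ) : c z 0 0 = 1 := by
  show constantCoeff (X z ^ 0) = (1 : ℚ)
  rw [pow_zero, map_one]

theorem c_succ (z n k : ℕ) : c z (n + 1) (k + 1) = ((n : ℚ) + 1) * c z n k := by
  unfold c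
  rw [pow_succ', rep_X, map_add, map_mul, map_mul, constantCoeff_X, zero_mul, zero_add, map_add,
    map_natCast, map_one]

theorem c_one (z : ℕ) : c z 1 0 = 0 := by
  unfold c
  show constantCoeff (T z (X z ^ 0)) = (0 : ℚ)
  unfold T
  rw [pow_zero, mul_one, Derivation.map_one_eq_zero, add_zero, map_add, constantCoeff_X,
    constantCoeff_X, add_zero]

theorem rep_succ' (z n : ℕ) (p : V) :
    stp (List.replicate (n + 1) z) p = stp (List.replicate n z) (T z p) := by
  rw [List.replicate_succ', stp_append]
  rfl

theorem c_two (z n : ℕ) : c z (n + 2) 0 = ((n : ℚ) + 1) * c z n 0 := by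
  unfold c
  rw [pow_zero, rep_succ']
  have e1 : T z (1 : V) = X z * 1 + 1 * X (z + 1) := by
    unfold T
    rw [Derivation.map_one_eq_zero]
    ring
  have e2 : pderiv z (X (z + 1) : V) = 0 := pderiv_X_of_ne (by omega)
  rw [e1, ← stpL_apply, map_add, stpL_apply, stpL_apply, rep_X, rep_mul z _ 1 _ e2, map_add,
    map_add, map_mul, map_mul, map_mul, constantCoeff_X, constantCoeff_X, map_add, map_natCast,
    map_one, zero_mul, mul_zero, zero_add, add_zero]

theorem c_even (z x : ℕ) : c z (2 * x) 0 = (dfac x : ℚ) := by
  induction x with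
  | zero => rw [mul_zero, c_zero_zero]; simp [dfac]
  | succ x ih =>
    rw [show 2 * (x + 1) = 2 * x + 2 from by ring, c_two, ih]
    unfold dfac
    rw [Finset.prod_range_succ]
    push_cast
    ring

theorem c_odd (z x : ℕ) : c z (2 * x + 1) 0 = 0 := by
  induction x with
  | zero => exact c_one z
  | succ x ih =>
    rw [show 2 * (x + 1) + 1 = (2 * x + 1) + 2 from by ring, c_two, ih, mul_zero]

theorem c_oddk (z j : ℕ) : ∀ x : ℕ, c z (2 * x) (2 * j + 1) = 0 := by
  induction j with
  | zero =>
    intro x
    cases x with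
    | zero => exact c_zero z 0
    | succ x =>
      show c z ((2 * x + 1) + 1) (0 + 1) = 0
      rw [c_succ, c_odd, mul_zero]
  | succ j ih =>
    intro x
    cases x with
    | zero => exact c_zero z _
    | succ x =>
      show c z ((2 * x + 1) + 1) ((2 * j + 1 + 1) + 1) = 0
      rw [c_succ, c_succ, ih x, mul_zero, mul_zero]

theorem c_evenk (z j : ℕ) : ∀ x : ℕ, c z (2 * x) (2 * j) =
    (dfac x : ℚ) * (2 ^ j * ∏ i ∈ range j, ((x : ℚ) - i)) := by
  induction j with
  | zero =>
    intro x
    rw [mul_zero, c_even]
    simp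
  | succ j ih =>
    intro x
    cases x with
    | zero =>
      show c z 0 ((2 * j + 1) + 1) = _
      rw [c_zero, Finset.prod_range_succ']
      simp
    | succ x =>
      show c z ((2 * x + 1) + 1) ((2 * j + 1) + 1) = _
      rw [c_succ, c_succ, ih x, Finset.prod_range_succ']
      have e1 : ∏ k ∈ range j, (((x + 1 : ℕ) : ℚ) - ((k + 1 : ℕ) : ℚ)) =
          ∏ k ∈ range j, ((x : ℚ) - k) := by
        apply Finset.prod_congr rfl
        intro k _
        push_cast
        ring
      rw [e1]
      have e2 : (dfac (x + 1) : ℚ) = (dfac x : ℚ) * (2 * x + 1) := by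
        unfold dfac
        rw [Finset.prod_range_succ]
        push_cast
        ring
      rw [e2]
      push_cast
      ring

theorem c_mo (z x k : ℕ) : c z (2 * x) k = (dfac x : ℚ) * mo x k := by
  rcases Nat.even_or_odd' k with ⟨j, rfl | rfl⟩
  · rw [c_evenk]
    unfold mo
    rw [if_pos (by omega), show 2 * j / 2 = j from by omega]
  · rw [c_oddk]
    unfold mo
    rw [if_neg (by omega), mul_zero]

theorem cc_mon (x : ℕ) (zs : List ℕ) (hz : ∀ z ∈ zs, z % 2 = 0) (hnd : zs.Nodup) :
    ∀ s : ℕ →₀ ℕ, constantCoeff (stp (bw zs (fun _ => 2 * x)) (monomial s 1)) =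
      (dfac x : ℚ) ^ zs.length * mu zs x s := by
  induction zs with
  | nil =>
    intro s
    show constantCoeff (monomial s (1 : ℚ)) = _
    rw [constantCoeff_monomial, List.length_nil, pow_zero, one_mul]
    unfold mu
    by_cases hs : s = 0
    · subst hs
      simp
    · rw [if_neg (fun h => hs h)]
      obtain ⟨a, ha⟩ := Finsupp.ne_iff.1 hs
      symm
      unfold Finsupp.prod
      apply Finset.prod_eq_zero (Finsupp.mem_support_iff.2 ha)
      have h0 : ¬ s a = 0 := ha
      simp [h0]
  | cons z zs ih =>
    intro s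
    have hz' : ∀ y ∈ zs, y % 2 = 0 := fun y hy => hz y (List.mem_cons_of_mem _ hy)
    have hz0 : z % 2 = 0 := hz z List.mem_cons_self
    obtain ⟨hzn, hnd'⟩ := List.nodup_cons.1 hnd
    have hbw : bw (z :: zs) (fun _ => 2 * x) = List.replicate (2 * x) z ++
        bw zs (fun _ => 2 * x) := by
      simp [bw]
    have hmem : ∀ y ∈ bw zs (fun _ => 2 * x), y ∈ zs := by
      intro y hy
      unfold bw at hy
      rw [List.mem_flatMap] at hy
      obtain ⟨a, ha, hy⟩ := hy
      rw [List.eq_of_mem_replicate hy]
      exact ha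
    have hmon : (monomial s (1 : ℚ)) = X z ^ (s z) * monomial (s.erase z) 1 := by
      rw [X_pow_eq_monomial, monomial_mul, one_mul, Finsupp.single_add_erase]
    have hd : pderiv z (monomial (s.erase z) (1 : ℚ)) = 0 := by
      rw [pderiv_monomial]
      simp
    have hd2 : pderiv z (stp (bw zs (fun _ => 2 * x)) (monomial (s.erase z) 1)) = 0 := by
      apply pderiv_stp z _ _ _ hd
      intro y hy
      have h1 := hmem y hy
      have h2 := hz' y h1
      constructor
      · rintro rfl
        exact hzn h1
      · omega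
    rw [hbw, stp_append, hmon, stp_Xpow z (s z) _ (by
      intro y hy h
      rw [h] at hy
      exact hzn (hmem z hy)), rep_mul z _ _ _ hd2, map_mul, ih hz' hnd']
    have h3 : constantCoeff (stp (List.replicate (2 * x) z) (X z ^ (s z))) =
        (dfac x : ℚ) * mo x (s z) := c_mo z x (s z)
    rw [h3]
    have h4 : mu (z :: zs) x s = mo x (s z) * mu zs x (s.erase z) := by
      unfold mu
      have h5 := Finsupp.mul_prod_erase' s z (fun a k => if a ∈ z :: zs then mo (x : ℚ) k else
        (if k = 0 then 1 else 0)) (by
          intro a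
          simp [mo])
      rw [← h5, if_pos List.mem_cons_self]
      congr 1
      unfold Finsupp.prod
      apply Finset.prod_congr rfl
      intro a ha
      rw [Finsupp.support_erase, Finset.mem_erase] at ha
      have h6 : (a ∈ z :: zs) = (a ∈ zs) := by
        rw [List.mem_cons]
        simp [ha.1]
      simp only [h6]
    rw [h4, List.length_cons, pow_succ]
    ring

end B1

theorem cc_blocks (zs : List ℕ) (hz : ∀ z ∈ zs, z % 2 = 0) (hnd : zs.Nodup) (x : ℕ) (p : V) :
    constantCoeff (stp (bw zs (fun _ => 2 * x)) p) = (dfac x : ℚ) ^ zs.length * ET zs x p := by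
  have h : B1.ccL ∘ₗ B1.stpL (bw zs (fun _ => 2 * x)) =
      ((dfac x : ℚ) ^ zs.length) • ET zs x := by
    apply (MvPolynomial.basisMonomials ℕ ℚ).ext
    intro s
    rw [LinearMap.comp_apply, LinearMap.smul_apply, B1.stpL_apply, coe_basisMonomials]
    have h1 : ET zs x (monomial s 1) = mu zs x s := by
      have := (MvPolynomial.basisMonomials ℕ ℚ).constr_basis ℚ (mu zs x) s
      rw [coe_basisMonomials] at this
      exact this
    show constantCoeff (stp (bw zs (fun _ => 2 * x)) (monomial s 1)) = _ • ET zs x (monomial s 1)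
    rw [h1, B1.cc_mon x zs hz hnd s, smul_eq_mul]
  have h2 := LinearMap.congr_fun h p
  rw [LinearMap.comp_apply, LinearMap.smul_apply, B1.stpL_apply, smul_eq_mul] at h2
  exact h2

end Pool.Agent.H549R2.UI
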