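import Pool.Agent.H549R2.UI.Defs

/-!
# Perfect matchings of unit interval graphs: polynomial dependence of the moments
-/

namespace Pool.Agent.H549R2.UI

open Finset MvPolynomial

theorem B2_ET_monomial (zs : List ℕ) (x : ℚ) (s : ℕ →₀ ℕ) :
    ET zs x (monomial s 1) = mu zs x s := by
  have h := Module.Basis.constr_basis (MvPolynomial.basisMonomials ℕ ℚ) ℚ (mu zs x) s
  rw [MvPolynomial.coe_basisMonomials] at h
  exact h

theorem B2_ET_sum (zs : List ℕ) (x : ℚ) (p : V) :
    ET zs x p = ∑ s ∈ p.support, coeff s p * mu zs x s := by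
  conv_lhs => rw [p.as_sum]
  rw [map_sum]
  apply Finset.sum_congr rfl
  intro s _
  have h : (monomial s (coeff s p) : V) = coeff s p • monomial s 1 := by
    rw [MvPolynomial.smul_monomial, smul_eq_mul, mul_one]
  rw [h, map_smul, B2_ET_monomial, smul_eq_mul]

/-- one factor of the polynomial of a monomial -/
noncomputable def B2_f (zs : List ℕ) (a k : ℕ) : Polynomial ℚ :=
  if a ∈ zs then (if k % 2 = 0 then
    Polynomial.C (2 ^ (k / 2)) * ∏ i ∈ range (k / 2), (Polynomial.X - Polynomial.C (i : ℚ)) else 0)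
  else (if k = 0 then 1 else 0)

theorem B2_f_deg (zs : List ℕ) (a k : ℕ) : (B2_f zs a k).natDegree ≤ k := by
  unfold B2_f
  split_ifs
  · refine (Polynomial.natDegree_C_mul_le _ _).trans ?_
    refine (Polynomial.natDegree_prod_le _ _).trans ?_
    refine (Finset.sum_le_card_nsmul _ _ 1 (fun i _ => ?_)).trans ?_
    · exact Polynomial.natDegree_X_sub_C_le _
    · rw [card_range, smul_eq_mul, mul_one]
      exact Nat.div_le_self _ _
  · simp
  · simp
  · simp

theorem B2_f_eval (zs : List ℕ) (a k : ℕ) (x : ℚ) :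
    (B2_f zs a k).eval x = if a ∈ zs then mo x k else (if k = 0 then 1 else 0) := by
  unfold B2_f mo
  split_ifs
  · rw [Polynomial.eval_mul, Polynomial.eval_C, Polynomial.eval_prod]
    congr 1
    apply Finset.prod_congr rfl
    intro i _
    rw [Polynomial.eval_sub, Polynomial.eval_X, Polynomial.eval_C]
  · simp
  · simp
  · simp

/-- the polynomial of a monomial -/
noncomputable def B2_M (zs : List ℕ) (s : ℕ →₀ ℕ) : Polynomial ℚ := ∏ a ∈ s.support, B2_f zs a (s a)

theorem B2_M_deg (zs : List ℕ) (s : ℕ →₀ ℕ) :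
    (B2_M zs s).natDegree ≤ s.sum (fun _ k => k) := by
  unfold B2_M Finsupp.sum
  refine (Polynomial.natDegree_prod_le _ _).trans ?_
  exact Finset.sum_le_sum (fun a _ => B2_f_deg zs a (s a))

theorem B2_M_eval (zs : List ℕ) (s : ℕ →₀ ℕ) (x : ℚ) : (B2_M zs s).eval x = mu zs x s := by
  unfold B2_M mu Finsupp.prod
  rw [Polynomial.eval_prod]
  apply Finset.prod_congr rfl
  intro a _
  exact B2_f_eval zs a (s a) x

theorem B2_of_deg (zs : List ℕ) (p : V) (D : ℕ) (h : p.totalDegree ≤ D) :
    ∃ P : Polynomial ℚ, P.natDegree ≤ D ∧ ∀ x : ℚ, ET zs x p = P.eval x := by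
  refine ⟨∑ s ∈ p.support, Polynomial.C (coeff s p) * B2_M zs s, ?_, ?_⟩
  · apply Polynomial.natDegree_sum_le_of_forall_le
    intro s hs
    refine (Polynomial.natDegree_C_mul_le _ _).trans ?_
    exact (B2_M_deg zs s).trans ((MvPolynomial.le_totalDegree hs).trans h)
  · intro x
    rw [B2_ET_sum, Polynomial.eval_finsetSum]
    apply Finset.sum_congr rfl
    intro s _
    rw [Polynomial.eval_mul, Polynomial.eval_C, B2_M_eval]

theorem B2_pderiv_deg (x : ℕ) (p : V) : (pderiv x p).totalDegree ≤ p.totalDegree := by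
  conv_lhs => rw [p.as_sum]
  rw [map_sum]
  apply MvPolynomial.totalDegree_finsetSum_le
  intro s hs
  rw [MvPolynomial.pderiv_monomial]
  refine (MvPolynomial.totalDegree_monomial_le _ _).trans ?_
  refine le_trans ?_ (MvPolynomial.le_totalDegree hs)
  have h1 : (s - Finsupp.single x 1).sum (fun _ k => k) ≤ s.sum (fun _ k => k) := by
    have h2 : s - Finsupp.single x 1 ≤ s := tsub_le_self
    have h3 := Finsupp.degree_mono h2
    simpa only [Finsupp.degree_apply, Finsupp.sum] using h3
  exact h1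

theorem B2_stp_deg (w : List ℕ) : (stp w 1).totalDegree ≤ w.length := by
  induction w with
  | nil => simp [stp]
  | cons x xs ih =>
    rw [List.length_cons]
    change ((X x + X (x + 1)) * stp xs 1 + pderiv x (stp xs 1) : V).totalDegree ≤ _
    refine (MvPolynomial.totalDegree_add _ _).trans (max_le ?_ ?_)
    · refine (MvPolynomial.totalDegree_mul _ _).trans ?_
      have h1 : (X x + X (x + 1) : V).totalDegree ≤ 1 := by
        refine (MvPolynomial.totalDegree_add _ _).trans (max_le ?_ ?_) <;>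
          rw [MvPolynomial.totalDegree_X]
      omega
    · have h2 := B2_pderiv_deg x (stp xs 1)
      omega

theorem ET_poly (zs w : List ℕ) :
    ∃ P : Polynomial ℚ, P.natDegree ≤ w.length ∧ ∀ x : ℚ, ET zs x (stp w 1) = P.eval x :=
  B2_of_deg zs _ _ (B2_stp_deg w)

end Pool.Agent.H549R2.UI
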