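import Pool.Agent.H549R2.UI.Defs

/-!
# Perfect matchings of unit interval graphs: Gaussian integration by parts
-/

namespace Pool.Agent.H549R2.UI

open Finset MvPolynomial

/-- the factor of one variable -/
private def gf (zs : List ℕ) (x : ℚ) (a k : ℕ) : ℚ :=
  if a ∈ zs then mo x k else (if k = 0 then 1 else 0)

private theorem gf_zero (zs : List ℕ) (x : ℚ) (a : ℕ) : gf zs x a 0 = 1 := by
  unfold gf mo
  by_cases h : a ∈ zs
  · rw [if_pos h, if_pos (by norm_num)]
    simp
  · rw [if_neg h, if_pos rfl]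

private theorem mu_eq (zs : List ℕ) (x : ℚ) (s : ℕ →₀ ℕ) : mu zs x s = s.prod (gf zs x) := rfl

private theorem mu_erase (zs : List ℕ) (x : ℚ) (s : ℕ →₀ ℕ) (a : ℕ) :
    mu zs x s = gf zs x a (s a) * (s.erase a).prod (gf zs x) := by
  rw [mu_eq, Finsupp.mul_prod_erase' s a (gf zs x) (gf_zero zs x)]

private theorem ET_monomial (zs : List ℕ) (x : ℚ) (s : ℕ →₀ ℕ) (c : ℚ) :
    ET zs x (monomial s c) = c * mu zs x s := by
  have h : (monomial s c : V) = c • monomial s 1 := by
    rw [smul_monomial, smul_eq_mul, mul_one]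
  rw [h, map_smul, smul_eq_mul]
  congr 1
  have := (MvPolynomial.basisMonomials ℕ ℚ).constr_basis ℚ (mu zs x) s
  rw [MvPolynomial.coe_basisMonomials] at this
  exact this

theorem ET_one (zs : List ℕ) (x : ℚ) : ET zs x 1 = 1 := by
  have h : (1 : V) = monomial 0 1 := rfl
  rw [h, ET_monomial, one_mul, mu_eq, Finsupp.prod_zero_index]

private theorem mo_half (k : ℕ) : mo (-1 / 2) (k + 1) = -((k : ℚ) * mo (-1 / 2) (k - 1)) := by
  cases k with
  | zero => simp [mo]
  | succ j =>
    rw [Nat.add_sub_cancel]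
    unfold mo
    by_cases hj : j % 2 = 0
    · have h1 : (j + 1 + 1) % 2 = 0 := by omega
      have h2 : (j + 1 + 1) / 2 = j / 2 + 1 := by omega
      rw [if_pos h1, if_pos hj, h2, Finset.prod_range_succ, pow_succ]
      have h3 : (j : ℚ) = 2 * ((j / 2 : ℕ) : ℚ) := by
        have : j = 2 * (j / 2) := by omega
        exact_mod_cast this
      push_cast
      rw [h3]
      have h4 : ((2 * ((j / 2 : ℕ) : ℚ))) = 2 * ((j / 2 : ℕ) : ℚ) := rfl
      ring
    · have h1 : ¬ (j + 1 + 1) % 2 = 0 := by omega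
      rw [if_neg h1, if_neg hj]
      ring

private theorem erase_add (s : ℕ →₀ ℕ) (a : ℕ) :
    (Finsupp.single a 1 + s).erase a = s.erase a := by
  ext b
  by_cases h : b = a
  · subst h
    simp
  · rw [Finsupp.erase_ne h, Finsupp.erase_ne h, Finsupp.add_apply,
      Finsupp.single_eq_of_ne h, zero_add]

private theorem erase_sub (s : ℕ →₀ ℕ) (a : ℕ) :
    (s - Finsupp.single a 1).erase a = s.erase a := by
  ext b
  by_cases h : b = a
  · subst h
    simp
  · rw [Finsupp.erase_ne h, Finsupp.erase_ne h, Finsupp.tsub_apply,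
      Finsupp.single_eq_of_ne h, Nat.sub_zero]

theorem ET_half (zs : List ℕ) (a : ℕ) (p : V) :
    ET zs (-1 / 2) (X a * p) = if a ∈ zs then -(ET zs (-1 / 2) (pderiv a p)) else 0 := by
  induction p using MvPolynomial.induction_on' with
  | monomial s c =>
    have h1 : (X a * monomial s c : V) = monomial (Finsupp.single a 1 + s) c := by
      rw [X, monomial_mul, one_mul]
    rw [h1, pderiv_monomial, ET_monomial, ET_monomial, mu_erase _ _ _ a,
      mu_erase _ _ (s - Finsupp.single a 1) a, erase_add, erase_sub]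
    have h2 : (Finsupp.single a 1 + s : ℕ →₀ ℕ) a = s a + 1 := by
      rw [Finsupp.add_apply, Finsupp.single_eq_same, add_comm]
    have h3 : (s - Finsupp.single a 1 : ℕ →₀ ℕ) a = s a - 1 := by
      rw [Finsupp.tsub_apply, Finsupp.single_eq_same]
    rw [h2, h3]
    by_cases ha : a ∈ zs
    · rw [if_pos ha]
      unfold gf
      rw [if_pos ha, if_pos ha, mo_half]
      ring
    · rw [if_neg ha]
      unfold gf
      rw [if_neg ha, if_neg (Nat.succ_ne_zero _)]
      ring
  | add p q hp hq =>
    rw [mul_add, map_add, hp, hq, map_add, map_add]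
    split_ifs
    · ring
    · ring

end Pool.Agent.H549R2.UI
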