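import Pool.Agent.H549R2.UI.Defs
import Pool.Agent.H549R2.UI.B3

/-!
# Perfect matchings of unit interval graphs: backward words and matchings
-/

namespace Pool.Agent.H549R2.UI

open Finset MvPolynomial

private theorem pd_comm (a b : ℕ) (p : V) : pderiv a (pderiv b p) = pderiv b (pderiv a p) := by
  rcases eq_or_ne a b with rfl | hab
  · rfl
  · ext m
    rw [coeff_pderiv, coeff_pderiv, coeff_pderiv, coeff_pderiv, add_right_comm m]
    simp only [Finsupp.add_apply, Finsupp.single_eq_of_ne hab, Finsupp.single_eq_of_ne hab.symm]
    ring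

private theorem stp_cons (x : ℕ) (xs : List ℕ) (p : V) :
    stp (x :: xs) p = (X x + X (x + 1)) * stp xs p + pderiv x (stp xs p) := rfl

theorem pderiv_stp (a : ℕ) (w : List ℕ) :
    pderiv a (stp w 1) = ∑ i : Fin w.length, C (W1 a w[i]) * stp (w.eraseIdx i) 1 := by
  induction w with
  | nil =>
    show pderiv a (1 : V) = _
    rw [pderiv_one]
    rfl
  | cons x xs ih =>
    have e0 : (∑ i : Fin (x :: xs).length, C (W1 a (x :: xs)[i]) *
        stp ((x :: xs).eraseIdx i) 1 : V) =
        C (W1 a x) * stp xs 1 + ∑ i : Fin xs.length, C (W1 a xs[i]) *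
          stp (x :: xs.eraseIdx i) 1 := by
      exact Fin.sum_univ_succ (n := xs.length) (fun i : Fin (xs.length + 1) =>
        (C (W1 a (x :: xs)[i]) * stp ((x :: xs).eraseIdx i) 1 : V))
    rw [e0]
    have e1 : (pderiv a (X x + X (x + 1)) : V) = C (W1 a x) := by
      rw [map_add, pderiv_X, pderiv_X, Pi.single_apply, Pi.single_apply]
      unfold W1
      rw [map_add]
      congr 1
      · split_ifs <;> simp
      · by_cases h : x + 1 = a
        · rw [if_pos h, if_pos h.symm, map_one]
        · rw [if_neg h, if_neg (Ne.symm h), map_zero]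
    rw [stp_cons, map_add, pderiv_mul, e1, pd_comm a x, ih, map_sum, Finset.mul_sum, add_assoc,
      ← Finset.sum_add_distrib]
    congr 1
    apply Finset.sum_congr rfl
    intro i _
    rw [pderiv_C_mul, stp_cons]
    ring

theorem cc_stp (w : List ℕ) : constantCoeff (stp w 1) = haf W1 w := by
  induction hn : w.length using Nat.strong_induction_on generalizing w with
  | _ n ih =>
    match w with
    | [] =>
      rw [haf]
      show constantCoeff (1 : V) = 1
      exact map_one _
    | x :: xs =>
      rw [haf, stp_cons, map_add, map_mul, map_add, constantCoeff_X, constantCoeff_X, add_zero,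
        zero_mul, zero_add, pderiv_stp, map_sum]
      apply Finset.sum_congr rfl
      intro i _
      rw [map_mul, constantCoeff_C, ih _ _ _ rfl]
      rw [← hn, List.length_cons, List.length_eraseIdx]
      split_ifs <;> omega

private theorem ev_mem_erase (zs : List ℕ) (xs : List ℕ) (hw : ∀ x ∈ xs, ev x ∈ zs) (i : ℕ) :
    ∀ x ∈ xs.eraseIdx i, ev x ∈ zs := fun x hx => hw x (List.mem_of_mem_eraseIdx hx)

private theorem W2_even (x z : ℕ) (hx : x % 2 = 0) : W2 x z = 0 := by
  unfold W2 W1 ev
  have h1 : (z = x) ∨ (x = z + 1) ↔ (x + x % 2 = z + z % 2) := by omega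
  have h2 : ¬ ((z = x) ∧ (x = z + 1)) := by omega
  by_cases ha : z = x
  · have hb : ¬ (x = z + 1) := fun h => h2 ⟨ha, h⟩
    rw [if_pos ha, if_neg hb, if_pos (h1.1 (Or.inl ha))]; norm_num
  · by_cases hb : x = z + 1
    · rw [if_neg ha, if_pos hb, if_pos (h1.1 (Or.inr hb))]; norm_num
    · rw [if_neg ha, if_neg hb, if_neg (fun h => (h1.2 h).elim ha hb)]; norm_num

private theorem W2_odd (x z : ℕ) (hx : x % 2 = 1) : W2 x z = W1 x z - W1 (x + 1) z := by
  unfold W2 W1 ev
  have h1 : (z = x) ∨ (z = x + 1) ↔ (x + x % 2 = z + z % 2) := by omega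
  have h2 : (x + 1 = z + 1) ↔ (z = x) := by omega
  by_cases ha : z = x
  · subst ha
    rw [if_pos (h1.1 (Or.inl rfl))]
    simp
  · by_cases hb : z = x + 1
    · rw [if_pos (h1.1 (Or.inr hb)), if_neg ha, if_pos hb, if_neg (fun h => ha (h2.1 h))]
      ring
    · rw [if_neg ha, if_neg hb, if_neg (fun h => (h1.2 h).elim ha hb),
        if_neg (fun h => ha (h2.1 h))]
      ring

theorem ET_stp (zs : List ℕ) (hz : ∀ z ∈ zs, z % 2 = 0) (w : List ℕ) (hw : ∀ x ∈ w, ev x ∈ zs) :
    ET zs (-1 / 2) (stp w 1) = haf W2 w := by
  induction hn : w.length using Nat.strong_induction_on generalizing w with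
  | _ n ih =>
    match w with
    | [] =>
      rw [haf]
      show ET zs (-1 / 2) 1 = 1
      exact ET_one zs _
    | x :: xs =>
      have hw' : ∀ y ∈ xs, ev y ∈ zs := fun y hy => hw y (List.mem_cons_of_mem x hy)
      have hlen : ∀ i : Fin xs.length, (xs.eraseIdx i).length < n := by
        intro i
        rw [← hn, List.length_cons, List.length_eraseIdx]
        split_ifs <;> omega
      have hIH : ∀ i : Fin xs.length, ET zs (-1 / 2) (stp (xs.eraseIdx i) 1) =
          haf W2 (xs.eraseIdx i) := fun i =>
        ih _ (hlen i) (xs.eraseIdx i) (ev_mem_erase zs xs hw' i) rfl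
      have hpd : ∀ a : ℕ, ET zs (-1 / 2) (pderiv a (stp xs 1)) =
          ∑ i : Fin xs.length, W1 a xs[i] * haf W2 (xs.eraseIdx i) := by
        intro a
        rw [pderiv_stp, map_sum]
        apply Finset.sum_congr rfl
        intro i _
        rw [C_mul', map_smul, hIH i, smul_eq_mul]
      rw [haf, stp_cons, map_add, add_mul, map_add, ET_half, ET_half]
      rcases Nat.mod_two_eq_zero_or_one x with hx | hx
      · have hxz : x ∈ zs := by
          have := hw x List.mem_cons_self
          unfold ev at this
          rwa [hx, add_zero] at this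
        have hxz1 : x + 1 ∉ zs := fun h => by
          have := hz _ h
          omega
        rw [if_pos hxz, if_neg hxz1]
        have : (∑ i : Fin xs.length, W2 x xs[i] * haf W2 (xs.eraseIdx i)) = 0 := by
          apply Finset.sum_eq_zero
          intro i _
          rw [W2_even _ _ hx, zero_mul]
        rw [this]
        ring
      · have hxz : x ∉ zs := fun h => by
          have := hz _ h
          omega
        have hxz1 : x + 1 ∈ zs := by
          have := hw x List.mem_cons_self
          unfold ev at this
          rwa [hx] at this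
        rw [if_neg hxz, if_pos hxz1, hpd, hpd, zero_add, neg_add_eq_sub, ← Finset.sum_sub_distrib]
        apply Finset.sum_congr rfl
        intro i _
        rw [W2_odd _ _ hx]
        ring

private theorem W2_W3 (x z : ℕ) : W2 x z = (-1) ^ (x / 2) * (-1) ^ (z / 2) * W3 x z := by
  rcases Nat.mod_two_eq_zero_or_one x with hx | hx
  · rw [W2_even _ _ hx]
    unfold W3
    rw [if_neg (by omega), mul_zero]
  · rw [W2_odd _ _ hx]
    unfold W1 W3
    by_cases ha : z + 1 = x
    · have h1 : z / 2 = x / 2 := by omega
      rw [if_neg (by omega), if_pos ha.symm, if_neg (by omega), if_neg (by omega),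
        if_pos ⟨hx, Or.inl ha⟩, h1, ← mul_pow]
      norm_num
    · by_cases hb : z = x + 1
      · have h1 : z / 2 = x / 2 + 1 := by omega
        rw [if_neg (by omega), if_neg (by omega), if_pos hb, if_neg (by omega),
          if_pos ⟨hx, Or.inr hb⟩, h1, pow_succ, ← mul_assoc, ← mul_pow]
        norm_num
      · by_cases hc : z = x
        · rw [if_pos hc, if_neg (by omega), if_neg hb, if_pos (by omega),
            if_neg (by omega)]
          ring
        · rw [if_neg hc, if_neg (by omega), if_neg hb, if_neg (by omega),
            if_neg (by omega)]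
          ring

theorem haf_W2 (w : List ℕ) : haf W2 w = (-1) ^ (w.map (fun x => x / 2)).sum * haf W3 w := by
  induction hn : w.length using Nat.strong_induction_on generalizing w with
  | _ n ih =>
    match w with
    | [] =>
      rw [haf, haf]
      simp
    | x :: xs =>
      have hlen : ∀ i : Fin xs.length, (xs.eraseIdx i).length < n := by
        intro i
        rw [← hn, List.length_cons, List.length_eraseIdx]
        split_ifs <;> omega
      rw [haf, haf, Finset.mul_sum]
      apply Finset.sum_congr rfl
      intro i _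
      rw [ih _ (hlen i) (xs.eraseIdx i) rfl, W2_W3]
      have e1 : ((xs[i] :: xs.eraseIdx i).map (fun x => x / 2)).sum =
          (xs.map (fun x => x / 2)).sum :=
        ((List.getElem_cons_eraseIdx_perm i.isLt).map _).sum_eq
      rw [List.map_cons, List.sum_cons] at e1
      rw [List.map_cons, List.sum_cons, ← e1, pow_add, pow_add]
      ring

end Pool.Agent.H549R2.UI
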