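import Pool.Agent.H549R2.UI.Defs

/-!
# Perfect matchings of unit interval graphs: matchings of words
-/

namespace Pool.Agent.H549R2.UI

open Finset MvPolynomial

open Pool.Agent.H549R2.PM

/-- the number of perfect matchings of a list with respect to a relation between an earlier and
a later element -/
noncomputable def pmR (r : ℕ → ℕ → Prop) (w : List ℕ) : ℕ :=
  Nat.card {f : Fin w.length → Fin w.length // (∀ i, f (f i) = i) ∧
    ∀ i, (i < f i ∧ r w[i] w[f i]) ∨ (f i < i ∧ r w[f i] w[i])}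

/-- matchings of a function on positions -/
def B6C {n : ℕ} (r : ℕ → ℕ → Prop) (w : Fin n → ℕ) (f : Fin n → Fin n) : Prop :=
  (∀ i, f (f i) = i) ∧ ∀ i, (i < f i ∧ r (w i) (w (f i))) ∨ (f i < i ∧ r (w (f i)) (w i))

theorem B6_pmR (r : ℕ → ℕ → Prop) (w : List ℕ) (n : ℕ) (h : w.length = n) :
    pmR r w = Nat.card {f : Fin n → Fin n // B6C r (fun k => w.getD k 0) f} := by
  subst h
  have e : (fun k : Fin w.length => w.getD k 0) = fun k => w[k] := by
    funext k
    exact List.getD_eq_getElem w 0 k.2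
  rw [e]
  rfl

theorem B6_fiber {n : ℕ} (r : ℕ → ℕ → Prop) (w : Fin (n + 2) → ℕ) (b : Fin (n + 2)) (hb0 : b ≠ 0)
    (e : Fin n → Fin (n + 2)) (he : StrictMono e) (h0 : ∀ k, e k ≠ 0) (h1 : ∀ k, e k ≠ b)
    (h2 : ∀ j, j ≠ 0 → j ≠ b → ∃ k, e k = j) (hr : r (w 0) (w b)) :
    Nat.card {f : Fin (n + 2) → Fin (n + 2) // B6C r w f ∧ f 0 = b} =
      Nat.card {g : Fin n → Fin n // B6C r (fun k => w (e k)) g} := by
  classical
  choose d hd using h2
  have hde : ∀ k, d (e k) (h0 k) (h1 k) = k := fun k => he.injective (hd _ _ _)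
  let F : (Fin n → Fin n) → Fin (n + 2) → Fin (n + 2) := fun g j =>
    if h : j = 0 then b else if h' : j = b then 0 else e (g (d j h h'))
  have F0 : ∀ g, F g 0 = b := fun g => by simp [F]
  have Fb : ∀ g, F g b = 0 := fun g => by simp [F, hb0]
  have Fe : ∀ g k, F g (e k) = e (g k) := fun g k => by
    simp only [F, dif_neg (h0 k), dif_neg (h1 k), hde]
  have hcase : ∀ j : Fin (n + 2), j = 0 ∨ j = b ∨ ∃ k, e k = j := by
    intro j
    by_cases ha : j = 0
    · exact Or.inl ha
    · by_cases hb : j = b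
      · exact Or.inr (Or.inl hb)
      · exact Or.inr (Or.inr ⟨_, hd j ha hb⟩)
  have hlt : ∀ j k, e j < e k ↔ j < k := fun j k => he.lt_iff_lt
  symm
  refine Nat.card_congr (Equiv.ofBijective
    (fun g => (⟨F g.1, ?_⟩ : {f : Fin (n + 2) → Fin (n + 2) // B6C r w f ∧ f 0 = b})) ⟨?_, ?_⟩)
  · obtain ⟨g, hg1, hg2⟩ := g
    refine ⟨⟨?_, ?_⟩, F0 g⟩
    · intro j
      rcases hcase j with rfl | rfl | ⟨k, rfl⟩
      · simp only [F0, Fb]
      · simp only [F0, Fb]
      · simp only [Fe, hg1]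
    · intro j
      rcases hcase j with rfl | rfl | ⟨k, rfl⟩
      · left
        simp only [F0]
        exact ⟨Fin.pos_of_ne_zero hb0, hr⟩
      · right
        simp only [Fb]
        exact ⟨Fin.pos_of_ne_zero hb0, hr⟩
      · simp only [Fe, hlt]
        exact hg2 k
  · intro g g' h
    apply Subtype.ext
    have h3 : F g.1 = F g'.1 := congrArg Subtype.val h
    funext k
    have h4 := congrFun h3 (e k)
    rw [Fe, Fe] at h4
    exact he.injective h4
  · rintro ⟨f, ⟨hf1, hf2⟩, hf3⟩
    have hfb : f b = 0 := by rw [← hf3, hf1]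
    have ne0 : ∀ k, f (e k) ≠ 0 := by
      intro k hk
      have := hf1 (e k)
      rw [hk, hf3] at this
      exact h1 k this.symm
    have neb : ∀ k, f (e k) ≠ b := by
      intro k hk
      have := hf1 (e k)
      rw [hk, hfb] at this
      exact h0 k this.symm
    let g : Fin n → Fin n := fun k => d (f (e k)) (ne0 k) (neb k)
    have hg : ∀ k, e (g k) = f (e k) := fun k => hd _ _ _
    refine ⟨⟨g, ?_, ?_⟩, ?_⟩
    · intro k
      apply he.injective
      rw [hg, hg, hf1]
    · intro k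
      have h5 := hf2 (e k)
      rw [← hg, hlt, hlt] at h5
      exact h5
    · apply Subtype.ext
      show F g = f
      funext j
      rcases hcase j with rfl | rfl | ⟨k, rfl⟩
      · rw [F0, hf3]
      · rw [Fb, hfb]
      · rw [Fe, hg]

theorem B6_fiber_zero {n : ℕ} (r : ℕ → ℕ → Prop) (w : Fin (n + 2) → ℕ) (b : Fin (n + 2))
    (h : b = 0 ∨ ¬ r (w 0) (w b)) :
    Nat.card {f : Fin (n + 2) → Fin (n + 2) // B6C r w f ∧ f 0 = b} = 0 := by
  have : IsEmpty {f : Fin (n + 2) → Fin (n + 2) // B6C r w f ∧ f 0 = b} := by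
    refine ⟨?_⟩
    rintro ⟨f, ⟨-, hf2⟩, hf3⟩
    have h1 := hf2 0
    rw [hf3] at h1
    rcases h1 with h1 | h1
    · rcases h with h | h
      · exact absurd h1.1 (by rw [h]; exact lt_irrefl _)
      · exact h h1.2
    · exact absurd h1.1 (not_lt.2 (Fin.zero_le _))
  exact Nat.card_of_isEmpty

open Classical in
theorem B6_succ {n : ℕ} (r : ℕ → ℕ → Prop) (w : Fin (n + 2) → ℕ) :
    Nat.card {f : Fin (n + 2) → Fin (n + 2) // B6C r w f} =
      ∑ i : Fin (n + 1), if r (w 0) (w i.succ) then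
        Nat.card {g : Fin n → Fin n // B6C r (fun k => w (i.succAbove k).succ) g} else 0 := by
  have h1 : Nat.card {f : Fin (n + 2) → Fin (n + 2) // B6C r w f} =
      ∑ b : Fin (n + 2), Nat.card {f : Fin (n + 2) → Fin (n + 2) // B6C r w f ∧ f 0 = b} := by
    rw [← Nat.card_sigma]
    refine Nat.card_congr ?_
    refine (Equiv.sigmaFiberEquiv
      (fun f : {f : Fin (n + 2) → Fin (n + 2) // B6C r w f} => f.1 0)).symm.trans ?_
    refine Equiv.sigmaCongrRight fun b => ?_
    exact Equiv.subtypeSubtypeEquivSubtypeInter _ (fun f : Fin (n + 2) → Fin (n + 2) => f 0 = b)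
  rw [h1, Fin.sum_univ_succ, B6_fiber_zero r w 0 (Or.inl rfl), zero_add]
  refine Finset.sum_congr rfl fun i _ => ?_
  split_ifs with hr
  · refine B6_fiber r w i.succ (Fin.succ_ne_zero i) (fun k => (i.succAbove k).succ) ?_ ?_ ?_ ?_ hr
    · intro a b hab
      exact Fin.succ_lt_succ_iff.2 (Fin.strictMono_succAbove i hab)
    · intro k
      exact Fin.succ_ne_zero _
    · intro k hk
      exact Fin.succAbove_ne i k (Fin.succ_injective _ hk)
    · intro j hj0 hji
      obtain ⟨j', rfl⟩ := Fin.exists_succ_eq.2 hj0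
      have : j' ≠ i := fun h => hji (by rw [h])
      obtain ⟨k, hk⟩ := Fin.exists_succAbove_eq this
      exact ⟨k, by rw [hk]⟩
  · exact B6_fiber_zero r w i.succ (Or.inr hr)

open Classical in
theorem pmR_cons (r : ℕ → ℕ → Prop) (x : ℕ) (xs : List ℕ) :
    pmR r (x :: xs) = ∑ i : Fin xs.length, if r x xs[i] then pmR r (xs.eraseIdx i) else 0 := by
  rcases Nat.eq_zero_or_pos xs.length with h | h
  · have hxs : xs = [] := List.length_eq_zero_iff.1 h
    subst hxs
    rw [B6_pmR r [x] 1 rfl]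
    have : IsEmpty {f : Fin 1 → Fin 1 // B6C r (fun k => [x].getD k 0) f} := by
      refine ⟨?_⟩
      rintro ⟨f, -, hf⟩
      have h1 := hf 0
      have h2 : f 0 = 0 := Subsingleton.elim _ _
      rw [h2] at h1
      rcases h1 with h1 | h1
      · exact absurd h1.1 (lt_irrefl _)
      · exact absurd h1.1 (lt_irrefl _)
    rw [Nat.card_of_isEmpty]
    simp
  · obtain ⟨n, hn⟩ : ∃ n, xs.length = n + 1 := ⟨xs.length - 1, by omega⟩
    rw [B6_pmR r (x :: xs) (n + 2) (by simp [hn]), B6_succ]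
    refine Fintype.sum_equiv (finCongr hn.symm) _ _ fun i => ?_
    have e1 : (x :: xs).getD ((0 : Fin (n + 2)) : ℕ) 0 = x := rfl
    have e3 : ∀ k : Fin (n + 1), (x :: xs).getD (k.succ : ℕ) 0 = xs.getD k 0 := fun k => rfl
    have e2 : xs.getD (i : ℕ) 0 = xs[(finCongr hn.symm) i] :=
      List.getD_eq_getElem xs 0 ((finCongr hn.symm) i).2
    simp only [e1, e3]
    rw [e2]
    refine if_congr Iff.rfl ?_ rfl
    have hlen : (xs.eraseIdx ((finCongr hn.symm) i)).length = n := by
      rw [List.length_eraseIdx]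
      have : ((finCongr hn.symm) i : ℕ) < xs.length := ((finCongr hn.symm) i).2
      rw [if_pos this]
      omega
    rw [B6_pmR r _ n hlen]
    have e4 : (fun k : Fin n => xs.getD (i.succAbove k : ℕ) 0) =
        fun k : Fin n => (xs.eraseIdx ((finCongr hn.symm) i)).getD k 0 := by
      funext k
      have hk : (k : ℕ) < (xs.eraseIdx ((finCongr hn.symm) i)).length := by
        rw [hlen]
        exact k.2
      rw [List.getD_eq_getElem _ 0 hk, List.getElem_eraseIdx, Fin.succAbove]
      by_cases hki : (k : ℕ) < (i : ℕ)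
      · have h5 : k.castSucc < i := hki
        have h6 : (k : ℕ) < (((finCongr hn.symm) i : Fin xs.length) : ℕ) := hki
        rw [if_pos h5, dif_pos h6]
        exact List.getD_eq_getElem xs 0 _
      · have h5 : ¬ k.castSucc < i := hki
        have h6 : ¬ (k : ℕ) < (((finCongr hn.symm) i : Fin xs.length) : ℕ) := hki
        rw [if_neg h5, dif_neg h6]
        exact List.getD_eq_getElem xs 0 _
    rw [e4]

theorem pmR_nil (r : ℕ → ℕ → Prop) : pmR r [] = 1 := by
  rw [B6_pmR r [] 0 rfl]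
  have : Unique {f : Fin 0 → Fin 0 // B6C r (fun k => ([] : List ℕ).getD k 0) f} :=
    { default := ⟨fun i => i, fun i => i.elim0, fun i => i.elim0⟩
      uniq := fun f => Subtype.ext (funext fun i => i.elim0) }
  exact Nat.card_unique

theorem pmR_haf (w : List ℕ) : pmR (fun x z => z = x ∨ x = z + 1) w = haf W1 w := by
  classical
  induction h : w.length using Nat.strong_induction_on generalizing w with
  | _ n ih =>
  match w with
  | [] => rw [pmR_nil, haf]
  | x :: xs =>
    rw [pmR_cons, haf]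
    refine Finset.sum_congr rfl fun i _ => ?_
    have hl : (xs.eraseIdx i).length < n := by
      rw [← h, List.length_eraseIdx]
      simp only [List.length_cons]
      split_ifs <;> omega
    rw [ih _ hl _ rfl, W1]
    by_cases h1 : xs[i] = x
    · have h2 : ¬ x = xs[i] + 1 := by omega
      rw [if_pos (Or.inl h1), if_pos h1, if_neg h2]
      simp
    · by_cases h2 : x = xs[i] + 1
      · rw [if_pos (Or.inr h2), if_neg h1, if_pos h2]
        simp
      · rw [if_neg (by tauto), if_neg h1, if_neg h2]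
        simp

theorem B6_pm_eq (w : List ℕ) : pm (ivl w) = pmR (fun x z => z = x ∨ x = z + 1) w := by
  rw [pm, card_pm]
  have hlen : (ivl w).length = w.length := by simp [ivl]
  rw [B6_pmR _ w (ivl w).length hlen.symm]
  refine Nat.card_congr (Equiv.subtypeEquivRight fun f => ?_)
  unfold B6C
  refine and_congr Iff.rfl (forall_congr' fun i => ?_)
  have hget : ∀ k : Fin (ivl w).length, (ivl w)[k] =
      (w.getD k 0 * (w.length + 1) + k, w.getD k 0 * (w.length + 1) + k + (w.length + 1)) := by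
    intro k
    rw [Fin.getElem_fin]
    simp only [ivl, List.getElem_map, List.getElem_range]
  have hk : ∀ k : Fin (ivl w).length, (k : ℕ) < w.length := fun k => hlen ▸ k.2
  show (i ≠ f i ∧ ∃ t : ℕ, ((ivl w)[i].1 ≤ t ∧ t ≤ (ivl w)[i].2) ∧
    ((ivl w)[f i].1 ≤ t ∧ t ≤ (ivl w)[f i].2)) ↔ _
  rw [hget, hget]
  generalize hj : f i = j
  have h1 := hk i
  have h2 := hk j
  set N := w.length with hN
  set x := w.getD (i : ℕ) 0 with hx
  set z := w.getD (j : ℕ) 0 with hz
  have key : ∀ a b : Fin (ivl w).length, ∀ x z : ℕ, a < b →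
      ((∃ t : ℕ, (x * (N + 1) + a ≤ t ∧ t ≤ x * (N + 1) + a + (N + 1)) ∧
        (z * (N + 1) + b ≤ t ∧ t ≤ z * (N + 1) + b + (N + 1))) ↔ (z = x ∨ x = z + 1)) := by
    intro a b x z hab
    have ha := hk a
    have hb := hk b
    have hab' : (a : ℕ) < (b : ℕ) := hab
    constructor
    · rintro ⟨t, ⟨h3, h4⟩, h5, h6⟩
      rcases lt_trichotomy x z with hlt | heq | hgt
      · obtain ⟨d, rfl⟩ : ∃ d, z = x + 1 + d := ⟨z - (x + 1), by omega⟩
        have : (x + 1 + d) * (N + 1) = x * (N + 1) + (N + 1) + d * (N + 1) := by ring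
        rw [this] at h5
        omega
      · exact Or.inl heq.symm
      · obtain ⟨d, rfl⟩ : ∃ d, x = z + 1 + d := ⟨x - (z + 1), by omega⟩
        rcases Nat.eq_zero_or_pos d with rfl | hd
        · exact Or.inr rfl
        · have h7 : (z + 1 + d) * (N + 1) = z * (N + 1) + (N + 1) + d * (N + 1) := by ring
          have h8 : N + 1 ≤ d * (N + 1) := Nat.le_mul_of_pos_left _ hd
          rw [h7] at h3
          omega
    · rintro (rfl | rfl)
      · exact ⟨z * (N + 1) + b, ⟨by omega, by omega⟩, by omega, by omega⟩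
      · have h7 : (z + 1) * (N + 1) = z * (N + 1) + (N + 1) := by ring
        exact ⟨z * (N + 1) + (N + 1) + a, ⟨by omega, by omega⟩, by omega, by omega⟩
  constructor
  · rintro ⟨hne, ht⟩
    rcases lt_or_gt_of_ne hne with hlt | hgt
    · exact Or.inl ⟨hlt, (key i j x z hlt).1 ht⟩
    · refine Or.inr ⟨hgt, (key j i z x hgt).1 ?_⟩
      obtain ⟨t, ht1, ht2⟩ := ht
      exact ⟨t, ht2, ht1⟩
  · rintro (⟨hlt, hr⟩ | ⟨hgt, hr⟩)
    · exact ⟨hlt.ne, (key i j x z hlt).2 hr⟩
    · obtain ⟨t, ht1, ht2⟩ := (key j i z x hgt).2 hr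
      exact ⟨hgt.ne', t, ht2, ht1⟩

theorem pm_ivl (w : List ℕ) : pm (ivl w) = haf W1 w := by
  rw [B6_pm_eq, pmR_haf]

end Pool.Agent.H549R2.UI
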