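import Pool.Agent.H549R2.NRed
import Pool.Agent.H549R2.PM10

/-!
# Perfect matchings of unit interval graphs: definitions

Words are lists of letters (natural numbers), the head is the earliest letter.
-/

namespace Pool.Agent.H549R2.UI

open Finset MvPolynomial

/-- the states -/
abbrev V := MvPolynomial ℕ ℚ

section Words

variable {R : Type*} [CommSemiring R]

/-- the weighted number of perfect matchings of a word: a pair consisting of an earlier letter `x`
and a later letter `z` has weight `W x z` -/
def haf (W : ℕ → ℕ → R) : List ℕ → R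
  | [] => 1
  | x :: xs => ∑ i : Fin xs.length, W x xs[i] * haf W (xs.eraseIdx i)
termination_by w => w.length
decreasing_by
  simp only [List.length_cons, List.length_eraseIdx]
  split_ifs <;> omega

/-- weights of the unit interval graphs -/
def W1 (x z : ℕ) : R := (if z = x then 1 else 0) + (if x = z + 1 then 1 else 0)

/-- weights of the bipartite words: odd letters `2 b + 1` are rows of type `b`, even letters `2 b`
are columns of type `b`; a row of type `b` is matched with a later column of type `b` or `b + 1` -/
def W3 (x z : ℕ) : R := if x % 2 = 1 ∧ (z + 1 = x ∨ z = x + 1) then 1 else 0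

end Words

/-- the even number among `x` and `x + 1` -/
def ev (x : ℕ) : ℕ := x + x % 2

/-- the weights after the Gaussian extrapolation -/
def W2 (x z : ℕ) : ℚ := W1 x z - (if ev x = ev z then 1 else 0)

/-- the intervals (all of the same length) of a word -/
def ivl (w : List ℕ) : List (ℕ × ℕ) :=
  (List.range w.length).map (fun k => (w.getD k 0 * (w.length + 1) + k,
    w.getD k 0 * (w.length + 1) + k + (w.length + 1)))

/-- the transposed word of operators of the unit interval graphs, applied to a state -/
noncomputable def stp : List ℕ → V → V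
  | [], p => p
  | x :: xs, p => (X x + X (x + 1)) * stp xs p + pderiv x (stp xs p)

/-- `M z` copies of each letter `z` of the list `zs` -/
def bw (zs : List ℕ) (M : ℕ → ℕ) : List ℕ := zs.flatMap (fun z => List.replicate (M z) z)

/-- normalised moments of one variable: `2 ^ j * x * (x - 1) * ⋯ * (x - j + 1)` for `k = 2 j` -/
def mo (x : ℚ) (k : ℕ) : ℚ := if k % 2 = 0 then 2 ^ (k / 2) * ∏ i ∈ range (k / 2), (x - i) else 0

/-- normalised moments of a monomial -/
noncomputable def mu (zs : List ℕ) (x : ℚ) (s : ℕ →₀ ℕ) : ℚ :=
  s.prod (fun a k => if a ∈ zs then mo x k else (if k = 0 then 1 else 0))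

/-- the functional with these moments -/
noncomputable def ET (zs : List ℕ) (x : ℚ) : V →ₗ[ℚ] ℚ :=
  (MvPolynomial.basisMonomials ℕ ℚ).constr ℚ (mu zs x)

/-- the operator of a letter of a bipartite word -/
noncomputable def opL (x : ℕ) (p : V) : V :=
  if x % 2 = 1 then (X (x / 2) + X (x / 2 + 1)) * p else pderiv (x / 2) p

/-- the operators of a bipartite word, the head is applied first -/
noncomputable def fw : List ℕ → V → V
  | [], p => p
  | x :: xs, p => fw xs (opL x p)

/-- binomial coefficients with a rational upper entry -/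
def bin (t : ℚ) (k : ℕ) : ℚ := (∏ i ∈ range k, (t - i)) / k.factorial

/-- the normalised gadget with parameter `t` -/
noncomputable def Gop (K : ℕ) (t : ℚ) (r y : ℕ) (p : V) : V :=
  ∑ k ∈ range (K + 1), C (bin t k / k.factorial) * ((X r + X (r + 1)) ^ k * (pderiv y)^[k] p)

/-- an instruction `(r, y, e)`: `m + e` rows of type `r` followed by `m + e` columns of type `y` -/
abbrev Ins := ℕ × ℕ × ℕ

/-- the letters of a list of instructions -/
def lettersP (m : ℕ) (prog : List Ins) : List ℕ :=
  prog.flatMap (fun i => List.replicate (m + i.2.2) (2 * i.1 + 1) ++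
    List.replicate (m + i.2.2) (2 * i.2.1))

/-- the product of the factorials of a list of instructions -/
def facP (m : ℕ) (prog : List Ins) : ℕ := (prog.map (fun i => (m + i.2.2).factorial)).prod

/-- the normalised operators of a list of instructions, the head is applied first -/
noncomputable def run (K : ℕ) (t : ℚ) : List Ins → V → V
  | [], p => p
  | i :: is, p => run K t is (Gop K (t + i.2.2) i.1 i.2.1 p)

/-- valid instructions -/
def OKI (i : Ins) : Prop := (i.2.1 = i.1 ∨ i.2.1 = i.1 + 1) ∧ i.2.2 ≤ 7

/-- the crossing -/
def crs (q : ℕ) : List Ins := [(q, q + 1, 7), (q, q, 4), (q, q + 1, 4)]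

/-- one cell of the matrix, forward part -/
def cell (q a : ℕ) : List Ins :=
  crs q ++ [(q + 1, q + 1, 5), (q + 1, q + 2, 7)] ++ crs (q + 2) ++ [(q + 1, q + 1, a), (q, q + 1, 5)]

/-- one cell of the matrix, backward part -/
def back (q : ℕ) : List Ins := [(q + 2, q + 2, 5), (q, q, 5)]

/-- one row of the matrix -/
def rowP : ℕ → List ℕ → List Ins
  | q, [] => [(q, q, 5)]
  | q, a :: as => cell q a ++ rowP (q + 3) as ++ back q

/-- the linear form of a row of the matrix -/
noncomputable def ell : ℕ → List ℕ → V
  | q, [] => -X (q + 1)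
  | q, a :: as => C (7 - 2 * (a : ℚ)) * X (q + 1) + C (2 * (a : ℚ)) * X (q + 3) +
      C (-8) * ell (q + 3) as

/-- the entries of a row as numbers -/
def nums (r : List Bool) : List ℕ := r.map (fun b => bif b then 1 else 0)

/-- the last letters -/
def fin (n : ℕ) : List ℕ := (List.range n).map (fun j => 2 * (3 * j + 4))

/-- the word of a matrix -/
def wordA (m : ℕ) (A : List (List Bool)) : List ℕ :=
  A.flatMap (fun r => 1 :: lettersP m (rowP 1 (nums r))) ++ fin A.length

/-- the product of the factorials of a matrix -/
def facA (m : ℕ) (A : List (List Bool)) : ℕ := (A.map (fun r => facP m (rowP 1 (nums r)))).prod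

/-- the normalised operators of the rows of a matrix -/
noncomputable def runA (K : ℕ) (t : ℚ) : List (List Bool) → V → V
  | [], p => p
  | r :: A, p => runA K t A (run K t (rowP 1 (nums r)) ((X 0 + X 1) * p))

/-- the normalised value of a matrix -/
noncomputable def valA (t : ℚ) (A : List (List Bool)) : ℚ :=
  constantCoeff (fw (fin A.length) (runA A.length t A 1))

/-- the degree of the extrapolation -/
def degA (A : List (List Bool)) : ℕ := A.length * (A.length * (12 * A.length + 1))

/-- states that depend polynomially on a parameter -/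
def PD (d : ℕ) (s : ℚ → V) : Prop := ∃ a : ℕ → V, ∀ t, s t = ∑ i ∈ range (d + 1), C (t ^ i) * a i

/-- substitution of `-X b` for `X a` -/
noncomputable def sg (a b : ℕ) : V →ₐ[ℚ] V := aeval (Function.update X a (-X b))

/-- the coefficients of the extrapolation to `-β / α` from `0, …, d`, up to sign -/
def cf (α β d i : ℕ) : ℕ := (∏ j ∈ range (d + 1), (α * j + β)) / (α * i + β)

/-- the absolute value of an alternating binomial sum -/
def aalt (q : ℕ) (g : ℕ → ℕ) : ℕ :=
  (Pool.Agent.NPC.H549PM.altp q g 0 - Pool.Agent.NPC.H549PM.altp q g 1) +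
    (Pool.Agent.NPC.H549PM.altp q g 1 - Pool.Agent.NPC.H549PM.altp q g 0)

/-- `1 * 3 * ⋯ * (2 x - 1)` -/
def dfac (x : ℕ) : ℕ := ∏ i ∈ range x, (2 * i + 1)

/-- the number of perfect matchings of a bipartite word; the first list is the list of the zones
that the reduction will use -/
def hB (p : List ℕ × List ℕ) : ℕ := haf W3 p.2

/-- the promise on the bipartite words -/
def OKB (p : List ℕ × List ℕ) : Prop :=
  p.1.Nodup ∧ (∀ z ∈ p.1, z % 2 = 0) ∧ ∀ x ∈ p.2, ev x ∈ p.1

/-- intervals of the same length -/
def SameLen (l : List (ℕ × ℕ)) : Prop := ∃ L, ∀ p ∈ l, p.2 = p.1 + L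

end Pool.Agent.H549R2.UI
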