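import Pool.Agent.H549R2.UI.PDefs
import Pool.Agent.H549R2.BR.P1

/-!
# Perfect matchings of unit interval graphs: the first reduction is computed in polynomial time
-/

namespace Pool.Agent.NPC.H549UI

open Pool.Agent.H549R2.Convex Pool.Agent.H549R2.UI Pool.Agent.NPC.Cnt
open Pool.Agent.NPC.H549Convex (LL sqB sqB_poly poly_prod upoly_fact upoly_choose ent_poly)
open Pool.Agent.NPC.H549PM (altp altp_poly upoly_min)

/-- the forward and backward parts of a row as lists -/
theorem rowP_eq (as : List ℕ) (q : ℕ) : rowP q as =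
    (List.range as.length).flatMap (fun i => cell (q + 3 * i) (as.getD i 0)) ++
      [(q + 3 * as.length, q + 3 * as.length, 5)] ++
      (List.range as.length).flatMap (fun i => back (q + 3 * (as.length - 1 - i))) := by
  induction as generalizing q with
  | nil => simp [Pool.Agent.H549R2.UI.rowP]
  | cons a as ih =>
    have h1 : (List.range (as.length + 1)).flatMap
        (fun i => cell (q + 3 * i) ((a :: as).getD i 0)) =
        cell q a ++ (List.range as.length).flatMap
          (fun i => cell (q + 3 + 3 * i) (as.getD i 0)) := by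
      rw [List.range_succ_eq_map, List.flatMap_cons, List.flatMap_map]
      congr 1
      refine List.flatMap_congr fun i _ => ?_
      rw [List.getD_cons_succ, show q + 3 * i.succ = q + 3 + 3 * i by rw [Nat.succ_eq_add_one]; ring]
    have h2 : (List.range (as.length + 1)).flatMap
        (fun i => back (q + 3 * (as.length + 1 - 1 - i))) =
        (List.range as.length).flatMap (fun i => back (q + 3 + 3 * (as.length - 1 - i))) ++
          back q := by
      rw [List.range_succ, List.flatMap_append]
      congr 1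
      · refine List.flatMap_congr fun i hi => ?_
        rw [List.mem_range] at hi
        rw [show q + 3 * (as.length + 1 - 1 - i) = q + 3 + 3 * (as.length - 1 - i) by omega]
      · simp
    rw [List.length_cons, h1, h2, Pool.Agent.H549R2.UI.rowP, ih (q + 3),
      show q + 3 + 3 * as.length = q + 3 * (as.length + 1) by ring]
    simp only [List.append_assoc]

theorem rowP_le (as : List ℕ) (has : ∀ a ∈ as, a ≤ 7) (q : ℕ) : ∀ i ∈ rowP q as, i.2.2 ≤ 7 := by
  induction as generalizing q with
  | nil =>
    intro i hi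
    rw [Pool.Agent.H549R2.UI.rowP, List.mem_singleton] at hi
    subst hi
    simp
  | cons a as ih =>
    intro i hi
    rw [Pool.Agent.H549R2.UI.rowP, List.mem_append, List.mem_append] at hi
    rcases hi with (hi | hi) | hi
    · have ha := has a (List.mem_cons_self ..)
      simp only [cell, crs, List.cons_append, List.nil_append, List.mem_cons,
        List.not_mem_nil, or_false] at hi
      rcases hi with h | h | h | h | h | h | h | h | h | h <;> subst h <;> simp <;> omega
    · exact ih (fun b hb => has b (List.mem_cons_of_mem _ hb)) (q + 3) i hi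
    · simp only [back, List.mem_cons, List.not_mem_nil, or_false] at hi
      rcases hi with h | h <;> subst h <;> simp

theorem OKI_le (A : LL) : ∀ r ∈ A, ∀ i ∈ rowP 1 (nums r), i.2.2 ≤ 7 := by
  intro r _ i hi
  refine rowP_le (nums r) (fun a ha => ?_) 1 i hi
  rw [nums, List.mem_map] at ha
  obtain ⟨b, _, rfl⟩ := ha
  cases b <;> simp

theorem aalt_poly {α : Type} [TEnc α] {q : α → ℕ} {g : α → ℕ → ℕ} (hq : UPoly q)
    (hg : Poly (fun p : α × ℕ => g p.1 p.2)) : Poly (fun a => aalt (q a) (g a)) :=
  Poly.add (Poly.sub (altp_poly hq hg 0) (altp_poly hq hg 1))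
    (Poly.sub (altp_poly hq hg 1) (altp_poly hq hg 0))

theorem degA_upoly : UPoly degA := by
  have hl : UPoly (fun A : LL => A.length) := UPoly.length Poly.id
  exact UPoly.mul hl (UPoly.mul hl (UPoly.add (UPoly.mul (UPoly.const 12) hl) (UPoly.const 1)))

section

variable {α : Type} [TEnc α]

/-- the instructions with three polynomial-time numbers -/
theorem ins_poly {a b : α → ℕ} {c : α → ℕ} (ha : Poly a) (hb : Poly b) (hc : Poly c) :
    Poly (fun x => ((a x, b x, c x) : Ins)) := Poly.pair ha (Poly.pair hb hc)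

theorem crs_poly {q : α → ℕ} (hq : Poly q) : Poly (fun x => crs (q x)) :=
  Poly.cons (ins_poly hq (Poly.succ hq) (Poly.const 7))
    (Poly.cons (ins_poly hq hq (Poly.const 4))
      (Poly.cons (ins_poly hq (Poly.succ hq) (Poly.const 4)) (Poly.const [])))

theorem cell_poly {q a : α → ℕ} (hq : Poly q) (ha : Poly a) : Poly (fun x => cell (q x) (a x)) := by
  have h1 : Poly (fun x => q x + 1) := Poly.succ hq
  have h2 : Poly (fun x => q x + 2) := Poly.succ h1
  exact Poly.append (Poly.append (Poly.append (crs_poly hq)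
    (Poly.cons (ins_poly h1 h1 (Poly.const 5)) (Poly.cons (ins_poly h1 h2 (Poly.const 7))
      (Poly.const [])))) (crs_poly h2))
    (Poly.cons (ins_poly h1 h1 ha) (Poly.cons (ins_poly hq h1 (Poly.const 5)) (Poly.const [])))

theorem back_poly {q : α → ℕ} (hq : Poly q) : Poly (fun x => back (q x)) := by
  have h2 : Poly (fun x => q x + 2) := Poly.succ (Poly.succ hq)
  exact Poly.cons (ins_poly h2 h2 (Poly.const 5))
    (Poly.cons (ins_poly hq hq (Poly.const 5)) (Poly.const []))

theorem rowP_poly : Poly (fun as : List ℕ => rowP 1 as) := by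
  have hl : UPoly (fun as : List ℕ => as.length) := UPoly.length Poly.id
  have hl' : Poly (fun p : List ℕ × ℕ => p.1.length) := Poly.length (Poly.fst Poly.id)
  have hi : Poly (fun p : List ℕ × ℕ => p.2) := Poly.snd Poly.id
  have h3 : Poly (fun as : List ℕ => 1 + 3 * as.length) :=
    Poly.add (Poly.const 1) (Poly.mul (Poly.const 3) hl.toPoly)
  refine (Poly.append (Poly.append (Poly.flatMap
    (F := fun (as : List ℕ) i => cell (1 + 3 * i) (as.getD i 0)) hl.range
    (cell_poly (Poly.add (Poly.const 1) (Poly.mul (Poly.const 3) hi))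
      (Poly.getD (Poly.fst Poly.id) hi (Poly.const 0))))
    (Poly.cons (ins_poly h3 h3 (Poly.const 5)) (Poly.const [])))
    (Poly.flatMap (F := fun (as : List ℕ) i => back (1 + 3 * (as.length - 1 - i))) hl.range
      (back_poly (Poly.add (Poly.const 1) (Poly.mul (Poly.const 3)
        (Poly.sub (Poly.sub hl' (Poly.const 1)) hi)))))).congr fun as => ?_
  rw [rowP_eq]

theorem nums_poly : Poly nums :=
  Poly.map (F := fun (_ : List Bool) b => bif b then 1 else 0) Poly.id
    (Poly.cond (Poly.snd Poly.id) (Poly.const 1) (Poly.const 0))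

theorem rowN_poly {r : α → List Bool} (hr : Poly r) : Poly (fun x => rowP 1 (nums (r x))) :=
  rowP_poly.comp (nums_poly.comp hr)

/-- the letters, with bounded exponents -/
def letB (m : ℕ) (prog : List Ins) : List ℕ :=
  prog.flatMap (fun i => (List.range (m + min i.2.2 7)).map (fun _ => 2 * i.1 + 1) ++
    (List.range (m + min i.2.2 7)).map (fun _ => 2 * i.2.1))

theorem letB_eq (m : ℕ) (prog : List Ins) (h : ∀ i ∈ prog, i.2.2 ≤ 7) :
    letB m prog = lettersP m prog := by
  refine List.flatMap_congr fun i hi => ?_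
  rw [Nat.min_eq_left (h i hi), List.map_const', List.map_const', List.length_range]

theorem uexp {m : α → ℕ} {e : α → ℕ} (hm : UPoly m) (he : Poly e) :
    UPoly (fun x => m x + min (e x) 7) :=
  UPoly.add hm (upoly_min he (UPoly.const 7))

theorem letB_poly {m : α → ℕ} {prog : α → List Ins} (hm : UPoly m) (hp : Poly prog) :
    Poly (fun x => letB (m x) (prog x)) := by
  have hi : Poly (fun p : α × Ins => p.2) := Poly.snd Poly.id
  have hu : UPoly (fun p : α × Ins => m p.1 + min p.2.2.2 7) :=
    uexp (hm.comp (Poly.fst Poly.id)) (Poly.snd (Poly.snd hi))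
  refine Poly.flatMap (F := fun (x : α) (i : Ins) => (List.range (m x + min i.2.2 7)).map
    (fun _ => 2 * i.1 + 1) ++ (List.range (m x + min i.2.2 7)).map (fun _ => 2 * i.2.1)) hp ?_
  refine Poly.append ?_ ?_
  · exact Poly.map (F := fun (p : α × Ins) (_ : ℕ) => 2 * p.2.1 + 1) hu.range
      (Poly.succ (Poly.mul (Poly.const 2) (Poly.fst (Poly.snd (Poly.fst Poly.id)))))
  · exact Poly.map (F := fun (p : α × Ins) (_ : ℕ) => 2 * p.2.2.1) hu.range
      (Poly.mul (Poly.const 2) (Poly.fst (Poly.snd (Poly.snd (Poly.fst Poly.id)))))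

theorem fin_poly {n : α → ℕ} (hn : UPoly n) : Poly (fun x => fin (n x)) :=
  Poly.map (F := fun (_ : α) j => 2 * (3 * j + 4)) hn.range
    (Poly.mul (Poly.const 2) (Poly.add (Poly.mul (Poly.const 3) (Poly.snd Poly.id))
      (Poly.const 4)))

theorem wordA_poly {m : α → ℕ} {A : α → LL} (hm : UPoly m) (hA : Poly A) :
    Poly (fun x => wordA (m x) (A x)) := by
  have h1 : Poly (fun x => (A x).flatMap (fun r => 1 :: letB (m x) (rowP 1 (nums r)))) :=
    Poly.flatMap (F := fun (x : α) r => 1 :: letB (m x) (rowP 1 (nums r))) hA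
      (Poly.cons (Poly.const 1) (letB_poly (hm.comp (Poly.fst Poly.id))
        (rowN_poly (Poly.snd Poly.id))))
  refine (Poly.append h1 (fin_poly (UPoly.length hA))).congr fun x => ?_
  rw [wordA]
  congr 1
  refine List.flatMap_congr fun r hr => ?_
  rw [letB_eq _ _ (OKI_le (A x) r hr)]

/-- the factorials, with bounded exponents -/
theorem facA_poly {m : α → ℕ} {A : α → LL} (hm : UPoly m) (hA : Poly A) :
    Poly (fun x => facA (m x) (A x)) := by
  have h1 : Poly (fun x => (A x).map (fun r => ((rowP 1 (nums r)).map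
      (fun i => (m x + min i.2.2 7).factorial)).prod)) := by
    refine Poly.map (F := fun (x : α) r => ((rowP 1 (nums r)).map
      (fun i => (m x + min i.2.2 7).factorial)).prod) hA ?_
    refine poly_prod ?_
    refine Poly.map (F := fun (p : α × List Bool) (i : Ins) =>
      (m p.1 + min i.2.2 7).factorial) (rowN_poly (Poly.snd Poly.id)) ?_
    exact upoly_fact (uexp (hm.comp (Poly.fst (Poly.fst Poly.id)))
      (Poly.snd (Poly.snd (Poly.snd Poly.id))))
  refine (poly_prod h1).congr fun x => ?_
  rw [facA]
  congr 1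
  refine List.map_congr_left fun r hr => ?_
  rw [facP]
  congr 1
  refine List.map_congr_left fun i hi => ?_
  rw [Nat.min_eq_left (OKI_le (A x) r hr i hi)]

theorem cf_poly {a b : ℕ} {d i : α → ℕ} (hd : UPoly d) (hi : Poly i) :
    Poly (fun x => cf a b (d x) (i x)) := by
  have h1 : Poly (fun x => (List.range (d x + 1)).map (fun j => a * j + b)) :=
    Poly.map (F := fun (_ : α) j => a * j + b) (UPoly.add hd (UPoly.const 1)).range
      (Poly.add (Poly.mul (Poly.const a) (Poly.snd Poly.id)) (Poly.const b))
  have h2 : Poly (fun x => ∏ j ∈ Finset.range (d x + 1), (a * j + b)) := by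
    refine (poly_prod h1).congr fun x => ?_
    rw [Finset.prod_range, ← List.prod_ofFn, List.ofFn_eq_map, ← List.map_coe_finRange_eq_range,
      List.map_map]
    rfl
  exact Poly.div h2 (Poly.add (Poly.mul (Poly.const a) hi) (Poly.const b))

end

theorem qs1_poly : Poly qs1 := by
  have hA : Poly (fun A : LL => A) := Poly.id
  refine Poly.cond sqB_poly ?_ (Poly.const [])
  refine Poly.map (F := fun (A : LL) t => q1 A t)
    (UPoly.add degA_upoly (UPoly.const 1)).range ?_
  have hA1 : Poly (fun p : LL × ℕ => p.1) := Poly.fst Poly.id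
  have hl : UPoly (fun p : LL × ℕ => 3 * p.1.length + 3) :=
    UPoly.add (UPoly.mul (UPoly.const 3) (UPoly.length hA1)) (UPoly.const 3)
  have hm : UPoly (fun p : LL × ℕ => min p.2 (degA p.1)) :=
    upoly_min (Poly.snd Poly.id) (degA_upoly.comp hA1)
  refine Poly.pair ?_ (wordA_poly hm hA1)
  exact Poly.map (F := fun (_ : LL × ℕ) j => 2 * j) hl.range
    (Poly.mul (Poly.const 2) (Poly.snd Poly.id))

theorem pow_prod_poly {α : Type} [TEnc α] {n : α → ℕ} (hn : UPoly n) :
    Poly (fun x => ∏ j ∈ Finset.range (n x), 2 ^ (3 * j + 1)) := by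
  have h0 : UPoly (fun p : α × ℕ => 3 * min p.2 (n p.1) + 1) :=
    UPoly.add (UPoly.mul (UPoly.const 3) (upoly_min (Poly.snd Poly.id)
      (hn.comp (Poly.fst Poly.id)))) (UPoly.const 1)
  have h1 : Poly (fun x => (List.range (n x)).map (fun j => 2 ^ (3 * min j (n x) + 1))) :=
    Poly.map (F := fun (x : α) j => 2 ^ (3 * min j (n x) + 1)) hn.range
      (Pool.Agent.NPC.H549PM.upoly_pow2 h0)
  refine (poly_prod h1).congr fun x => ?_
  have h2 : (List.range (n x)).map (fun j => 2 ^ (3 * min j (n x) + 1)) =
      (List.range (n x)).map (fun j => 2 ^ (3 * j + 1)) := by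
    refine List.map_congr_left fun j hj => ?_
    rw [List.mem_range] at hj
    rw [Nat.min_eq_left hj.le]
  rw [h2, Finset.prod_range, ← List.prod_ofFn, List.ofFn_eq_map, ← List.map_coe_finRange_eq_range,
    List.map_map]
  rfl

theorem post1_poly : Poly post1 := by
  have hA : Poly (fun p : LL × List ℕ => p.1) := Poly.fst Poly.id
  have hd : UPoly (fun p : LL × List ℕ => degA p.1) := degA_upoly.comp hA
  have hfd : Poly (fun p : LL × List ℕ => fa p.1 (degA p.1)) :=
    facA_poly (upoly_min hd.toPoly hd) hA
  refine Poly.cond (sqB_poly.comp hA) ?_ (Poly.const 0)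
  refine Poly.div ?_ (Poly.mul (Poly.mul (upoly_fact hd) hfd)
    (pow_prod_poly (UPoly.length hA)))
  refine aalt_poly (q := fun p : LL × List ℕ => degA p.1)
    (g := fun p t => cf 1 6 (degA p.1) t * ((fa p.1 (degA p.1) / fa p.1 t) * p.2.getD t 0)) hd ?_
  have hA2 : Poly (fun z : (LL × List ℕ) × ℕ => z.1.1) := Poly.fst (Poly.fst Poly.id)
  have hd2 : UPoly (fun z : (LL × List ℕ) × ℕ => degA z.1.1) := degA_upoly.comp hA2
  have ht : Poly (fun z : (LL × List ℕ) × ℕ => z.2) := Poly.snd Poly.id
  exact Poly.mul (cf_poly hd2 ht) (Poly.mul (Poly.div (hfd.comp (Poly.fst Poly.id))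
    (facA_poly (upoly_min ht hd2) hA2)) (Poly.getD (Poly.snd (Poly.fst Poly.id)) ht
      (Poly.const 0)))

end Pool.Agent.NPC.H549UI
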