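import Pool.Agent.H549R2.UI.PDefs
import Pool.Agent.H549R2.UI.A3

/-!
# Perfect matchings of unit interval graphs: the letters of the words, divisibility
-/

namespace Pool.Agent.NPC.H549UI

open Pool.Agent.H549R2.Convex Pool.Agent.H549R2.UI Pool.Agent.NPC.Cnt
open Pool.Agent.NPC.H549Convex (LL sqB)

/-- the types of the instructions of a row -/
theorem rowP_types (as : List ℕ) (q : ℕ) : ∀ i ∈ rowP q as,
    i.1 ≤ q + 3 * as.length ∧ i.2.1 ≤ q + 3 * as.length + 1 := by
  induction as generalizing q with
  | nil =>
    intro i hi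
    simp only [H549R2.UI.rowP, List.mem_singleton] at hi
    subst hi
    simp
  | cons a as ih =>
    intro i hi
    rw [H549R2.UI.rowP] at hi
    rw [List.length_cons]
    rcases List.mem_append.mp hi with hi | hi
    · rcases List.mem_append.mp hi with hi | hi
      · simp only [cell, crs, List.cons_append, List.nil_append, List.mem_cons,
          List.not_mem_nil, or_false] at hi
        rcases hi with hi | hi | hi | hi | hi | hi | hi | hi | hi | hi <;> subst hi <;>
          simp only <;> omega
      · have h := ih (q + 3) i hi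
        omega
    · simp only [back, List.mem_cons, List.not_mem_nil, or_false] at hi
      rcases hi with hi | hi <;> subst hi <;> simp only <;> omega

theorem nums_length (r : List Bool) : (nums r).length = r.length := by
  simp [nums]

theorem mem_zsA {n z : ℕ} : z ∈ zsA n ↔ z % 2 = 0 ∧ z < 2 * (3 * n + 3) := by
  unfold zsA
  rw [List.mem_map]
  constructor
  · rintro ⟨j, hj, rfl⟩
    rw [List.mem_range] at hj
    omega
  · rintro ⟨h1, h2⟩
    exact ⟨z / 2, by rw [List.mem_range]; omega, by omega⟩

theorem OKB_q (A : LL) (h : ∀ r ∈ A, r.length = A.length) (m : ℕ) :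
    OKB (zsA A.length, wordA m A) := by
  refine ⟨?_, ?_, ?_⟩
  · unfold zsA
    refine List.Nodup.map ?_ List.nodup_range
    intro a b hab
    simp only at hab
    omega
  · intro z hz
    exact (mem_zsA.mp hz).1
  · intro x hx
    show H549R2.UI.ev x ∈ zsA A.length
    rw [mem_zsA]
    unfold H549R2.UI.ev
    have hx' : x ∈ wordA m A := hx
    unfold wordA at hx'
    rcases List.mem_append.mp hx' with hx1 | hx1
    · rw [List.mem_flatMap] at hx1
      obtain ⟨r, hr, hx2⟩ := hx1
      rcases List.mem_cons.mp hx2 with hx3 | hx3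
      · subst hx3
        omega
      · unfold lettersP at hx3
        rw [List.mem_flatMap] at hx3
        obtain ⟨i, hi, hx4⟩ := hx3
        have ht := rowP_types _ _ i hi
        rw [nums_length, h r hr] at ht
        rcases List.mem_append.mp hx4 with hx5 | hx5
        · have := List.eq_of_mem_replicate hx5
          omega
        · have := List.eq_of_mem_replicate hx5
          omega
    · unfold fin at hx1
      rw [List.mem_map] at hx1
      obtain ⟨j, hj, rfl⟩ := hx1
      rw [List.mem_range] at hj
      omega

theorem facP_pos (m : ℕ) (prog : List Ins) : 0 < facP m prog := by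
  unfold facP
  apply Nat.pos_of_ne_zero
  intro h
  rw [List.prod_eq_zero_iff] at h
  rw [List.mem_map] at h
  obtain ⟨i, -, hi⟩ := h
  exact (Nat.factorial_pos _).ne' hi

theorem prod_dvd_of {α : Type} (l : List α) (f g : α → ℕ) (h : ∀ a ∈ l, f a ∣ g a) :
    (l.map f).prod ∣ (l.map g).prod := by
  induction l with
  | nil => simp
  | cons a l ih =>
    rw [List.map_cons, List.map_cons, List.prod_cons, List.prod_cons]
    exact mul_dvd_mul (h a List.mem_cons_self) (ih fun b hb => h b (List.mem_cons_of_mem _ hb))

theorem facP_dvd (m m' : ℕ) (h : m ≤ m') (prog : List Ins) : facP m prog ∣ facP m' prog := by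
  unfold facP
  exact prod_dvd_of _ _ _ fun i _ => Nat.factorial_dvd_factorial (by omega)

theorem facA_pos (A : LL) (m : ℕ) : 0 < facA m A := by
  unfold facA
  apply Nat.pos_of_ne_zero
  intro h
  rw [List.prod_eq_zero_iff] at h
  rw [List.mem_map] at h
  obtain ⟨i, -, hi⟩ := h
  exact (facP_pos _ _).ne' hi

theorem facA_dvd (A : LL) (m m' : ℕ) (h : m ≤ m') : facA m A ∣ facA m' A := by
  unfold facA
  exact prod_dvd_of _ _ _ fun i _ => facP_dvd m m' h _

theorem dfac_pos (x : ℕ) : 0 < dfac x := by
  unfold dfac
  exact Finset.prod_pos fun i _ => by omega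

theorem dfac_dvd (x x' : ℕ) (h : x ≤ x') : dfac x ∣ dfac x' := by
  unfold dfac
  apply Finset.prod_dvd_prod_of_subset
  intro i hi
  rw [Finset.mem_range] at hi ⊢
  omega

end Pool.Agent.NPC.H549UI
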