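import Pool.Agent.H549R2.UI.A1
import Pool.Agent.H549R2.UI.A6
import Pool.Agent.H549R2.UI.A7
import Pool.Agent.H549R2.UI.A8
import Pool.Agent.H549R2.UI.A9
import Pool.Agent.H549R2.UI.P1
import Pool.Agent.H549R2.UI.W

/-!
# Perfect matchings of unit interval graphs: the permanent reduces to bipartite words
-/

namespace Pool.Agent.NPC.H549UI

open Pool.Agent.H549R2.Convex Pool.Agent.H549R2.UI Pool.Agent.NPC.Cnt Pool.Agent.NPC.H549NRed
open Pool.Agent.NPC.H549Convex (LL sqB)

theorem sqB_iff (A : LL) : sqB A = true ↔ ∀ r ∈ A, r.length = A.length := by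
  rw [sqB, List.all_eq_true]
  simp

theorem hB_q (A : LL) (m : ℕ) :
    ((hB (zsA A.length, wordA m A) : ℕ) : ℚ) = (facA m A : ℚ) * valA m A := by
  rw [hB, ← cc_fw, cc_wordA]

theorem valA_neg_six (A : LL) (h : ∀ r ∈ A, r.length = A.length) :
    valA (-6) A = (∏ j ∈ Finset.range A.length, (2 * (-8 : ℚ) ^ j)) * ((F A : ℕ) : ℚ) := by
  rw [valA, runA_eq A h, cc_fin A h]

theorem abs_const (n : ℕ) : |∏ j ∈ Finset.range n, (2 * (-8 : ℚ) ^ j)| =
    ((∏ j ∈ Finset.range n, 2 ^ (3 * j + 1) : ℕ) : ℚ) := by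
  rw [Finset.abs_prod]
  push_cast
  refine Finset.prod_congr rfl fun j _ => ?_
  rw [abs_mul, abs_pow, abs_neg, pow_succ, pow_mul]
  norm_num
  ring

theorem post1_correct (A : LL) : post1 (A, (qs1 A).map hB) = F A := by
  rw [post1]
  simp only
  cases hg : sqB A with
  | false =>
    rw [cond_false]
    have h1 : ¬ ∀ r ∈ A, r.length = A.length := by
      rw [← sqB_iff, hg]
      simp
    rw [F, if_neg h1]
  | true =>
    rw [cond_true]
    have hsq := (sqB_iff A).1 hg
    obtain ⟨P, hP, hP2⟩ := exists_poly A hsq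
    set d := degA A with hd
    have hfa : ∀ t ≤ d, fa A t = facA t A := fun t ht => by rw [fa, Nat.min_eq_left ht]
    have hans : ∀ t ≤ d, ((qs1 A).map hB).getD t 0 = hB (zsA A.length, wordA t A) := by
      intro t ht
      have h1 : qs1 A = (List.range (d + 1)).map (q1 A) := by rw [qs1, hg, cond_true]
      rw [h1, List.map_map, List.getD_eq_getElem _ _ (by simp; omega), List.getElem_map,
        List.getElem_range, Function.comp, q1, Nat.min_eq_left ht]
    have hfac : ∀ t, ((facA t A : ℕ) : ℚ) ≠ 0 := fun t => by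
      have := facA_pos A t
      positivity
    rw [aalt_eq d _ (d.factorial * fa A d * (∏ j ∈ Finset.range A.length, 2 ^ (3 * j + 1)) * F A),
      Nat.mul_div_cancel_left]
    · have h1 := facA_pos A d
      rw [hfa d le_rfl]
      have h2 : 0 < ∏ j ∈ Finset.range A.length, 2 ^ (3 * j + 1) :=
        Finset.prod_pos fun j _ => by positivity
      positivity
    · have h1 : ∑ t ∈ Finset.range (d + 1), (-1 : ℚ) ^ t * (d.choose t) *
          ((cf 1 6 d t * ((fa A d / fa A t) * ((qs1 A).map hB).getD t 0) : ℕ) : ℚ) =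
          (facA d A : ℚ) * ((1 : ℕ) ^ d * d.factorial * P.eval (-((6 : ℕ) : ℚ) / (1 : ℕ))) := by
        rw [extrap P d 1 6 (by norm_num) (by norm_num) hP, Finset.mul_sum]
        refine Finset.sum_congr rfl fun t ht => ?_
        rw [Finset.mem_range] at ht
        rw [hfa t (by omega), hfa d le_rfl, hans t (by omega)]
        push_cast [Nat.cast_div (facA_dvd A t d (by omega)) (hfac t), hB_q A t]
        rw [← hP2 (t : ℚ)]
        have := hfac t
        field_simp
      rw [h1]
      have h2 : P.eval (-((6 : ℕ) : ℚ) / (1 : ℕ)) = valA (-6) A := by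
        rw [hP2]
        norm_num
      rw [h2, valA_neg_six A hsq, abs_mul, abs_mul, abs_mul, abs_mul, abs_const]
      rw [hfa d le_rfl]
      simp only [Nat.abs_cast, Nat.cast_one, one_pow, abs_one]
      push_cast
      ring

/-- the 0-1 permanent reduces to matchings of bipartite words -/
theorem nred_word : NRed (fun _ : LL => True) F OKB hB := by
  refine ⟨qs1, post1, qs1_poly, post1_poly, fun A _ => ⟨fun b hb => ?_, post1_correct A⟩⟩
  rw [qs1] at hb
  cases hg : sqB A with
  | false =>
    rw [hg, cond_false] at hb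
    simp at hb
  | true =>
    rw [hg, cond_true, List.mem_map] at hb
    obtain ⟨t, _, rfl⟩ := hb
    exact OKB_q A ((sqB_iff A).1 hg) _

end Pool.Agent.NPC.H549UI
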