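import Pool.Agent.H549R2.UI.P1

/-!
# Perfect matchings of unit interval graphs: the second reduction is computed in polynomial time
-/

namespace Pool.Agent.NPC.H549UI

open Pool.Agent.H549R2.Convex Pool.Agent.H549R2.UI Pool.Agent.NPC.Cnt
open Pool.Agent.NPC.H549Convex (LL sqB poly_prod upoly_fact upoly_choose ent_poly)
open Pool.Agent.NPC.H549PM (altp altp_poly upoly_min)

theorem ivl_poly : Poly ivl := by
  have hw : Poly (fun p : List ℕ × ℕ => p.1) := Poly.fst Poly.id
  have hk : Poly (fun p : List ℕ × ℕ => p.2) := Poly.snd Poly.id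
  have h1 : Poly (fun p : List ℕ × ℕ => p.1.getD p.2 0 * (p.1.length + 1) + p.2) :=
    Poly.add (Poly.mul (Poly.getD hw hk (Poly.const 0)) (Poly.succ (Poly.length hw))) hk
  exact Poly.map (F := fun (w : List ℕ) k => (w.getD k 0 * (w.length + 1) + k,
    w.getD k 0 * (w.length + 1) + k + (w.length + 1))) (Poly.range_length Poly.id)
    (Poly.pair h1 (Poly.add h1 (Poly.succ (Poly.length hw))))

section General

variable {α : Type} [TEnc α]

theorem prod_range_poly2 {n : α → ℕ} {f : α → ℕ → ℕ} (hn : UPoly n)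
    (hf : Poly (fun p : α × ℕ => f p.1 p.2)) :
    Poly (fun a => ∏ i ∈ Finset.range (n a), f a i) := by
  refine (poly_prod (Poly.map (F := f) hn.range hf)).congr fun a => ?_
  generalize n a = m
  induction m with
  | zero => simp
  | succ m ih =>
    rw [List.range_succ, List.map_append, List.prod_append, ih, Finset.prod_range_succ]
    simp

theorem replicate_poly2 {n z : α → ℕ} (hn : UPoly n) (hz : Poly z) :
    Poly (fun a => List.replicate (n a) (z a)) := by
  refine (Poly.map (F := fun (a : α) (_ : ℕ) => z a) hn.range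
    (hz.comp (Poly.fst Poly.id))).congr fun a => ?_
  rw [List.map_const', List.length_range]

theorem dfac_poly2 {x : α → ℕ} (hx : UPoly x) : Poly (fun a => dfac (x a)) :=
  prod_range_poly2 (f := fun _ i => 2 * i + 1) hx
    (Poly.succ (Poly.mul (Poly.const 2) (Poly.snd Poly.id)))

theorem pow_poly2 {n : α → ℕ} {f : α → ℕ} (hn : UPoly n) (hf : Poly f) :
    Poly (fun a => f a ^ n a) := by
  refine (prod_range_poly2 (f := fun a _ => f a) hn (hf.comp (Poly.fst Poly.id))).congr
    fun a => ?_
  rw [Finset.prod_const, Finset.card_range]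

theorem cf_poly2 {a b : ℕ} {d i : α → ℕ} (hd : UPoly d) (hi : Poly i) :
    Poly (fun x => cf a b (d x) (i x)) :=
  Poly.div (prod_range_poly2 (f := fun _ j => a * j + b) (UPoly.add hd (UPoly.const 1))
    (Poly.add (Poly.mul (Poly.const a) (Poly.snd Poly.id)) (Poly.const b)))
    (Poly.add (Poly.mul (Poly.const a) hi) (Poly.const b))

end General

theorem q2_poly : Poly (fun p : (List ℕ × List ℕ) × ℕ => q2 p.1 p.2) := by
  have hm : UPoly (fun p : (List ℕ × List ℕ) × ℕ => 2 * min p.2 p.1.2.length) :=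
    UPoly.mul (UPoly.const 2) (upoly_min (Poly.snd Poly.id)
      (UPoly.length (Poly.snd (Poly.fst Poly.id))))
  refine ivl_poly.comp (Poly.append ?_ (Poly.snd (Poly.fst Poly.id)))
  refine Poly.flatMap (F := fun (p : (List ℕ × List ℕ) × ℕ) z =>
    List.replicate (2 * min p.2 p.1.2.length) z) (Poly.fst (Poly.fst Poly.id)) ?_
  exact replicate_poly2 (hm.comp (Poly.fst Poly.id)) (Poly.snd Poly.id)

theorem qs2_poly : Poly qs2 :=
  Poly.map (F := fun (p : List ℕ × List ℕ) t => q2 p t)
    (UPoly.add (UPoly.length (Poly.snd Poly.id)) (UPoly.const 1)).range q2_poly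

theorem da_poly2 {α : Type} [TEnc α] {p : α → List ℕ × List ℕ} {t : α → ℕ} (hp : Poly p)
    (ht : Poly t) : Poly (fun a => da (p a) (t a)) :=
  pow_poly2 (UPoly.length (Poly.fst hp)) (dfac_poly2 (upoly_min ht (UPoly.length (Poly.snd hp))))

theorem post2_poly : Poly post2 := by
  have hd : UPoly (fun z : (List ℕ × List ℕ) × List ℕ => z.1.2.length) :=
    UPoly.length (Poly.snd (Poly.fst Poly.id))
  refine Poly.div ?_ ?_
  · refine aalt_poly (g := fun (z : (List ℕ × List ℕ) × List ℕ) t => cf 2 1 z.1.2.length t *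
      ((da z.1 z.1.2.length / da z.1 t) * z.2.getD t 0)) hd ?_
    have hz : Poly (fun q : ((List ℕ × List ℕ) × List ℕ) × ℕ => q.1.1) :=
      Poly.fst (Poly.fst Poly.id)
    have ht : Poly (fun q : ((List ℕ × List ℕ) × List ℕ) × ℕ => q.2) := Poly.snd Poly.id
    have hd' : UPoly (fun q : ((List ℕ × List ℕ) × List ℕ) × ℕ => q.1.1.2.length) :=
      UPoly.length (Poly.snd hz)
    refine Poly.mul (cf_poly2 hd' ht) (Poly.mul (Poly.div (da_poly2 hz hd'.toPoly)
      (da_poly2 hz ht)) (Poly.getD (Poly.snd (Poly.fst Poly.id)) ht (Poly.const 0)))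
  · exact Poly.mul (Poly.mul (H549PM.upoly_pow2 hd) (upoly_fact hd))
      (da_poly2 (Poly.fst Poly.id) hd.toPoly)

end Pool.Agent.NPC.H549UI
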