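import Pool.Agent.H549R2.UI.A1
import Pool.Agent.H549R2.UI.A9
import Pool.Agent.H549R2.UI.B1
import Pool.Agent.H549R2.UI.B2
import Pool.Agent.H549R2.UI.B4
import Pool.Agent.H549R2.UI.B6
import Pool.Agent.H549R2.UI.P2
import Pool.Agent.H549R2.UI.W

/-!
# Perfect matchings of unit interval graphs: bipartite words reduce to unit interval graphs
-/

namespace Pool.Agent.NPC.H549UI

open Pool.Agent.H549R2.Convex Pool.Agent.H549R2.UI Pool.Agent.NPC.Cnt Pool.Agent.NPC.H549NRed
open Pool.Agent.H549R2.PM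

theorem sameLen_ivl (w : List ℕ) : SameLen (ivl w) := by
  refine ⟨w.length + 1, fun p hp => ?_⟩
  rw [ivl, List.mem_map] at hp
  obtain ⟨k, _, rfl⟩ := hp
  rfl

theorem pm_q2 (p : List ℕ × List ℕ) (hp : OKB p) (t : ℕ) (ht : t ≤ p.2.length) :
    ((pm (q2 p t) : ℕ) : ℚ) = (dfac t : ℚ) ^ p.1.length * ET p.1 t (stp p.2 1) := by
  rw [q2, pm_ivl, haf_W1, ← cc_stp, stp_append, Nat.min_eq_left ht,
    cc_blocks p.1 hp.2.1 hp.1]

theorem post2_correct (p : List ℕ × List ℕ) (hp : OKB p) (g : List (ℕ × ℕ) → ℕ)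
    (hg : ∀ l, SameLen l → g l = pm l) : post2 (p, (qs2 p).map g) = hB p := by
  rw [post2]
  simp only
  obtain ⟨P, hP, hP2⟩ := ET_poly p.1 p.2
  set d := p.2.length with hd
  have hda : ∀ t ≤ d, da p t = dfac t ^ p.1.length := fun t ht => by rw [da, Nat.min_eq_left ht]
  have hans : ∀ t ≤ d, ((qs2 p).map g).getD t 0 = pm (q2 p t) := by
    intro t ht
    rw [qs2, List.map_map, List.getD_eq_getElem _ _ (by simp; omega), List.getElem_map,
      List.getElem_range, Function.comp]
    exact hg _ (sameLen_ivl _)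
  have hfac : ∀ t, ((dfac t : ℕ) : ℚ) ≠ 0 := fun t => by
    have := dfac_pos t
    positivity
  have hdp : ∀ t, 0 < dfac t ^ p.1.length := fun t => pow_pos (dfac_pos t) _
  rw [aalt_eq d _ (2 ^ d * d.factorial * da p d * hB p), Nat.mul_div_cancel_left]
  · rw [hda d le_rfl]
    have := hdp d
    positivity
  · have h1 : ∑ t ∈ Finset.range (d + 1), (-1 : ℚ) ^ t * (d.choose t) *
        ((cf 2 1 d t * ((da p d / da p t) * ((qs2 p).map g).getD t 0) : ℕ) : ℚ) =
        ((dfac d : ℚ) ^ p.1.length) *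
          (((2 : ℕ) : ℚ) ^ d * d.factorial * P.eval (-((1 : ℕ) : ℚ) / (2 : ℕ))) := by
      rw [extrap P d 2 1 (by norm_num) (by norm_num) hP, Finset.mul_sum]
      refine Finset.sum_congr rfl fun t ht => ?_
      rw [Finset.mem_range] at ht
      rw [hda t (by omega), hda d le_rfl, hans t (by omega)]
      have h3 : dfac t ^ p.1.length ∣ dfac d ^ p.1.length :=
        pow_dvd_pow_of_dvd (dfac_dvd t d (by omega)) _
      have h4 : (((dfac t ^ p.1.length : ℕ)) : ℚ) ≠ 0 := by
        have := hdp t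
        positivity
      rw [Nat.cast_mul, Nat.cast_mul, Nat.cast_div h3 h4, pm_q2 p hp t (by omega), ← hP2 (t : ℚ)]
      push_cast
      push_cast at h4
      field_simp
    rw [h1]
    have h2 : P.eval (-((1 : ℕ) : ℚ) / (2 : ℕ)) = haf W2 p.2 := by
      rw [← ET_stp p.1 hp.2.1 p.2 hp.2.2, hP2]
      norm_num
    rw [h2, haf_W2, ← haf_W3, abs_mul, abs_mul, abs_mul, abs_mul, hda d le_rfl, hB]
    simp only [abs_pow, Nat.abs_cast, abs_neg, abs_one, one_pow, one_mul]
    push_cast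
    ring

/-- matchings of bipartite words reduce to perfect matchings of unit interval graphs -/
theorem nred_unit : NRed OKB hB SameLen pm := by
  refine ⟨qs2, post2, qs2_poly, post2_poly, fun p hp => ⟨fun b hb => ?_,
    post2_correct p hp pm fun _ _ => rfl⟩⟩
  rw [qs2, List.mem_map] at hb
  obtain ⟨t, _, rfl⟩ := hb
  exact sameLen_ivl _

end Pool.Agent.NPC.H549UI
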