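import Pool.Agent.H549R2.UI.M1
import Pool.Agent.H549R2.UI.M2

/-!
# Counting perfect matchings of unit interval graphs is `#P`-complete
-/

namespace Pool.Agent.NPC.H549UI

open Pool.Agent.H549R2.Convex Pool.Agent.H549R2.UI Pool.Agent.NPC.Cnt Pool.Agent.NPC.H549NRed
open Pool.Agent.H549R2.PM Pool.Agent.NPC.H549PM
open Pool.Agent.NPC.H549Convex (LL)

theorem nred_FU : NRed (fun _ : LL => True) F SameLen pm := nred_word.comp nred_unit

theorem nred_satU : NRed (fun _ : CNF ℕ => True) (fun φ => satCount φ) SameLen pm :=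
  nred_sat.comp nred_FU

open Classical in
/-- The number of perfect matchings of the interval graph of a list of intervals of the same
length; other inputs have value `0`. -/
noncomputable def pmUnit (l : List (ℕ × ℕ)) : ℕ := if SameLen l then pm l else 0

/-- test for intervals of the same length -/
def sameB (l : List (ℕ × ℕ)) : Bool :=
  l.all (fun p => decide ((l.getD 0 (0, 0)).1 ≤ (l.getD 0 (0, 0)).2) &&
    decide (p.2 = p.1 + ((l.getD 0 (0, 0)).2 - (l.getD 0 (0, 0)).1)))

theorem sameB_iff (l : List (ℕ × ℕ)) : sameB l = true ↔ SameLen l := by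
  rw [sameB, List.all_eq_true]
  constructor
  · intro h
    refine ⟨(l.getD 0 (0, 0)).2 - (l.getD 0 (0, 0)).1, fun p hp => ?_⟩
    have := h p hp
    rw [Bool.and_eq_true, decide_eq_true_eq, decide_eq_true_eq] at this
    exact this.2
  · rintro ⟨L, hL⟩ p hp
    rw [Bool.and_eq_true, decide_eq_true_eq, decide_eq_true_eq]
    have h0 : l.getD 0 (0, 0) ∈ l := by
      have hl : 0 < l.length := List.length_pos_of_mem hp
      rw [List.getD_eq_getElem _ _ hl]
      exact List.getElem_mem _
    have h1 := hL _ h0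
    have h2 := hL p hp
    omega

theorem sameB_poly : Poly sameB := by
  have hl : Poly (fun z : List (ℕ × ℕ) × (ℕ × ℕ) => z.1.getD 0 (0, 0)) :=
    Poly.getD (Poly.fst Poly.id) (Poly.const 0) (Poly.const (0, 0))
  have hp : Poly (fun z : List (ℕ × ℕ) × (ℕ × ℕ) => z.2) := Poly.snd Poly.id
  exact Poly.all (p := fun (l : List (ℕ × ℕ)) p =>
    decide ((l.getD 0 (0, 0)).1 ≤ (l.getD 0 (0, 0)).2) &&
      decide (p.2 = p.1 + ((l.getD 0 (0, 0)).2 - (l.getD 0 (0, 0)).1))) Poly.id
    (Poly.and (Poly.decide_le (Poly.fst hl) (Poly.snd hl))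
      (Poly.decide_eq (Poly.snd hp) (Poly.add (Poly.fst hp) (Poly.sub (Poly.snd hl) (Poly.fst hl)))))

theorem sharpP_pmUnit : SharpP (strFn pmUnit) := by
  have h := sharpP_typed (fun (l : List (ℕ × ℕ)) (w : List ℕ) => sameB l && cert l w)
    (Poly.and (sameB_poly.comp (Poly.fst Poly.id)) cert_poly)
    (Polynomial.X * (Polynomial.C 4 * Polynomial.X + Polynomial.C 2) + Polynomial.C 1) ?_
  · have e : (fun l : List (ℕ × ℕ) => Nat.card {w : List ℕ // (sameB l && cert l w) = true}) =
        pmUnit := by
      funext l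
      rw [pmUnit]
      by_cases hl : SameLen l
      · rw [if_pos hl, ← card_cert]
        refine Nat.card_congr (Equiv.subtypeEquivRight fun w => ?_)
        rw [(sameB_iff l).2 hl, Bool.true_and]
      · rw [if_neg hl]
        have h1 : sameB l = false := by
          rw [← sameB_iff] at hl
          exact Bool.eq_false_iff.2 hl
        have h2 : IsEmpty {w : List ℕ // (sameB l && cert l w) = true} :=
          ⟨fun w => by
            obtain ⟨w, hw⟩ := w
            rw [h1] at hw
            simp at hw⟩
        exact Nat.card_of_isEmpty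
    rw [e] at h
    exact h
  · intro l w hc
    rw [Bool.and_eq_true] at hc
    obtain ⟨hlen, f, hf1, hf2⟩ := (cert_iff l w).1 hc.2
    have h1 : ∀ a ∈ w, sz a ≤ 4 * l.length + 1 := by
      intro a ha
      obtain ⟨i, hi, rfl⟩ := List.mem_iff_getElem.1 ha
      have h2 : w[i] < l.length := by
        rw [← hf1 ⟨i, by omega⟩]
        exact (f _).2
      have h3 := sz_nat_le w[i]
      have h4 : (w[i]).size ≤ w[i] := Nat.size_le.2 Nat.lt_two_pow_self
      omega
    have h2 := sz_le_length_mul w _ h1
    have h3 := length_lt_sz l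
    simp only [Polynomial.eval_add, Polynomial.eval_mul, Polynomial.eval_X, Polynomial.eval_C]
    have h4 : w.length * (4 * l.length + 1 + 1) ≤ sz l * (4 * sz l + 2) :=
      Nat.mul_le_mul (by omega) (by omega)
    omega

theorem hard_pmUnit : SharpPHard (strFn pmUnit) := by
  refine hard_of_nred nred_satU (g := pmUnit) (fun l hl => ?_) _ (size_bound pmUnit fun l => ?_)
  · rw [pmUnit, if_pos hl]
  · by_cases hl : SameLen l
    · exact Or.inl (by rw [pmUnit, if_pos hl])
    · exact Or.inr (by rw [pmUnit, if_neg hl])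

theorem fp_iff_unit : (∀ f : List Bool → ℕ, SharpP f → FP f) ↔
    ∃ g : List Bool → List Bool, PolyTime g ∧
      ∀ l : List (ℕ × ℕ), SameLen l → g (bits l) = (pm l).bits := by
  constructor
  · intro h
    exact ⟨_, h _ sharpP_pm, fun l _ => by rw [strFn_bits]⟩
  · intro hg f hf
    exact sharpP_le_of_nred nred_satU hg f hf

end Pool.Agent.NPC.H549UI
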