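import Pool.Agent.H549R2.UI.Defs

/-!
# Perfect matchings of unit interval graphs: queries and final computations
-/

namespace Pool.Agent.NPC.H549UI

open Pool.Agent.H549R2.Convex Pool.Agent.H549R2.UI Pool.Agent.NPC.Cnt
open Pool.Agent.NPC.H549Convex (LL sqB)

/-- the zones -/
def zsA (n : ℕ) : List ℕ := (List.range (3 * n + 3)).map (fun j => 2 * j)

/-- query number `t` of the first reduction -/
def q1 (A : LL) (t : ℕ) : List ℕ × List ℕ := (zsA A.length, wordA (min t (degA A)) A)

/-- the queries of the first reduction -/
def qs1 (A : LL) : List (List ℕ × List ℕ) :=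
  bif sqB A then (List.range (degA A + 1)).map (q1 A) else []

/-- the factorials of the query number `t` -/
def fa (A : LL) (t : ℕ) : ℕ := facA (min t (degA A)) A

/-- the final computation of the first reduction -/
def post1 (p : LL × List ℕ) : ℕ :=
  bif sqB p.1 then
    aalt (degA p.1) (fun t => cf 1 6 (degA p.1) t *
      ((fa p.1 (degA p.1) / fa p.1 t) * p.2.getD t 0)) /
      ((degA p.1).factorial * fa p.1 (degA p.1) *
        ∏ j ∈ Finset.range p.1.length, 2 ^ (3 * j + 1))
  else 0

/-- query number `t` of the second reduction -/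
def q2 (p : List ℕ × List ℕ) (t : ℕ) : List (ℕ × ℕ) :=
  ivl (bw p.1 (fun _ => 2 * min t p.2.length) ++ p.2)

/-- the queries of the second reduction -/
def qs2 (p : List ℕ × List ℕ) : List (List (ℕ × ℕ)) :=
  (List.range (p.2.length + 1)).map (q2 p)

/-- the double factorials of the query number `t` -/
def da (p : List ℕ × List ℕ) (t : ℕ) : ℕ := dfac (min t p.2.length) ^ p.1.length

/-- the final computation of the second reduction -/
def post2 (z : (List ℕ × List ℕ) × List ℕ) : ℕ :=
  aalt z.1.2.length (fun t => cf 2 1 z.1.2.length t *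
    ((da z.1 z.1.2.length / da z.1 t) * z.2.getD t 0)) /
    (2 ^ z.1.2.length * z.1.2.length.factorial * da z.1 z.1.2.length)

end Pool.Agent.NPC.H549UI
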